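import Pool.Agent.P.MP_ab3ecb_nt.TP.Defs

/-! The notions in the statement of the theorem on two primes. -/

namespace Pool.Agent.P.MP_ab3ecb_nt.TP

open scoped Classical

variable {A B : ℤ}

/-- A rational point, seen as a point over the `r`-adic numbers. -/
noncomputable def loc (r : Nat.Primes) (Q : Pt A B ℚ) : Pt A B ℚ_[r.1] :=
  pm (Rat.castHom ℚ_[r.1]) Q

/-- The family `a` lies in the closure of the diagonal image of the set `T` of rational points. -/
def InCl (T : Set (Pt A B ℚ)) {S : Set Nat.Primes} (a : ∀ r : S, Pt A B ℚ_[r.1.1]) : Prop :=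
  (fun r => co (a r)) ∈ closure ((fun Q (r : S) => co (loc r.1 Q)) '' T)

/-- The value of `F` at the point `P` is a square, if `P` is affine. -/
def IsSq {L : Type} [Field L] (F : MvPolynomial (Fin 2) ℤ) (P : Pt A B L) : Prop :=
  ∀ x y h, P = .some x y h → IsSquare (MvPolynomial.aeval ![x, y] F)

end Pool.Agent.P.MP_ab3ecb_nt.TP
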