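import Pool.Agent.P.MP_ab3ecb_nt.TP.Base

/-! Statements which do not use places of the algebraic numbers. -/

namespace Pool.Agent.P.MP_ab3ecb_nt.TP

open Filter Topology
open scoped Classical NNReal

/-! ### The theorem of Furstenberg -/

-- deps:
def S_NLAC : Prop := ∀ a b : ℕ, 1 < a → 1 < b → a.Coprime b → ∀ ε : ℝ, 0 < ε → ∃ N : ℝ, 0 < N ∧
  ∀ y, N ≤ y → ∃ i j : ℕ, y ≤ (a : ℝ) ^ i * b ^ j ∧ (a : ℝ) ^ i * b ^ j ≤ (1 + ε) * y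

-- deps: NLAC
def S_FURA : Prop := ∀ a b : ℕ, 1 < a → 1 < b → a.Coprime b → ∀ T : Set UnitAddCircle,
  IsClosed T → (∀ x ∈ T, a • x ∈ T) → (∀ x ∈ T, b • x ∈ T) →
  (∀ ε : ℝ, 0 < ε → ∃ x ∈ T, x ≠ 0 ∧ ‖x‖ < ε) → T = Set.univ

-- deps: FURA
def S_FURB : Prop := ∀ a b : ℕ, 1 < a → 1 < b → a.Coprime b → ∀ T : Set UnitAddCircle,
  IsClosed T → (∀ x ∈ T, a • x ∈ T) → (∀ x ∈ T, b • x ∈ T) → T.Nonempty →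
  ∃ x ∈ T, IsOfFinAddOrder x

-- deps: FURA FURB
def S_FURC : Prop := ∀ a b : ℕ, 1 < a → 1 < b → a.Coprime b → ∀ T : Set UnitAddCircle,
  IsClosed T → (∀ x ∈ T, a • x ∈ T) → (∀ x ∈ T, b • x ∈ T) → T.Infinite → T = Set.univ

-- deps: FURC
def S_FUR : Prop := ∀ (a b : ℕ) (u : ℝ), 1 < a → 1 < b → a.Coprime b → Irrational u →
  ∀ x y : ℝ, x < y → ∃ (i j : ℕ) (k : ℤ),
    x < (a : ℝ) ^ i * b ^ j * u + k ∧ (a : ℝ) ^ i * b ^ j * u + k < y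

-- deps:
def S_AR : Prop := ∀ p q N : ℕ, p.Prime → q.Prime → 0 < N → ∃ (n₀ N' : ℕ) (e : ℤ), 0 < n₀ ∧
  N'.Coprime p ∧ (N.Coprime (p * q) → (N : ℤ) ∣ e - 1) ∧
  ∀ n d, 0 < n → n₀ ∣ n → Dn p q n d → N ∣ N' * d ∧ (N : ℤ) ∣ d - e

/-! ### Valuations -/

-- deps:
def S_FG : Prop := ∀ (A B : ℤ) (L G : Type) [Field L] [DecidableEq L]
  [LinearOrderedCommGroupWithZero G] (v : Valuation L G) (P Q : Pt A B L), E1 v P → E1 v Q →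
    E1 v (P + Q) ∧ v (Z (P + Q) - Z P - Z Q) ≤ max (v (Z P)) (v (Z Q)) ^ 5

-- deps: FG
def S_MUL : Prop := ∀ (A B : ℤ) (L G : Type) [Field L] [DecidableEq L]
  [LinearOrderedCommGroupWithZero G] (v : Valuation L G),
    (∀ (c : G) (P Q : Pt A B L), Sm v c P → Sm v c Q → Sm v c (P + Q)) ∧
    (∀ (c : G) (P : Pt A B L) (n : ℤ), Sm v c P → Sm v c (n • P)) ∧
    ∀ (P : Pt A B L) (n : ℤ), v n = 1 → E1 v P → v (Z (n • P)) = v (Z P)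

-- deps:
def S_CL : Prop := ∀ (A B : ℤ) (L G : Type) [Field L] [DecidableEq L]
  [LinearOrderedCommGroupWithZero G] (v : Valuation L G) (M : G) (P Q : Pt A B L), P ≠ 0 →
    1 ≤ M → v (X P) ≤ M → E1 v Q → v (Z Q) * M ≤ 1 → P + Q ≠ 0 ∧
      v (X (P + Q) - X P) ≤ v (Z Q) * M ^ 2 ∧ v (Y (P + Q) - Y P) ≤ v (Z Q) * M ^ 2

-- deps:
def S_FAR : Prop := ∀ (A B : ℤ) (L G : Type) [Field L] [DecidableEq L]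
  [LinearOrderedCommGroupWithZero G] (v : Valuation L G) (c M δ : G) (P Q : Pt A B L), P ≠ 0 →
    Q ≠ 0 → δ = v ((4 * A ^ 3 + 27 * B ^ 2 : ℤ) : L) → 1 ≤ M → v (X P) ≤ M → v (X Q) ≤ M →
    c ^ 2 * M ≤ 1 → v (X P - X Q) * M ^ 3 < δ → v (X P - X Q) * M ^ 2 < c ^ 2 * δ →
    v (X P - X Q) ^ 2 * M < c ^ 2 * v 2 ^ 2 * δ → Sm v c (P - Q) ∨ Sm v c (P + Q)

-- deps: FAR
def S_FARE : Prop := ∀ (A B : ℤ) (L : Type) [Field L] [CharZero L] [DecidableEq L]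
  (v : Valuation L ℝ≥0) (c M : ℝ≥0), 4 * A ^ 3 + 27 * B ^ 2 ≠ 0 → 0 < c → ∃ ε : ℝ≥0, 0 < ε ∧
    ∀ P Q : Pt A B L, P ≠ 0 → Q ≠ 0 → v (X P) ≤ M → v (X Q) ≤ M → v (X P - X Q) < ε →
      Sm v c (P - Q) ∨ Sm v c (P + Q)

-- deps:
def S_EVC : Prop := ∀ (A B : ℤ) (F : MvPolynomial (Fin 2) ℤ),
  (∀ (L G : Type) [Field L] [LinearOrderedCommGroupWithZero G] (v : Valuation L G)
    (P Q : Pt A B L), v (X P) ≤ 1 → v (X Q) ≤ 1 → v (X P - X Q) < 1 → v (Y P - Y Q) < 1 →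
      v (ev F P - ev F Q) < 1) ∧
  ∀ (L ι : Type) [NormedField L] (l : Filter ι) (P : ι → Pt A B L) (Q : Pt A B L), ToA l P Q →
    Tendsto (fun i => ev F (P i)) l (𝓝 (ev F Q))

/-! ### Limits -/

-- deps:
def S_LA : Prop := ∀ (A B : ℤ) (L ι : Type) [NormedField L] [DecidableEq L] (l : Filter ι)
  (P : ι → Pt A B L) (Q : Pt A B L), ToA l P Q → ToO l fun i => P i - Q

-- deps:
def S_LB : Prop := ∀ (A B : ℤ) (L ι : Type) [NontriviallyNormedField L] [DecidableEq L]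
  (l : Filter ι) (P Q : ι → Pt A B L) (R : Pt A B L), ToA l P R → ToO l Q →
    ToA l (fun i => P i + Q i) R

-- deps: LA LB
def S_CO : Prop := ∀ (A B : ℤ) (L ι : Type) [NontriviallyNormedField L] [ProperSpace L]
  [DecidableEq L] (l : Filter ι) (P : ι → Pt A B L) (Q : Pt A B L),
    (Tendsto (fun i => co (P i)) l (𝓝 (co Q)) → (Q ≠ 0 → ToA l P Q) ∧ ToO l fun i => P i - Q) ∧
    ∀ Q', l.NeBot → (ToO l fun i => P i - Q) → (ToO l fun i => P i - Q') → Q = Q'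

-- deps:
def S_TS : Prop := ∀ (A B : ℤ) (L ι : Type) [NormedField L] [IsUltrametricDist L] (l : Filter ι)
  (P : ι → Pt A B L), ToO l P ↔
    ∀ c : ℝ≥0, 0 < c → ∀ᶠ i in l, Sm (NormedField.valuation (K := L)) c (P i)

/-! ### Real points -/

-- deps:
def S_DER : Prop := ∀ (A B : ℤ) (c : ℝ → Pt A B ℝ) (Q : Pt A B ℝ) (x : ℝ), 0 < Y (c x) →
  (∀ᶠ t in 𝓝 x, c t ≠ 0 ∧ c t + Q ≠ 0 ∧ X (c t) = t ∧ Y (c t) = √(t ^ 3 + A * t + B)) →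
  (Q ≠ 0 → X Q ≠ x) → HasDerivAt (fun t => X (c t + Q)) (Y (c x + Q) / Y (c x)) x

-- deps: LA LB DER
def S_WPA : Prop := ∀ A B : ℤ, 4 * A ^ 3 + 27 * B ^ 2 ≠ 0 → ∃ (δ r : ℝ) (e : ℝ → Pt A B ℝ),
  0 < δ ∧ (∀ s t, |s| < δ → |t| < δ → e (s + t) = e s + e t) ∧
  (∀ t, |t| < δ → e t = 0 → t = 0) ∧ ToO (𝓝 0) e ∧
  ∀ Q : Pt A B ℝ, r ≤ ‖X Q‖ → Q ≠ 0 → ∃ t, |t| < δ ∧ e t = Q

-- deps:
def S_WPB : Prop := ∀ (G : Type) [AddCommGroup G] (δ : ℝ) (e : ℝ → G), 0 < δ →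
  (∀ s t, |s| < δ → |t| < δ → e (s + t) = e s + e t) → ∃ f : ℝ →+ G, ∀ t, |t| < δ → f t = e t

-- deps: LA
def S_WPC : Prop := ∀ (A B : ℤ) (H : AddSubgroup (Pt A B ℝ)) (r : ℝ), 4 * A ^ 3 + 27 * B ^ 2 ≠ 0 →
  (∀ Q : Pt A B ℝ, r ≤ ‖X Q‖ → Q ∈ H) → (∀ P : Pt A B ℝ, 2 • P ∈ H) ∧ ∃ W ∈ H, W ≠ 0 ∧ 2 • W = 0

-- deps: WPA WPB WPC
def S_WP : Prop := ∀ A B : ℤ, 4 * A ^ 3 + 27 * B ^ 2 ≠ 0 → ∃ f : ℝ →+ Pt A B ℝ, Unif f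

-- deps: LB
def S_RS : Prop := ∀ (A B : ℤ) (ι : Type) (l : Filter ι) (Q : ι → Pt A B ℝ), ToO l Q →
  (∀ (R : Pt A B ℝ) (x : ℝ), (R ≠ 0 → X R ≠ x) → ∀ᶠ i in l, (Pos x (R + Q i) ↔ Pos x R)) ∧
  ∀ V : Pt A B ℝ, 2 • V ≠ 0 → ∀ᶠ i in l, Q i ≠ 0 → V + Q i ≠ 0 ∧ V - Q i ≠ 0 ∧
    (X (V + Q i) - X V) * (X (V - Q i) - X V) < 0

-- deps: LB EVC
def S_KA : Prop := ∀ (A B : ℤ) (F : MvPolynomial (Fin 2) ℤ) (f : ℝ →+ Pt A B ℝ) (R : Pt A B ℚ)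
  (x : ℝ) (l : Ultrafilter ℤ) (s t : ℤ) (r j : ℕ), Unif f → Neg F R → r.Prime →
  (¬ ∀ᶠ m in l, (r : ℤ) ^ j ∣ t * m - s) → ∃ (e : ℕ) (k m₀ : ℤ),
    (∀ᶠ m in l, (r : ℤ) ^ e ∣ m - m₀) ∧
    pm (Rat.castHom ℝ) R + f (x + (t * m₀ - s) * (k / r ^ e)) ≠ 0 ∧
    ev F (pm (Rat.castHom ℝ) R + f (x + (t * m₀ - s) * (k / r ^ e))) < 0

/-! ### The ultrafilter -/

-- deps:
def S_ULT : Prop := ∀ (A B : ℤ) (Γ : AddSubgroup (Pt A B ℚ)) (F : MvPolynomial (Fin 2) ℤ)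
  (S : Set Nat.Primes) (a : ∀ r : S, Pt A B ℚ_[r.1.1]),
  (∃ P : Γ, (AddSubgroup.zmultiples P).FiniteIndex) →
  (fun r => co (a r)) ∈ closure
    ((fun Q (r : S) => co (pm (Rat.castHom ℚ_[r.1.1]) Q)) '' {Q | Q ∈ Γ ∧ Neg F Q}) →
  ∃ P ∈ Γ, ∃ R ∈ Γ, ∃ l : Ultrafilter ℤ, Neg F R ∧
    (∀ Q ∈ Γ, ∃ (k : ℕ) (j : ℤ), 0 < k ∧ k • Q = j • 2 • P) ∧
    ∀ r : S, Tendsto (fun m : ℤ => co (pm (Rat.castHom ℚ_[r.1.1]) (R + m • 2 • P))) l (𝓝 (co (a r)))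

end Pool.Agent.P.MP_ab3ecb_nt.TP
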