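import Pool.Agent.P.MP_ab3ecb_nt.TP.Iface

/-! Step AR. -/

set_option autoImplicit false
set_option linter.unusedSectionVars false

namespace Pool.Agent.P.MP_ab3ecb_nt.TP

open Filter Topology
open scoped Classical NNReal

theorem p_AR :
    S_AR := by
  intro p q N hp hq hN
  obtain ⟨a, N₁, h1, e1⟩ := Nat.exists_eq_pow_mul_and_not_dvd hN.ne' p hp.ne_one
  have hN₁ : N₁ ≠ 0 := by
    rintro rfl
    exact h1 (dvd_zero _)
  obtain ⟨b, N', h2, e2⟩ := Nat.exists_eq_pow_mul_and_not_dvd hN₁ q hq.ne_one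
  have hN' : 0 < N' := Nat.pos_of_ne_zero (by
    rintro rfl
    exact h2 (dvd_zero _))
  have cp : p.Coprime N' := (Nat.Prime.coprime_iff_not_dvd hp).2 fun h =>
    h1 (e2 ▸ h.mul_left _)
  have cq : q.Coprime N' := (Nat.Prime.coprime_iff_not_dvd hq).2 h2
  have eN : N = N' * (p ^ a * q ^ b) := by rw [e1, e2]; ring
  have ht : 0 < N'.totient := Nat.totient_pos.2 hN'
  have key : ∀ n d, 0 < n → N'.totient * (a + b + 1) ∣ n → Dn p q n d →
      p ^ a * q ^ b ∣ d ∧ d ≡ 1 [MOD N'] := by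
    rintro n d hn hd ⟨i, j, hi, hj, rfl⟩
    have h3 : a + b + 1 ≤ n := (Nat.le_mul_of_pos_left _ ht).trans (Nat.le_of_dvd hn hd)
    have h4 : n ≤ n * i := Nat.le_mul_of_pos_right _ hi
    have h5 : n ≤ n * j := Nat.le_mul_of_pos_right _ hj
    refine ⟨mul_dvd_mul (pow_dvd_pow _ (by omega)) (pow_dvd_pow _ (by omega)), ?_⟩
    obtain ⟨k, rfl⟩ := hd
    have h6 := ((Nat.ModEq.pow_totient cp).pow ((a + b + 1) * k * i)).mul
      ((Nat.ModEq.pow_totient cq).pow ((a + b + 1) * k * j))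
    simpa only [one_pow, mul_one, ← pow_mul, mul_assoc] using h6
  have h0 : 0 < N'.totient * (a + b + 1) := Nat.mul_pos ht (Nat.succ_pos _)
  obtain ⟨k1, k2⟩ := key _ _ h0 dvd_rfl ⟨1, 1, one_pos, one_pos, rfl⟩
  have cM : N'.Coprime (p ^ a * q ^ b) :=
    Nat.Coprime.mul_right (cp.symm.pow_right _) (cq.symm.pow_right _)
  refine ⟨_, N', ((p ^ (N'.totient * (a + b + 1) * 1) * q ^ (N'.totient * (a + b + 1) * 1) : ℕ) : ℤ),
    h0, cp.symm, fun hc => ?_, fun n d hn hd hD => ?_⟩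
  · have c1 : N.Coprime (p ^ a * q ^ b) :=
      Nat.Coprime.mul_right ((hc.coprime_mul_right_right).pow_right _)
        ((hc.coprime_mul_left_right).pow_right _)
    have c2 : p ^ a * q ^ b = 1 := c1.symm.eq_one_of_dvd ⟨N', by rw [eN, mul_comm]⟩
    rw [c2, mul_one] at eN
    have := (Nat.modEq_iff_dvd).1 k2.symm
    rw [eN]
    simpa using this
  · obtain ⟨k3, k4⟩ := key n d hn hd hD
    refine ⟨by rw [eN]; exact Nat.mul_dvd_mul_left _ k3, ?_⟩
    rw [eN]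
    exact (Nat.modEq_iff_dvd).1 ((Nat.modEq_and_modEq_iff_modEq_mul cM).1
      ⟨k2.trans k4.symm,
        ((Nat.modEq_zero_iff_dvd).2 k1).trans ((Nat.modEq_zero_iff_dvd).2 k3).symm⟩)

end Pool.Agent.P.MP_ab3ecb_nt.TP
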