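import Pool.Agent.P.MP_ab3ecb_nt.TP.Iface

/-! Step CL. -/

set_option autoImplicit false
set_option linter.unusedSectionVars false

namespace Pool.Agent.P.MP_ab3ecb_nt.TP

open Filter Topology
open scoped Classical NNReal

theorem p_CL :
    S_CL := by
  intro A B L G _ _ _ v M P Q P0 M1 hx hQ hc
  rcases hQ with rfl | hQ
  · simp [P0]
  have Q0 : Q ≠ 0 := fun h => by simp [h] at hQ
  obtain ⟨c, ec⟩ : ∃ c, c = v (Z Q) := ⟨_, rfl⟩
  have c1 : c < 1 := ec ▸ E1.Z_lt (.inr hQ)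
  have e1 : c ^ 2 * v (X Q) = 1 := ec ▸ v_Z hQ
  rw [← ec] at hc ⊢
  have c0 : 0 < c := zero_lt_iff.2 fun h => by simp [h] at e1
  have l1 : v (X P) < v (X Q) := by
    refine hx.trans_lt (lt_of_mul_lt_mul_left ?_ (pow_pos c0 2).le)
    rw [e1, sq, mul_assoc]
    exact (mul_le_of_le_one_right' hc).trans_lt c1
  have d1 : v (X Q - X P) = v (X Q) := v.map_sub_eq_of_lt_left l1
  have S0 : P + Q ≠ 0 := fun h => by
    rw [eq_neg_of_add_eq_zero_left h, X_neg] at l1
    exact l1.false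
  have e2 : c ^ 3 * v (Y Q) = 1 := by
    refine (pow_eq_one_iff_of_nonneg zero_le two_ne_zero).1 ?_
    rw [mul_pow, v_Y hQ, ← pow_mul, mul_comm 3 2, pow_mul, ← mul_pow, e1, one_pow]
  have y1 : v (Y P) ≤ M ^ 2 := by
    refine (pow_le_pow_iff_left₀ zero_le zero_le two_ne_zero).1 ((v_Y_le M1 hx).trans ?_)
    rw [← pow_mul]
    exact pow_le_pow_right₀ M1 (by norm_num)
  obtain ⟨l, a1, a2, a3, a4⟩ := add_spec P0 Q0 S0
  have red : ∀ {s t : L}, s * (X Q - X P) = t → v s = c ^ 2 * v t := fun {s t} h => by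
    rw [← h, map_mul, d1, mul_left_comm, e1, mul_one]
  have l2 : c * v l ≤ 1 := by
    rw [red (t := Y Q - Y P) (by linear_combination -a3), ← mul_assoc, ← pow_succ']
    refine (mul_le_mul_right (v.map_sub _ _) _).trans ?_
    rw [mul_max, e2]
    refine max_le le_rfl ((mul_le_mul_right y1 _).trans ?_)
    rw [pow_succ', mul_assoc, ← mul_pow]
    exact mul_le_one' c1.le (pow_le_one' hc 2)
  have n2 : v 2 ≤ 1 := by simpa using v_int v 2
  have n3 : v 3 ≤ 1 := by simpa using v_int v 3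
  have M2 : 1 ≤ M ^ 2 := one_le_pow₀ M1
  have ph : v (3 * X P ^ 2 + A) ≤ M ^ 2 := by
    refine v.map_add_le ?_ ((v_int v A).trans M2)
    rw [map_mul, map_pow]
    exact (mul_le_of_le_one_left' n3).trans (pow_le_pow_left' hx 2)
  have fin : ∀ {s t : L}, c * v s ≤ M ^ 2 → c * v t ≤ M ^ 2 → c ^ 2 * v (s - t) ≤ c * M ^ 2 :=
    fun {s t} h1 h2 => by
      rw [sq, mul_assoc]
      refine mul_le_mul_right ((mul_le_mul_right (v.map_sub _ _) _).trans ?_) _
      rw [mul_max]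
      exact max_le h1 h2
  have y2 : ∀ t : L, c * v t ≤ 1 → c * v (2 * Y P * t) ≤ M ^ 2 := fun t h => by
    rw [map_mul, map_mul, mul_left_comm]
    exact (mul_le_of_le_one_right' h).trans ((mul_le_of_le_one_left' n2).trans y1)
  have r1 : v (X (P + Q) - X P) ≤ c * M ^ 2 := by
    rw [red (t := 3 * X P ^ 2 + A - 2 * Y P * l)
      (by rw [a1]; linear_combination -l * a3 + a4)]
    exact fin ((mul_le_of_le_one_left' c1.le).trans ph) (y2 l l2)
  refine ⟨S0, r1, ?_⟩
  have r2 : v (X (P + Q) + 2 * X P) ≤ M := by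
    rw [show X (P + Q) + 2 * X P = X (P + Q) - X P + 3 * X P by ring]
    refine v.map_add_le (r1.trans ?_) ?_
    · rw [sq, ← mul_assoc]
      exact mul_le_of_le_one_left' hc
    · rw [map_mul]
      exact (mul_le_of_le_one_left' n3).trans hx
  rw [red (t := 2 * Y P * (X (P + Q) + 2 * X P) - l * (3 * X P ^ 2 + A))
    (by rw [a2, a1]; linear_combination l ^ 2 * a3 - l * a4)]
  refine fin (y2 _ ((mul_le_mul_right r2 _).trans hc)) ?_
  rw [map_mul, ← mul_assoc]
  exact (mul_le_of_le_one_left' l2).trans ph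

end Pool.Agent.P.MP_ab3ecb_nt.TP
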