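import Pool.Agent.P.MP_ab3ecb_nt.TP.Iface

/-! Step CO. -/

set_option autoImplicit false
set_option linter.unusedSectionVars false

namespace Pool.Agent.P.MP_ab3ecb_nt.TP

open Filter Topology
open scoped Classical NNReal

namespace COx

variable {A B : ℤ} {L : Type} [Field L]

theorem co_ne {P : Pt A B L} (h : P ≠ 0) :
    co P = (((X P : L) : OnePoint L), ((Y P : L) : OnePoint L)) := by
  rcases P with _ | ⟨x, y, h'⟩
  · exact absurd rfl h
  · rfl

theorem co_zero : co (0 : Pt A B L) = (OnePoint.infty, OnePoint.infty) := rfl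

end COx

theorem p_CO (hLA : S_LA) (hLB : S_LB) :
    S_CO := by
  intro A B L ι _ _ _ l P Q
  refine ⟨fun h => ?_, fun Q' hl h h' => ?_⟩
  · have h1 : Tendsto (fun i => (co (P i)).1) l (𝓝 (co Q).1) := (continuous_fst.tendsto _).comp h
    have h2 : Tendsto (fun i => (co (P i)).2) l (𝓝 (co Q).2) := (continuous_snd.tendsto _).comp h
    have hA : Q ≠ 0 → ToA l P Q := fun hQ => by
      rw [COx.co_ne hQ] at h1 h2
      have h3 : ∀ᶠ i in l, P i ≠ 0 := by
        filter_upwards [h1.eventually (OnePoint.isOpen_range_coe.mem_nhds ⟨X Q, rfl⟩)] with i hi h0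
        rw [h0, COx.co_zero] at hi
        exact OnePoint.infty_notMem_range_coe hi
      refine ⟨hQ, h3, ?_, ?_⟩
      · rw [OnePoint.isOpenEmbedding_coe.isInducing.tendsto_nhds_iff]
        exact h1.congr' (h3.mono fun i hi => by simp only [COx.co_ne hi, Function.comp])
      · rw [OnePoint.isOpenEmbedding_coe.isInducing.tendsto_nhds_iff]
        exact h2.congr' (h3.mono fun i hi => by simp only [COx.co_ne hi, Function.comp])
    refine ⟨hA, ?_⟩
    by_cases hQ : Q = 0
    · intro r
      rw [hQ, COx.co_zero] at h1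
      have h4 := (OnePoint.isOpen_compl_image_coe.2
        ⟨Metric.isClosed_closedBall, isCompact_closedBall (0 : L) r⟩).mem_nhds
          OnePoint.infty_notMem_image_coe
      filter_upwards [h1.eventually h4] with i hi
      rw [hQ, sub_zero]
      refine (em (P i = 0)).imp_right fun h0 => ?_
      rw [COx.co_ne h0] at hi
      by_contra h5
      exact hi ⟨X (P i), mem_closedBall_zero_iff.2 (not_le.1 h5).le, rfl⟩
    · exact hLA A B L ι l P Q (hA hQ)
  · by_contra hne
    have hD : Q - Q' ≠ 0 := sub_ne_zero.2 hne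
    obtain ⟨-, h1, h2, -⟩ := hLB A B L ι l _ _ _ (toA_const l hD) h
    have h3 := h2.norm.eventually (gt_mem_nhds (lt_add_one ‖X (Q - Q')‖))
    obtain ⟨i, h4, h5, h6⟩ := (h1.and (h3.and (h' (‖X (Q - Q')‖ + 1)))).exists
    have e : Q - Q' + (P i - Q) = P i - Q' := by abel
    simp only [e] at h4 h5
    exact h6.elim h4 fun h7 => absurd h5 (not_lt.2 h7)

end Pool.Agent.P.MP_ab3ecb_nt.TP
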