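import Pool.Agent.P.MP_ab3ecb_nt.TP.Iface

/-! Step DER. -/

set_option autoImplicit false
set_option linter.unusedSectionVars false

namespace Pool.Agent.P.MP_ab3ecb_nt.TP

open Filter Topology
open scoped Classical NNReal

theorem p_DER :
    S_DER := by
  intro A B c Q x hy hev hQ
  obtain ⟨hx0, hx1, hx2, hx3⟩ := hev.self_of_nhds
  by_cases h0 : Q = 0
  · subst h0
    rw [add_zero, div_self hy.ne']
    refine (hasDerivAt_id' x).congr_of_eventuallyEq (hev.mono fun t ht => ?_)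
    simpa using ht.2.2.1
  have hne : x - X Q ≠ 0 := sub_ne_zero.2 (hQ h0).symm
  have hpos : 0 < √(x ^ 3 + A * x + B) := hx3 ▸ hy
  have hg0 : x ^ 3 + A * x + B ≠ 0 := (Real.sqrt_pos.1 hpos).ne'
  have hg : HasDerivAt (fun t : ℝ => t ^ 3 + A * t + B) (3 * x ^ 2 + A) x := by
    have h1 := ((hasDerivAt_pow 3 x).add ((hasDerivAt_id' x).const_mul (A : ℝ))).add_const (B : ℝ)
    exact h1.congr_deriv (by norm_num)
  have hs := hg.sqrt hg0
  have hl := (hs.sub_const (Y Q)).div ((hasDerivAt_id' x).sub_const (X Q)) hne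
  have hF := ((hl.pow 2).sub (hasDerivAt_id' x)).sub_const (X Q)
  have hne' : ∀ᶠ t in 𝓝 x, t - X Q ≠ 0 :=
    (continuous_id.sub continuous_const).continuousAt.eventually_ne hne
  have heq : (fun t => X (c t + Q)) =ᶠ[𝓝 x]
      fun t => ((√(t ^ 3 + A * t + B) - Y Q) / (t - X Q)) ^ 2 - t - X Q := by
    filter_upwards [hev, hne'] with t ht h2
    obtain ⟨l, e1, -, e3, -⟩ := add_spec ht.1 h0 ht.2.1
    rw [ht.2.2.1, ht.2.2.2] at e3
    rw [e1, ht.2.2.1, ← e3, mul_div_cancel_right₀ _ h2]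
  have hG := hF.congr_of_eventuallyEq heq
  refine hG.congr_deriv (Eq.symm ?_)
  obtain ⟨l, e1, e2, e3, e4⟩ := add_spec hx0 h0 hx1
  rw [e2, e1, hx2]
  rw [hx2] at e3 e4
  simp only [Pi.div_apply, ← hx3]
  have hy' := hy.ne'
  generalize Y (c x) = y at *
  have a1 : Y Q = y - l * (x - X Q) := by linear_combination e3
  have a2 : (A : ℝ) = l * (y + Y Q) - (x ^ 2 + x * X Q + X Q ^ 2) := by linear_combination -e4
  rw [a2, a1]
  norm_num
  field_simp
  ring

end Pool.Agent.P.MP_ab3ecb_nt.TP
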