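import Pool.Agent.P.MP_ab3ecb_nt.TP.IfaceB
import Pool.Agent.P.MP_ab3ecb_nt.TP.Iface

/-! Step DIV. -/

set_option autoImplicit false
set_option linter.unusedSectionVars false

namespace Pool.Agent.P.MP_ab3ecb_nt.TP

open Filter Topology
open Pool.Agent.P.MP_8b7eba_nt.R2 hiding Sm
open scoped Classical NNReal

theorem p_DIV (hMUL : S_MUL) (hFI : S_FI) :
    S_DIV := by
  intro A B w P j hD hP
  obtain ⟨-, h2, h3⟩ := hMUL A B Om ℝ≥0 w.v
  obtain ⟨N, hN, hS⟩ := hFI A B w ⊤ (rt P) 1 hD isOpen_univ (fixP_rt P) one_pos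
  induction j with
  | zero => exact ⟨1, one_pos, fun n _ => by simp⟩
  | succ j ih =>
    obtain ⟨c, hc, h⟩ := ih
    have hE : E1 w.v (((w.p : ℤ) ^ j) • N • rt P) := (h2 1 _ _ hS).1
    have hz : 0 < w.v (Z (((w.p : ℤ) ^ j) • N • rt P)) := by
      refine pos_iff_ne_zero.2 fun h0 => ?_
      have h4 := hE.eq_zero h0
      rw [← natCast_zsmul, smul_smul, ← map_zsmul, pm_eq_zero] at h4
      exact mul_ne_zero (pow_ne_zero j (Int.natCast_ne_zero.2 w.prime.ne_zero))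
        (Int.natCast_ne_zero.2 hN.ne') (hP _ h4)
    refine ⟨min c (w.v (Z (((w.p : ℤ) ^ j) • N • rt P)) / 2), lt_min hc (half_pos hz),
      fun n hn => ?_⟩
    obtain ⟨m, rfl⟩ := h n (hn.mono (min_le_left _ _))
    rw [pow_succ]
    refine mul_dvd_mul_left _ (by_contra fun hm => ?_)
    have h5 := (h2 _ _ (N : ℤ) (hn.mono (min_le_right _ _))).2
    have h6 : (N : ℤ) • rt (((w.p : ℤ) ^ j * m) • P) = m • ((w.p : ℤ) ^ j) • N • rt P := by
      rw [map_zsmul, ← natCast_zsmul, smul_smul, smul_smul, smul_smul]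
      congr 1
      ring
    rw [h6, h3 _ m (Pl.v_int_eq_one.2 hm) hE] at h5
    exact (half_lt_self hz).not_ge h5

end Pool.Agent.P.MP_ab3ecb_nt.TP
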