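import Pool.Agent.P.MP_ab3ecb_nt.TP.Iface

/-! Step EVC. -/

set_option autoImplicit false
set_option linter.unusedSectionVars false

namespace Pool.Agent.P.MP_ab3ecb_nt.TP

open Filter Topology
open scoped Classical NNReal

namespace EVCx

theorem val {L G : Type} [Field L] [LinearOrderedCommGroupWithZero G] (v : Valuation L G)
    (a b : Fin 2 → L) (ha : ∀ i, v (a i) ≤ 1) (hab : ∀ i, v (a i - b i) < 1)
    (F : MvPolynomial (Fin 2) ℤ) :
    v (MvPolynomial.aeval b F) ≤ 1 ∧ v (MvPolynomial.aeval a F - MvPolynomial.aeval b F) < 1 := by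
  induction F using MvPolynomial.induction_on with
  | C n => simpa using v_int v n
  | add F H h1 h2 =>
    rw [map_add (MvPolynomial.aeval a), map_add (MvPolynomial.aeval b), add_sub_add_comm]
    exact ⟨v.map_add_le h1.1 h2.1, v.map_add_lt h1.2 h2.2⟩
  | mul_X F i h =>
    have hb : v (b i) ≤ 1 := by
      rw [← sub_sub_cancel (a i) (b i)]
      exact v.map_sub_le (ha i) (hab i).le
    rw [map_mul (MvPolynomial.aeval a), map_mul (MvPolynomial.aeval b), MvPolynomial.aeval_X,
      MvPolynomial.aeval_X]
    refine ⟨by rw [map_mul]; exact mul_le_one' h.1 hb, ?_⟩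
    rw [show MvPolynomial.aeval a F * a i - MvPolynomial.aeval b F * b i =
      (MvPolynomial.aeval a F - MvPolynomial.aeval b F) * a i +
        MvPolynomial.aeval b F * (a i - b i) by ring]
    refine v.map_add_lt ?_ ?_
    · rw [map_mul]; exact (mul_le_of_le_one_right' (ha i)).trans_lt h.2
    · rw [map_mul]; exact (mul_le_of_le_one_left' h.1).trans_lt (hab i)

theorem lim {L ι : Type} [NormedField L] (l : Filter ι) (a : ι → Fin 2 → L) (b : Fin 2 → L)
    (h : ∀ j, Tendsto (fun i => a i j) l (𝓝 (b j))) (F : MvPolynomial (Fin 2) ℤ) :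
    Tendsto (fun i => MvPolynomial.aeval (a i) F) l (𝓝 (MvPolynomial.aeval b F)) := by
  induction F using MvPolynomial.induction_on with
  | C n => simp only [MvPolynomial.aeval_C]; exact tendsto_const_nhds
  | add F H h1 h2 => simp only [map_add]; exact h1.add h2
  | mul_X F i h1 => simp only [map_mul, MvPolynomial.aeval_X]; exact h1.mul (h i)

end EVCx

theorem p_EVC :
    S_EVC := by
  intro A B F
  refine ⟨fun L G _ _ v P Q hP _ hx hy => ?_, fun L ι _ l P Q h => ?_⟩
  · refine (EVCx.val v _ _ (fun i => ?_) (fun i => ?_) F).2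
    · fin_cases i
      · exact hP
      · have h := v_Y_le le_rfl hP
        rw [one_pow] at h
        exact (pow_le_one_iff_of_nonneg zero_le two_ne_zero).1 h
    · fin_cases i
      · exact hx
      · exact hy
  · refine EVCx.lim l (fun i => ![X (P i), Y (P i)]) _ (fun j => ?_) F
    fin_cases j
    · exact h.2.2.1
    · exact h.2.2.2

end Pool.Agent.P.MP_ab3ecb_nt.TP
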