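import Pool.Agent.P.MP_ab3ecb_nt.TP.Iface

/-! Step FARE. -/

set_option autoImplicit false
set_option linter.unusedSectionVars false

namespace Pool.Agent.P.MP_ab3ecb_nt.TP

open Filter Topology
open scoped Classical NNReal

theorem p_FARE (hFAR : S_FAR) :
    S_FARE := by
  intro A B L _ _ _ v c M hD hc
  obtain ⟨N, n1, n2⟩ : ∃ N : ℝ≥0, 1 ≤ N ∧ M ≤ N := ⟨max M 1, le_max_right _ _, le_max_left _ _⟩
  have n0 : 0 < N := zero_lt_one.trans_le n1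
  obtain ⟨d, d0, d1, d2⟩ : ∃ d : ℝ≥0, 0 < d ∧ d ≤ c ∧ d ^ 2 * N ≤ 1 := by
    refine ⟨min c N⁻¹, lt_min hc (inv_pos.2 n0), min_le_left _ _, ?_⟩
    calc min c N⁻¹ ^ 2 * N ≤ N⁻¹ ^ 2 * N := by gcongr; exact min_le_right _ _
      _ = N⁻¹ := by field_simp
      _ ≤ 1 := inv_le_one_of_one_le₀ n1
  have hδ : 0 < v ((4 * A ^ 3 + 27 * B ^ 2 : ℤ) : L) := v.pos_iff.2 (Int.cast_ne_zero.2 hD)
  have h2 : 0 < v (2 : L) := v.pos_iff.2 two_ne_zero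
  generalize e : v ((4 * A ^ 3 + 27 * B ^ 2 : ℤ) : L) = δ at hδ
  refine ⟨min (min (δ / N ^ 3) (d ^ 2 * δ / N ^ 2)) (min 1 (d ^ 2 * v 2 ^ 2 * δ / N)),
    by positivity, fun P Q hP hQ a b h => ?_⟩
  simp only [lt_min_iff] at h
  obtain ⟨⟨k1, k2⟩, k3, k4⟩ := h
  rw [lt_div_iff₀ (by positivity)] at k1 k2 k4
  refine (hFAR A B L ℝ≥0 v d N δ P Q hP hQ e.symm n1 (a.trans n2) (b.trans n2) d2 k1 k2
    (lt_of_le_of_lt ?_ k4)).imp (·.mono d1) (·.mono d1)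
  gcongr
  exact pow_le_of_le_one zero_le k3.le two_ne_zero

end Pool.Agent.P.MP_ab3ecb_nt.TP
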