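import Pool.Agent.P.MP_ab3ecb_nt.TP.Iface

/-! Step FG. -/

set_option autoImplicit false
set_option linter.unusedSectionVars false

namespace Pool.Agent.P.MP_ab3ecb_nt.TP

open Filter Topology
open scoped Classical NNReal

namespace FGx

variable {L G : Type} [Field L] [LinearOrderedCommGroupWithZero G] {v : Valuation L G}

lemma alg {x1 x2 l n a b y1 y2 x3 y3 : L} (h1 : y1 = l * x1 + n) (h2 : y2 = l * x2 + n)
    (ha : a = l * (y1 + y2) - (x1 ^ 2 + x1 * x2 + x2 ^ 2)) (hb : b = y1 ^ 2 - x1 ^ 3 - a * x1)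
    (h3 : x3 = l ^ 2 - x1 - x2) (h4 : y3 = l * x3 + n) :
    l * (y1 ^ 2 * y2 ^ 2 - a * x1 * y2 * (y1 + y2) - b * (y1 ^ 2 + y1 * y2 + y2 ^ 2)) +
      n * (x1 ^ 2 * y2 ^ 2 + x1 * x2 * y1 * y2 + x2 ^ 2 * y1 ^ 2 + a * y1 ^ 2) = 0 ∧
    y1 * y2 * y3 = n ^ 3 + a * l ^ 2 * n - b * l ^ 3 ∧
    x1 * y2 * y3 + x2 * y1 * y3 + x3 * y1 * y2 = 2 * a * l * n - 3 * b * l ^ 2 := by
  subst h4 h3 hb ha h2 h1
  refine ⟨by ring, by ring, by ring⟩

lemma vm {x y : L} {s t : G} (h1 : v x ≤ s) (h2 : v y ≤ t) : v (x * y) ≤ s * t := by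
  rw [map_mul]; exact mul_le_mul' h1 h2

lemma vp {x : L} {s : G} (h : v x ≤ s) (n : ℕ) : v (x ^ n) ≤ s ^ n := by
  rw [map_pow]; exact pow_le_pow_left' h n

lemma vi {a x : L} {s : G} (ha : v a ≤ 1) (h : v x ≤ s) : v (a * x) ≤ s := by
  simpa using vm ha h

lemma core {a b z1 z2 w1 w2 l n : L} {c : G} (hc : c < 1) (ha : v a ≤ 1) (hb : v b ≤ 1)
    (hz1 : v z1 ≤ c) (hz2 : v z2 ≤ c) (hw1 : v w1 ≤ c ^ 3) (hw2 : v w2 ≤ c ^ 3)
    (h1 : l * z1 + n * w1 = 1)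
    (h2 : l * (1 - (a * (z1 * (w1 + w2)) + b * (w2 ^ 2 + w1 * w2 + w1 ^ 2))) +
      n * (z1 ^ 2 + z1 * z2 + z2 ^ 2 + a * w2 ^ 2) = 0) :
    n ≠ 0 ∧ v (l / n) ≤ c ^ 2 ∧ v (1 / n) ≤ c ^ 3 := by
  have h31 : c ^ 3 ≤ c := by simpa using pow_le_pow_right_of_le_one' hc.le (show 1 ≤ 3 by norm_num)
  have h21 : c ^ 2 ≤ c := by simpa using pow_le_pow_right_of_le_one' hc.le (show 1 ≤ 2 by norm_num)
  have k1 := hw1.trans h31
  have k2 := hw2.trans h31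
  have hU : v (1 - (a * (z1 * (w1 + w2)) + b * (w2 ^ 2 + w1 * w2 + w1 ^ 2))) = 1 := by
    refine v.map_one_sub_of_lt (lt_of_le_of_lt (h21.trans' ?_) hc)
    refine v.map_add_le (vi ha ?_) (vi hb (v.map_add_le (v.map_add_le (vp k2 2) ?_) (vp k1 2)))
    · rw [sq]; exact vm hz1 (v.map_add_le k1 k2)
    · rw [sq c]; exact vm k1 k2
  have hN : v (z1 ^ 2 + z1 * z2 + z2 ^ 2 + a * w2 ^ 2) ≤ c ^ 2 := by
    refine v.map_add_le (v.map_add_le (v.map_add_le (vp hz1 2) ?_) (vp hz2 2)) (vi ha (vp k2 2))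
    rw [sq]; exact vm hz1 hz2
  have h3 := congrArg v (eq_neg_of_add_eq_zero_left h2)
  rw [map_mul, hU, mul_one, v.map_neg, map_mul] at h3
  have hn : n ≠ 0 := by
    rintro rfl
    rw [map_zero, zero_mul, v.zero_iff] at h3
    simp [h3] at h1
  have hv : v n ≠ 0 := v.ne_zero_iff.2 hn
  have h4 : v (l / n) ≤ c ^ 2 := by
    rw [map_div₀, h3, mul_div_cancel_left₀ _ hv]; exact hN
  refine ⟨hn, h4, ?_⟩
  have e : 1 / n = l / n * z1 + w1 := by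
    rw [← h1]; field_simp
  rw [e]
  exact v.map_add_le (by rw [pow_succ c 2]; exact vm h4 hz1) hw1

lemma fin {a b z1 z2 y1 y2 x3 y3 l n : L} {c : G} (hc : c < 1) (ha : v a ≤ 1) (hb : v b ≤ 1)
    (hz1 : v z1 ≤ c) (hz2 : v z2 ≤ c) (hn : n ≠ 0) (h4 : v (l / n) ≤ c ^ 2)
    (h5 : v (1 / n) ≤ c ^ 3) (h3 : y3 = l * x3 + n)
    (e2 : y1 * y2 * y3 = n ^ 3 + a * l ^ 2 * n - b * l ^ 3)
    (e3 : z1 * y1 * y2 * y3 + z2 * y2 * y1 * y3 + x3 * y1 * y2 = 2 * a * l * n - 3 * b * l ^ 2) :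
    1 < v y3 ∧ v (z1 + z2 + x3 / y3) ≤ c ^ 5 := by
  have h21 : c ^ 2 ≤ c := by simpa using pow_le_pow_right_of_le_one' hc.le (show 1 ≤ 2 by norm_num)
  have h51 : c ^ 5 ≤ c := by simpa using pow_le_pow_right_of_le_one' hc.le (show 1 ≤ 5 by norm_num)
  have h31 : c ^ 3 ≤ c := by simpa using pow_le_pow_right_of_le_one' hc.le (show 1 ≤ 3 by norm_num)
  have k := h4.trans h21
  have hD : v (1 + (a * (l / n) ^ 2 - b * (l / n) ^ 3)) = 1 :=
    v.map_one_add_of_lt (lt_of_le_of_lt (v.map_sub_le (vi ha ((vp k 2).trans h21))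
      (vi hb ((vp k 3).trans h31))) hc)
  have hD0 : 1 + (a * (l / n) ^ 2 - b * (l / n) ^ 3) ≠ 0 := fun h => by simp [h] at hD
  have e4 : y1 * y2 * y3 = n ^ 3 * (1 + (a * (l / n) ^ 2 - b * (l / n) ^ 3)) := by
    rw [e2]; field_simp; ring
  have hy : y1 * y2 * y3 ≠ 0 := by rw [e4]; exact mul_ne_zero (pow_ne_zero _ hn) hD0
  have hy3 : y3 ≠ 0 := right_ne_zero_of_mul hy
  have e5 : (z1 + z2 + x3 / y3) * (1 + (a * (l / n) ^ 2 - b * (l / n) ^ 3)) =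
      ((2 : ℤ) * (a * (l / n)) - (3 : ℤ) * (b * (l / n * (l / n)))) * (1 / n) := by
    have e6 : (z1 + z2 + x3 / y3) * (y1 * y2 * y3) = 2 * a * l * n - 3 * b * l ^ 2 := by
      rw [← e3]; field_simp
    rw [e4] at e6
    apply mul_left_cancel₀ (pow_ne_zero 3 hn)
    rw [mul_left_comm, e6]
    push_cast
    field_simp
  have hS : v (z1 + z2 + x3 / y3) ≤ c ^ 5 := by
    have h6 := congrArg v e5
    rw [map_mul, hD, mul_one] at h6
    rw [h6, show c ^ 5 = c ^ 2 * c ^ 3 by rw [← pow_add]]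
    exact vm (v.map_sub_le (vi (v_int v 2) (vi ha h4))
      (vi (v_int v 3) (vi hb (vi (k.trans hc.le) h4)))) h5
  refine ⟨?_, hS⟩
  have hz3 : v (x3 / y3) ≤ c := by
    rw [show x3 / y3 = (z1 + z2 + x3 / y3) - (z1 + z2) by ring]
    exact v.map_sub_le (hS.trans h51) (v.map_add_le hz1 hz2)
  have e7 : 1 / y3 = 1 / n - l / n * (x3 / y3) := by
    field_simp
    rw [h3]; ring
  have h7 : v (1 / y3) < 1 := by
    rw [e7]
    exact lt_of_le_of_lt (v.map_sub_le (h5.trans h31) (vi (k.trans hc.le) hz3)) hc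
  rw [map_div₀, map_one, one_div] at h7
  exact (inv_lt_one₀ (zero_lt_iff.2 (v.ne_zero_iff.2 hy3))).1 h7

lemma v_w {A B : ℤ} {P : Pt A B L} (h : 1 < v (X P)) : v (1 / Y P) = v (Z P) ^ 3 := by
  have h0 : v (Y P) ≠ 0 := v.ne_zero_iff.2 (Y_ne h)
  rw [Z, map_div₀, map_div₀, div_pow, ← v_Y h, map_one]
  field_simp

end FGx

open FGx in
theorem p_FG :
    S_FG := by
  intro A B L G _ _ _ v P Q hP hQ
  by_cases h0 : P = 0
  · subst h0; simpa using hQ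
  by_cases h1 : Q = 0
  · subst h1; simpa using hP
  by_cases h2 : P + Q = 0
  · have : Q = -P := eq_neg_of_add_eq_zero_right h2
    rw [h2]
    refine ⟨.inl rfl, ?_⟩
    simp [this]
  have hc : max (v (Z P)) (v (Z Q)) < 1 := max_lt hP.Z_lt hQ.Z_lt
  have hx := hP.resolve_left h0
  have hx' := hQ.resolve_left h1
  have hy := Y_ne hx
  have hy' := Y_ne hx'
  obtain ⟨l, a1, a2, a3, a4⟩ := add_spec h0 h1 h2
  have b1 : Y P = l * X P + (Y P - l * X P) := by ring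
  have b3 : -Y (P + Q) = l * X (P + Q) + (Y P - l * X P) := by rw [a2]; ring
  obtain ⟨e1, e2, e3⟩ := alg (a := (A : L)) (b := (B : L)) (x2 := X Q) (y2 := Y Q) b1
    (by linear_combination a3) (by linear_combination -a4) (by linear_combination -eqn h0) a1 b3
  generalize Y P - l * X P = n at *
  have hz1 := le_max_left (v (Z P)) (v (Z Q))
  have hz2 := le_max_right (v (Z P)) (v (Z Q))
  obtain ⟨hn, h4, h5⟩ := core (l := l) (n := n) hc (v_int v A) (v_int v B) hz1 hz2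
    ((v_w hx).le.trans (pow_le_pow_left' hz1 3)) ((v_w hx').le.trans (pow_le_pow_left' hz2 3))
    (by rw [Z]; field_simp; linear_combination -b1) (by
      simp only [Z]; field_simp; linear_combination e1)
  obtain ⟨h6, h7⟩ := fin (y1 := Y P) (y2 := Y Q) hc (v_int v A) (v_int v B) hz1 hz2 hn h4 h5 b3 e2
    (by rw [← e3, Z, Z, div_mul_cancel₀ _ hy, div_mul_cancel₀ _ hy'])
  refine ⟨.inr (not_le.1 fun h8 => ?_), ?_⟩
  · have h9 := v_Y_le le_rfl h8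
    rw [v.map_neg] at h6
    rw [one_pow] at h9
    exact (one_lt_pow₀ h6 two_ne_zero).not_ge h9
  · rw [← v.map_neg]
    convert h7 using 2
    rw [div_neg, Z]
    ring

end Pool.Agent.P.MP_ab3ecb_nt.TP
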