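import Pool.Agent.P.MP_ab3ecb_nt.TP.Iface

/-! Step FUR. -/

set_option autoImplicit false
set_option linter.unusedSectionVars false

namespace Pool.Agent.P.MP_ab3ecb_nt.TP

open Filter Topology
open scoped Classical NNReal

theorem p_FUR (hFURC : S_FURC) :
    S_FUR := by
  intro a b u ha hb hab hu x y hxy
  let S : Set UnitAddCircle := {z | ∃ i j : ℕ, z = (a ^ i * b ^ j) • (u : UnitAddCircle)}
  have inv : ∀ c : ℕ, (∀ z ∈ S, c • z ∈ S) → ∀ z ∈ closure S, c • z ∈ closure S :=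
    fun c h z hz => map_mem_closure (continuous_nsmul c) hz h
  have hT : closure S = Set.univ := by
    refine hFURC a b ha hb hab _ isClosed_closure (inv a ?_) (inv b ?_) ?_
    · rintro _ ⟨i, j, rfl⟩
      exact ⟨i + 1, j, by rw [← mul_smul]; congr 1; ring⟩
    · rintro _ ⟨i, j, rfl⟩
      exact ⟨i, j + 1, by rw [← mul_smul]; congr 1; ring⟩
    · refine Set.Infinite.mono subset_closure (Set.infinite_of_injective_forall_mem
        (f := fun i : ℕ => (a ^ i * b ^ 0) • (u : UnitAddCircle)) (fun i j e => ?_)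
        fun i => ⟨i, 0, rfl⟩)
      simp only [pow_zero, mul_one, ← AddCircle.coe_nsmul] at e
      obtain ⟨k, hk⟩ := AddSubgroup.mem_zmultiples_iff.1 (QuotientAddGroup.eq.1 e)
      by_contra hij
      have h1 : ((a ^ j : ℕ) : ℤ) - (a ^ i : ℕ) ≠ 0 := fun h =>
        hij (Nat.pow_right_injective ha (Int.natCast_inj.1 (sub_eq_zero.1 h))).symm
      refine (hu.intCast_mul h1).ne_int k ?_
      simp only [nsmul_eq_mul, zsmul_eq_mul, mul_one] at hk
      push_cast at hk ⊢
      linarith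
  have ho : IsOpen ((fun t : ℝ => (t : UnitAddCircle)) '' Set.Ioo x y) :=
    QuotientAddGroup.isOpenMap_coe _ isOpen_Ioo
  obtain ⟨_, ⟨t, ht, rfl⟩, i, j, e⟩ := (dense_iff_closure_eq.2 hT).inter_open_nonempty _ ho
    ((Set.nonempty_Ioo.2 hxy).image _)
  rw [← AddCircle.coe_nsmul] at e
  obtain ⟨k, hk⟩ := AddSubgroup.mem_zmultiples_iff.1 (QuotientAddGroup.eq.1 e.symm)
  simp only [nsmul_eq_mul, zsmul_eq_mul, mul_one] at hk
  push_cast at hk
  exact ⟨i, j, k, by linarith [ht.1], by linarith [ht.2]⟩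

end Pool.Agent.P.MP_ab3ecb_nt.TP
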