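import Pool.Agent.P.MP_ab3ecb_nt.TP.Iface

/-! Step FURA. -/

set_option autoImplicit false
set_option linter.unusedSectionVars false

namespace Pool.Agent.P.MP_ab3ecb_nt.TP

open Filter Topology
open scoped Classical NNReal

namespace FURAx

theorem coe_int (k : ℤ) : ((k : ℝ) : UnitAddCircle) = 0 :=
  (AddCircle.coe_eq_zero_iff (1 : ℝ)).2 ⟨k, by simp⟩

theorem pow_mem {a : ℕ} {T : Set UnitAddCircle} (h : ∀ x ∈ T, a • x ∈ T) (i : ℕ) :
    ∀ x ∈ T, a ^ i • x ∈ T := by
  induction i with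
  | zero => simp
  | succ i ih => intro x hx; rw [pow_succ', mul_smul]; exact h _ (ih x hx)

theorem rep (z : UnitAddCircle) {s : ℝ} (hs : s ≠ 0) :
    ∃ t : ℝ, z = t ∧ 1 ≤ |t| ∧ |t| ≤ 2 ∧ 0 < t / s := by
  induction z using QuotientAddGroup.induction_on with
  | H r =>
    have h0 := Int.fract_nonneg r
    have h1 := Int.fract_lt_one r
    have e : ∀ k : ℤ, (r : UnitAddCircle) = ((Int.fract r + k : ℝ) : UnitAddCircle) := fun k => by
      rw [Int.fract, AddCircle.coe_add, AddCircle.coe_sub, coe_int, coe_int, sub_zero, add_zero]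
    rcases hs.lt_or_gt with h | h
    · refine ⟨_, e (-2), ?_, ?_, div_pos_of_neg_of_neg ?_ h⟩ <;> push_cast
      · rw [abs_of_neg (by linarith)]; linarith
      · rw [abs_of_neg (by linarith)]; linarith
      · linarith
    · refine ⟨_, e 1, ?_, ?_, div_pos ?_ h⟩ <;> push_cast
      · rw [abs_of_pos (by linarith)]; linarith
      · rw [abs_of_pos (by linarith)]; linarith
      · linarith

theorem small (x : UnitAddCircle) : ∃ s : ℝ, x = s ∧ |s| = ‖x‖ := by
  induction x using QuotientAddGroup.induction_on with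
  | H r =>
    exact ⟨r - round r, by rw [AddCircle.coe_sub, coe_int, sub_zero], UnitAddCircle.norm_eq.symm⟩

end FURAx

open FURAx in
theorem p_FURA (hNLAC : S_NLAC) :
    S_FURA := by
  intro a b ha hb hab T hT h1 h2 h3
  refine Set.eq_univ_of_forall fun z => hT.closure_subset (Metric.mem_closure_iff.2 fun ε hε => ?_)
  obtain ⟨N, N0, hN⟩ := hNLAC a b ha hb hab (ε / 3) (by positivity)
  obtain ⟨x, x1, x2, x3⟩ := h3 (1 / N) (by positivity)
  obtain ⟨s, rfl, s1⟩ := small x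
  have s0 : s ≠ 0 := by rintro rfl; exact x2 rfl
  obtain ⟨t, rfl, t1, t2, t3⟩ := rep z s0
  have s2 : 0 < |s| := abs_pos.2 s0
  have e : t / s * |s| = |t| := by
    rw [← abs_of_pos t3, ← abs_mul, div_mul_cancel₀ _ s0]
  have s3 : |s| * N < 1 := by rwa [← s1, lt_div_iff₀ N0] at x3
  obtain ⟨i, j, c1, c2⟩ := hN (t / s) (by
    by_contra hc
    have := mul_lt_mul_of_pos_right (not_le.1 hc) s2
    linarith)
  refine ⟨_, pow_mem h1 i _ (pow_mem h2 j _ x1), ?_⟩
  rw [← mul_smul, ← AddCircle.coe_nsmul, dist_eq_norm, ← AddCircle.coe_sub]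
  refine QuotientAddGroup.norm_mk_le_norm.trans_lt ?_
  have e2 : t - (a ^ i * b ^ j) • s = -(((a : ℝ) ^ i * b ^ j - t / s) * s) := by
    rw [nsmul_eq_mul]; push_cast; field_simp; ring
  rw [e2, Real.norm_eq_abs, abs_neg, abs_mul, abs_of_nonneg (sub_nonneg.2 c1)]
  have c3 : ((a : ℝ) ^ i * b ^ j - t / s) * |s| ≤ ε / 3 * (t / s) * |s| :=
    mul_le_mul_of_nonneg_right (by linarith) s2.le
  rw [mul_assoc, e] at c3
  nlinarith

end Pool.Agent.P.MP_ab3ecb_nt.TP
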