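import Pool.Agent.P.MP_ab3ecb_nt.TP.Iface

/-! Step FURB. -/

set_option autoImplicit false
set_option linter.unusedSectionVars false

namespace Pool.Agent.P.MP_ab3ecb_nt.TP

open Filter Topology
open scoped Classical NNReal

namespace FURBx

theorem pow_inv (a : ℕ) (T : Set UnitAddCircle) (ha : ∀ x ∈ T, a • x ∈ T) (k : ℕ) :
    ∀ x ∈ T, a ^ k • x ∈ T := by
  induction k with
  | zero => intro x hx; simpa using hx
  | succ k ih =>
    intro x hx
    rw [pow_succ', mul_smul]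
    exact ha _ (ih x hx)

theorem inf_of (a : ℕ) (h1 : 1 < a) (S : Set UnitAddCircle) (ha : ∀ x ∈ S, a • x ∈ S)
    (x : UnitAddCircle) (hx : x ∈ S) (hn : ¬ IsOfFinAddOrder x) : S.Infinite := by
  refine Set.infinite_of_injective_forall_mem (f := fun k : ℕ => a ^ k • x) ?_
    (fun k => pow_inv a S ha k x hx)
  intro i j hij
  have hinj : Function.Injective (fun n : ℕ => n • x) :=
    injective_nsmul_iff_not_isOfFinAddOrder.2 hn
  exact Nat.pow_right_injective h1 (hinj hij)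

theorem diff (hA : S_FURA) (a b : ℕ) (h1 : 1 < a) (h2 : 1 < b) (hab : a.Coprime b)
    (S : Set UnitAddCircle) (hc : IsClosed S) (ha : ∀ x ∈ S, a • x ∈ S)
    (hb : ∀ x ∈ S, b • x ∈ S) (hi : S.Infinite) (h : UnitAddCircle) :
    ∃ x ∈ S, x + h ∈ S := by
  have hK : IsCompact S := hc.isCompact
  have hD : IsCompact ((fun p : UnitAddCircle × UnitAddCircle => p.2 - p.1) '' (S ×ˢ S)) :=
    (hK.prod hK).image (continuous_snd.sub continuous_fst)
  have key := hA a b h1 h2 hab _ hD.isClosed ?_ ?_ ?_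
  · have : h ∈ (fun p : UnitAddCircle × UnitAddCircle => p.2 - p.1) '' (S ×ˢ S) := by
      rw [key]; trivial
    obtain ⟨⟨x, y⟩, ⟨hx, hy⟩, rfl⟩ := this
    exact ⟨x, hx, by simpa using hy⟩
  · rintro _ ⟨⟨x, y⟩, ⟨hx, hy⟩, rfl⟩
    exact ⟨(a • x, a • y), ⟨ha x hx, ha y hy⟩, by simp [smul_sub]⟩
  · rintro _ ⟨⟨x, y⟩, ⟨hx, hy⟩, rfl⟩
    exact ⟨(b • x, b • y), ⟨hb x hx, hb y hy⟩, by simp [smul_sub]⟩
  · intro ε hε
    obtain ⟨z, hz, hacc⟩ := hi.exists_accPt_of_subset_isCompact hK subset_rfl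
    rw [accPt_iff_nhds] at hacc
    obtain ⟨y, ⟨hy1, hy2⟩, hne⟩ := hacc (Metric.ball z ε) (Metric.ball_mem_nhds z hε)
    refine ⟨y - z, ⟨(z, y), ⟨hz, hy2⟩, rfl⟩, sub_ne_zero.2 hne, ?_⟩
    rw [← dist_eq_norm]
    exact hy1

theorem fix (a t : ℕ) (ha : 1 < a) (hc : a.Coprime t) (h : UnitAddCircle) (ht : t • h = 0) :
    a ^ Nat.totient t • h = h := by
  have h1 : 1 ≤ a ^ Nat.totient t := Nat.one_le_pow _ _ (by omega)
  obtain ⟨m, hm⟩ := (Nat.modEq_iff_dvd' h1).1 (Nat.ModEq.pow_totient hc).symm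
  have : a ^ Nat.totient t = 1 + m * t := by rw [mul_comm]; omega
  rw [this, add_smul, one_smul, mul_smul, ht, smul_zero, add_zero]

theorem small (hA : S_FURA) (a b : ℕ) (h1 : 1 < a) (h2 : 1 < b) (hab : a.Coprime b)
    (T : Set UnitAddCircle) (hc : IsClosed T) (ha : ∀ x ∈ T, a • x ∈ T)
    (hb : ∀ x ∈ T, b • x ∈ T) (hne : T.Nonempty) (hn : ∀ x ∈ T, ¬ IsOfFinAddOrder x)
    (t : ℕ) (ht : 0 < t) (hat : a.Coprime t) (hbt : b.Coprime t) :
    ∃ x ∈ T, ‖x‖ ≤ 1 / (t : ℝ) := by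
  have htR : (0 : ℝ) < t := by exact_mod_cast ht
  set h : UnitAddCircle := ((1 / (t : ℝ) : ℝ) : UnitAddCircle) with hh
  have hth : t • h = 0 := by
    rw [hh, ← AddCircle.coe_nsmul, nsmul_eq_mul, mul_one_div_cancel htR.ne']
    exact AddCircle.coe_period 1
  have hu : Nat.totient t ≠ 0 := (Nat.totient_pos.2 ht).ne'
  have inv : ∀ c : ℕ, (∀ x ∈ T, c • x ∈ T) → c • h = h → ∀ i : ℕ,
      ∀ x ∈ {x : UnitAddCircle | ∀ k ≤ i, x + k • h ∈ T},
        c • x ∈ {x : UnitAddCircle | ∀ k ≤ i, x + k • h ∈ T} := by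
    intro c hcT hch i x hx k hk
    have := hcT _ (hx k hk)
    rwa [smul_add, smul_comm c k h, hch] at this
  have step : ∀ i : ℕ, ∃ x : UnitAddCircle, ∀ k ≤ i, x + k • h ∈ T := by
    intro i
    induction i with
    | zero =>
      obtain ⟨x, hx⟩ := hne
      refine ⟨x, fun k hk => ?_⟩
      obtain rfl : k = 0 := by omega
      simpa using hx
    | succ i ih =>
      obtain ⟨x, hx⟩ := ih
      have hcl : IsClosed {x : UnitAddCircle | ∀ k ≤ i, x + k • h ∈ T} := by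
        have : {x : UnitAddCircle | ∀ k ≤ i, x + k • h ∈ T}
            = ⋂ k : ℕ, ⋂ _ : k ≤ i, (fun x => x + k • h) ⁻¹' T := by
          ext x; simp
        rw [this]
        exact isClosed_iInter fun k => isClosed_iInter fun _ =>
          hc.preimage (continuous_id.add continuous_const)
      have ia := inv _ (pow_inv a T ha _) (fix a t h1 hat h hth) i
      have ib := inv _ (pow_inv b T hb _) (fix b t h2 hbt h hth) i
      have ha' : 1 < a ^ Nat.totient t := Nat.one_lt_pow hu h1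
      have hb' : 1 < b ^ Nat.totient t := Nat.one_lt_pow hu h2
      have hxT : x ∈ T := by simpa using hx 0 (Nat.zero_le _)
      obtain ⟨y, hy, hy'⟩ := diff hA _ _ ha' hb' (Nat.Coprime.pow _ _ hab) _ hcl ia ib
        (inf_of _ ha' _ ia x hx (hn x hxT)) h
      refine ⟨y, fun k hk => ?_⟩
      rcases k with _ | k
      · exact hy 0 (Nat.zero_le _)
      · have := hy' k (by omega)
        rwa [add_assoc, ← succ_nsmul'] at this
  obtain ⟨x, hx⟩ := step t
  obtain ⟨s, hs, hsx⟩ : ∃ s : ℝ, s ∈ Set.Ico (0 : ℝ) 1 ∧ (s : UnitAddCircle) = -x := by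
    have := AddCircle.eq_coe_Ico (-x)
    simpa using this
  have h0 : 0 ≤ s * t := mul_nonneg hs.1 htR.le
  have hk : ⌊s * t⌋₊ ≤ t := by
    apply Nat.floor_le_of_le
    nlinarith [hs.2]
  refine ⟨_, hx _ hk, ?_⟩
  have e : x + ⌊s * t⌋₊ • h = ((-s + (⌊s * t⌋₊ : ℝ) * (1 / t) : ℝ) : UnitAddCircle) := by
    rw [AddCircle.coe_add, AddCircle.coe_neg, hsx, neg_neg, hh, ← AddCircle.coe_nsmul,
      nsmul_eq_mul]
  rw [e]
  refine le_trans QuotientAddGroup.norm_mk_le_norm ?_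
  have f1 := Nat.floor_le h0
  have f2 := Nat.lt_floor_add_one (s * t)
  have e2 : -s + (⌊s * t⌋₊ : ℝ) * (1 / t) = ((⌊s * t⌋₊ : ℝ) - s * t) / t := by
    field_simp
    ring
  rw [Real.norm_eq_abs, e2, abs_div, abs_of_pos htR]
  apply div_le_div_of_nonneg_right _ htR.le
  rw [abs_le]
  constructor <;> linarith

end FURBx

theorem p_FURB (hFURA : S_FURA) :
    S_FURB := by
  intro a b h1 h2 hab T hc ha hb hne
  by_contra hcon
  have hn : ∀ x ∈ T, ¬ IsOfFinAddOrder x := fun x hx hf => hcon ⟨x, hx, hf⟩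
  refine hn 0 ?_ IsOfFinAddOrder.zero
  rw [← hc.closure_eq, Metric.mem_closure_iff]
  intro ε hε
  obtain ⟨n, hnε⟩ := exists_nat_one_div_lt hε
  have c1 : a.Coprime (a * (b * n) + 1) := by simp
  have c2 : b.Coprime (a * (b * n) + 1) := by
    rw [show a * (b * n) = b * (a * n) by ring]; simp
  obtain ⟨x, hx, hxn⟩ := FURBx.small hFURA a b h1 h2 hab T hc ha hb hne hn
    (a * (b * n) + 1) (Nat.succ_pos _) c1 c2
  refine ⟨x, hx, ?_⟩
  rw [dist_comm, dist_zero_right]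
  refine lt_of_le_of_lt (hxn.trans ?_) hnε
  have : n ≤ a * (b * n) := by
    calc n ≤ b * n := Nat.le_mul_of_pos_left n (by omega)
      _ ≤ a * (b * n) := Nat.le_mul_of_pos_left _ (by omega)
  apply one_div_le_one_div_of_le (by positivity)
  exact_mod_cast Nat.succ_le_succ this

end Pool.Agent.P.MP_ab3ecb_nt.TP
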