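import Pool.Agent.P.MP_ab3ecb_nt.TP.Iface

/-! Step FURC. -/

set_option autoImplicit false
set_option linter.unusedSectionVars false

namespace Pool.Agent.P.MP_ab3ecb_nt.TP

open Filter Topology
open scoped Classical NNReal

namespace FURCx

theorem inv {T : Set UnitAddCircle} {c : ℕ} (hc : 0 < c) (h : ∀ x ∈ T, c • x ∈ T) :
    ∀ x ∈ derivedSet T, c • x ∈ derivedSet T := by
  intro x hx
  rw [mem_derivedSet, accPt_iff_frequently] at hx ⊢
  have f : ((fun u => u + x) '' {u : UnitAddCircle | c • u = 0} \ {x}).Finite :=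
    ((AddCircle.finite_torsion 1 hc).image _).sdiff
  have e : ∀ᶠ y in 𝓝 x, y ∉ ((fun u => u + x) '' {u : UnitAddCircle | c • u = 0} \ {x}) :=
    f.isClosed.isOpen_compl.mem_nhds (by simp)
  refine ((continuous_nsmul c).tendsto x).frequently ((hx.and_eventually e).mono ?_)
  rintro y ⟨⟨h1, h2⟩, h3⟩
  refine ⟨fun h4 => h3 ⟨⟨y - x, ?_, by simp⟩, h1⟩, h y h2⟩
  show c • (y - x) = 0
  rw [smul_sub, h4, sub_self]

theorem pw {T : Set UnitAddCircle} {c : ℕ} (h : ∀ x ∈ T, c • x ∈ T) (i : ℕ) :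
    ∀ x ∈ T, c ^ i • x ∈ T := by
  induction i with
  | zero => simp
  | succ i ih => intro x hx; rw [pow_succ, mul_smul]; exact ih _ (h x hx)

theorem fix {x : UnitAddCircle} (hx : IsOfFinAddOrder x) (c : ℕ) :
    ∃ i k : ℕ, 0 < k ∧ c ^ k • c ^ i • x = c ^ i • x := by
  obtain ⟨n, n0, hn⟩ := hx.exists_nsmul_eq_zero
  obtain ⟨i, j, ij, e⟩ := (AddCircle.finite_torsion 1 n0).exists_lt_map_eq_of_forall_mem
    (f := fun i : ℕ => c ^ i • x) fun i => by
      show n • c ^ i • x = 0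
      rw [smul_comm, hn, smul_zero]
  exact ⟨i, j - i, by omega, by rw [← mul_smul, ← pow_add, Nat.sub_add_cancel ij.le]; exact e.symm⟩

end FURCx

open FURCx in
theorem p_FURC (hFURA : S_FURA) (hFURB : S_FURB) :
    S_FURC := by
  intro a b ha hb hab T hT h1 h2 hi
  have i1 := inv (by omega) h1
  have i2 := inv (by omega) h2
  obtain ⟨x₀, -, hx₀⟩ := hi.exists_accPt_of_subset_isCompact isCompact_univ (Set.subset_univ _)
  obtain ⟨x, hx, fx⟩ := hFURB a b ha hb hab _ (isClosed_derivedSet T) i1 i2 ⟨x₀, hx₀⟩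
  obtain ⟨i, k, k0, e1⟩ := fix fx a
  obtain ⟨j, l, l0, e2⟩ := fix (fx.nsmul (n := a ^ i)) b
  have m := pw i2 j _ (pw i1 i x hx)
  have e3 : a ^ k • b ^ j • a ^ i • x = b ^ j • a ^ i • x := by rw [smul_comm, e1]
  generalize b ^ j • a ^ i • x = z at *
  have key := hFURA (a ^ k) (b ^ l) (Nat.one_lt_pow k0.ne' ha) (Nat.one_lt_pow l0.ne' hb)
    (Nat.Coprime.pow _ _ hab) {y | y + z ∈ T} (hT.preimage (continuous_add_const z))
    (fun y hy => by
      have := pw h1 k _ hy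
      rwa [smul_add, e3] at this)
    (fun y hy => by
      have := pw h2 l _ hy
      rwa [smul_add, e2] at this)
    (fun ε e0 => by
      rw [mem_derivedSet, accPt_iff_frequently] at m
      obtain ⟨y, ⟨y1, y2⟩, y3⟩ := (m.and_eventually (Metric.ball_mem_nhds z e0)).exists
      exact ⟨y - z, by simpa using y2, sub_ne_zero.2 y1, by rwa [← dist_eq_norm]⟩)
  refine Set.eq_univ_of_forall fun y => ?_
  have : y - z ∈ {y | y + z ∈ T} := key ▸ Set.mem_univ _
  simpa using this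

end Pool.Agent.P.MP_ab3ecb_nt.TP
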