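import Pool.Agent.P.MP_ab3ecb_nt.TP.IfaceB
import Pool.Agent.P.MP_ab3ecb_nt.TP.Iface

/-! Step GOOD. -/

set_option autoImplicit false
set_option linter.unusedSectionVars false

namespace Pool.Agent.P.MP_ab3ecb_nt.TP

open Filter Topology
open Pool.Agent.P.MP_8b7eba_nt.R2 hiding Sm
open scoped Classical NNReal

theorem p_GOOD (hMUL : S_MUL) (hFAR : S_FAR) :
    S_GOOD := by
  intro A B w P V W N d hp hD hW hX hV0 hW0 h
  have mul : ∀ T : Pt A B Om, E1 w.v T → E1 w.v (N • T) := fun T k => by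
    have := ((hMUL A B Om ℝ≥0 w.v).2.1 _ T N k.sm).1
    rwa [natCast_zsmul] at this
  have e : N • (d • P - V) = (N * d) • P := by rw [nsmul_sub, hV0, sub_zero, mul_nsmul']
  have h1 : ¬ E1 w.v (d • P - V) := fun k => h (e ▸ mul _ k)
  rw [E1, not_or, not_lt] at h1
  refine le_antisymm (w.v.map_sub_le h1.2 hX) (not_lt.1 fun k => ?_)
  rw [bt] at k
  rcases hFAR A B Om ℝ≥0 w.v 1 1 1 (d • P - V) W h1.1 hW hD.symm le_rfl h1.2 hX (by simp)
    (by simpa using k) (by simpa using k) (by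
      rw [Pl.v_two hp]; simpa using pow_lt_one₀ zero_le k two_ne_zero) with b | b
  · have := mul _ b.1
    rw [nsmul_sub, hW0, sub_zero, e] at this
    exact h this
  · have := mul _ b.1
    rw [nsmul_add, hW0, add_zero, e] at this
    exact h this

end Pool.Agent.P.MP_ab3ecb_nt.TP
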