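import Pool.Agent.P.MP_ab3ecb_nt.TP.Iface

/-! Step KA. -/

set_option autoImplicit false
set_option linter.unusedSectionVars false

namespace Pool.Agent.P.MP_ab3ecb_nt.TP

open Filter Topology
open scoped Classical NNReal

namespace KAx

/-- An ultrafilter on the integers picks a residue class. -/
lemma resid (l : Ultrafilter ℤ) {n : ℤ} (hn : 0 < n) : ∃ m₀ : ℤ, ∀ᶠ m in l, n ∣ m - m₀ := by
  have h : ∀ᶠ m in (l : Filter ℤ), ∃ a ∈ Set.Ico 0 n, n ∣ m - a := .of_forall fun m =>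
    ⟨m % n, ⟨Int.emod_nonneg _ hn.ne', Int.emod_lt_of_pos _ hn⟩, Int.dvd_self_sub_emod⟩
  obtain ⟨a, -, ha⟩ := (Ultrafilter.eventually_exists_mem_iff (Set.finite_Ico 0 n)).1 h
  exact ⟨a, ha⟩

/-- The exact power of `r` in `t m - s` along the ultrafilter. -/
lemma exact_pow (l : Ultrafilter ℤ) (s t r : ℤ) {j : ℕ} (h : ¬ ∀ᶠ m in l, r ^ j ∣ t * m - s) :
    ∃ i : ℕ, ∀ᶠ m in l, r ^ i ∣ t * m - s ∧ ¬ r ^ (i + 1) ∣ t * m - s := by
  induction j with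
  | zero => exact absurd (.of_forall fun m => by simp) h
  | succ j ih =>
    by_cases h1 : ∀ᶠ m in l, r ^ j ∣ t * m - s
    · exact ⟨j, h1.and (Ultrafilter.eventually_not.2 h)⟩
    · exact ih h1

end KAx

theorem p_KA (hLB : S_LB) (hEVC : S_EVC) :
    S_KA := by
  intro A B F f R x l s t r j hf ⟨Z, x₁, y₁, h₁, hZ, hF⟩ hr hj
  obtain ⟨t₀, ht₀⟩ := hf.two Z
  set P := pm (Rat.castHom ℝ) R with hP
  have h0 : P + f t₀ ≠ 0 := by rw [ht₀, hZ]; exact WeierstrassCurve.Affine.Point.some_ne_zero _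
  have h1 : ev F (P + f t₀) < 0 := by rw [ht₀, hZ]; exact hF
  have h2 := hLB A B ℝ ℝ (𝓝 0) _ f _ (toA_const _ h0) hf.lim
  have h3 := h2.2.1.and (((hEVC A B F).2 ℝ ℝ _ _ _ h2).eventually (gt_mem_nhds h1))
  obtain ⟨η, hη, h4⟩ := Metric.eventually_nhds_iff.1 h3
  obtain ⟨i, hi⟩ := KAx.exact_pow l s t r hj
  have r1 : (1 : ℝ) < r := by exact_mod_cast hr.one_lt
  have r0 : (0 : ℝ) < r := by linarith
  obtain ⟨n, hn⟩ := pow_unbounded_of_one_lt η⁻¹ r1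
  have hn' : η⁻¹ < (r : ℝ) ^ (n + 1) := hn.trans (pow_lt_pow_right₀ r1 n.lt_succ_self)
  have q0 : (0 : ℝ) < (r : ℝ) ^ (n + 1) := pow_pos r0 _
  obtain ⟨m₀, hm⟩ := KAx.resid l (n := (r : ℤ) ^ (i + (n + 1))) (pow_pos (by exact_mod_cast hr.pos) _)
  obtain ⟨m, ⟨h5, h6⟩, h7⟩ := (hi.and hm).exists
  have h8 : (r : ℤ) ^ (i + 1) ∣ t * m - s - (t * m₀ - s) := by
    rw [show t * m - s - (t * m₀ - s) = t * (m - m₀) by ring]
    exact ((pow_dvd_pow _ (by omega)).trans h7).mul_left t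
  obtain ⟨μ, hμ⟩ : (r : ℤ) ^ i ∣ t * m₀ - s :=
    (dvd_sub_right h5).1 ((pow_dvd_pow _ i.le_succ).trans h8)
  have h9 : ¬ (r : ℤ) ∣ μ := fun e => h6 <| by
    have : (r : ℤ) ^ (i + 1) ∣ t * m₀ - s := by rw [hμ, pow_succ]; exact mul_dvd_mul_left _ e
    simpa using dvd_add h8 this
  obtain ⟨a, b, hab⟩ : IsCoprime ((r : ℤ) ^ (n + 1)) μ :=
    ((Nat.prime_iff_prime_int.1 hr).coprime_iff_not_dvd.2 h9).pow_left
  set ρ := ⌊(t₀ - x) * (r : ℝ) ^ (n + 1)⌋ with hρ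
  have e1 : x + (t * m₀ - s) * ((b * ρ : ℤ) / (r : ℝ) ^ (i + (n + 1))) =
      t₀ + (ρ / (r : ℝ) ^ (n + 1) - (t₀ - x)) + ((-(a * ρ) : ℤ) : ℝ) := by
    have e2 : (t * m₀ - s : ℝ) = (r : ℝ) ^ i * μ := by exact_mod_cast hμ
    have e3 : (a * (r : ℝ) ^ (n + 1) + b * μ : ℝ) = 1 := by exact_mod_cast hab
    rw [e2, pow_add]
    push_cast
    field_simp
    linear_combination ρ * e3
  have e4 : dist (ρ / (r : ℝ) ^ (n + 1) - (t₀ - x)) 0 < η := by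
    rw [Real.dist_eq, sub_zero, div_sub' q0.ne', abs_div, abs_of_pos q0, div_lt_iff₀ q0]
    have e5 := Int.floor_le ((t₀ - x) * (r : ℝ) ^ (n + 1))
    have e6 := Int.lt_floor_add_one ((t₀ - x) * (r : ℝ) ^ (n + 1))
    have e7 : 1 < η * (r : ℝ) ^ (n + 1) := by rwa [inv_lt_iff_one_lt_mul₀' hη] at hn'
    rw [abs_lt]
    constructor <;> linarith
  refine ⟨i + (n + 1), b * ρ, m₀, hm, ?_⟩
  rw [e1, map_add, (hf.ker _).2 ⟨_, rfl⟩, add_zero, map_add, ← add_assoc]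
  exact h4 e4

end Pool.Agent.P.MP_ab3ecb_nt.TP
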