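import Pool.Agent.P.MP_ab3ecb_nt.TP.IfaceB

/-! Step KEYB. -/

set_option autoImplicit false
set_option linter.unusedSectionVars false

namespace Pool.Agent.P.MP_ab3ecb_nt.TP

open Filter Topology
open Pool.Agent.P.MP_8b7eba_nt.R2 hiding Sm
open scoped Classical NNReal

namespace KEYBx

theorem drop {r p j : ℕ} {x : ℤ} (hr : r.Prime) (hp : p.Prime) (h : (r : ℤ) ^ (j + 1) ∣ p * x) :
    (r : ℤ) ^ j ∣ x := by
  by_cases e : r = p
  · subst e
    rw [pow_succ'] at h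
    exact (mul_dvd_mul_iff_left (by exact_mod_cast hr.ne_zero)).1 h
  · have c : IsCoprime ((r : ℤ) ^ (j + 1)) (p : ℤ) :=
      (Nat.isCoprime_iff_coprime.2 ((Nat.coprime_primes hr hp).2 e)).pow_left
    exact (pow_dvd_pow _ j.le_succ).trans (c.dvd_of_dvd_mul_left h)

variable {A B : ℤ} {F : MvPolynomial (Fin 2) ℤ} {S : Set Nat.Primes}
  {a : ∀ r : S, Pt A B ℚ_[r.1.1]} {P R : Pt A B ℚ} {l : Ultrafilter ℤ} {s t : ℤ} {p q : ℕ}

theorem symm (h : Ctx F S a P R l s t p q) : Ctx F S a P R l s t q p :=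
  ⟨h.hD, h.hS, h.sq, h.lim, h.hq, h.hp, h.ne.symm, h.dq, h.dp⟩

theorem div (h : Ctx F S a P R l s (p * t) p q) : ∃ s', Ctx F S a P R l s' t p q := by
  obtain ⟨m, hm⟩ := (h.dp 1).exists
  rw [pow_one, mul_assoc] at hm
  obtain ⟨s', rfl⟩ : (p : ℤ) ∣ s := (dvd_sub_right (dvd_mul_right _ _)).1 hm
  refine ⟨s', h.hD, h.hS, h.sq, h.lim, h.hp, h.hq, h.ne, fun j => (h.dp (j + 1)).mono fun m e => ?_,
    fun j => (h.dq (j + 1)).mono fun m e => ?_⟩
  · exact drop h.hp h.hp (by rwa [mul_sub, ← mul_assoc])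
  · exact drop h.hq h.hp (by rwa [mul_sub, ← mul_assoc])

theorem fin {t : ℕ} (ht : 0 < t)
    (h : ∀ r j : ℕ, r.Prime → ∀ᶠ m in l, (r : ℤ) ^ j ∣ t * m - s) :
    ∃ m₀ : ℤ, ∀ N : ℕ, 0 < N → ∀ᶠ m in l, (N : ℤ) ∣ m - m₀ := by
  have H : ∀ N : ℕ, 0 < N → ∀ᶠ m in l, (N : ℤ) ∣ t * m - s := fun N => by
    induction N using Nat.recOnPosPrimePosCoprime with
    | prime_pow r j hr _ => exact fun _ => (h r j hr).mono fun m e => by exact_mod_cast e
    | zero => exact fun e => absurd e (lt_irrefl _)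
    | one => exact fun _ => Eventually.of_forall fun m => by simp
    | coprime u v hu hv c iu iv =>
      exact fun _ => ((iu (by omega)).and (iv (by omega))).mono fun m e => by
        rw [Nat.cast_mul]
        exact (Nat.isCoprime_iff_coprime.2 c).mul_dvd e.1 e.2
  obtain ⟨m, hm⟩ := (H t ht).exists
  obtain ⟨m₀, rfl⟩ : (t : ℤ) ∣ s := (dvd_sub_right (dvd_mul_right _ _)).1 hm
  refine ⟨m₀, fun N hN => (H (t * N) (Nat.mul_pos ht hN)).mono fun m e => ?_⟩
  rw [Nat.cast_mul, ← mul_sub] at e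
  exact (mul_dvd_mul_iff_left (by exact_mod_cast ht.ne')).1 e

end KEYBx

theorem p_KEYB (hKEY : S_KEY) :
    S_KEYB := by
  intro A B F S a P R l s t p q h hP hR ht
  induction t using Nat.strong_induction_on generalizing s with
  | _ t ih =>
    by_cases e1 : p ∣ t
    · obtain ⟨t', rfl⟩ := e1
      have h' : 0 < t' := Nat.pos_of_mul_pos_left ht
      rw [Nat.cast_mul] at h
      obtain ⟨s', c⟩ := KEYBx.div h
      exact ih t' ((Nat.lt_mul_iff_one_lt_left h').2 h.hp.one_lt) s' c h'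
    by_cases e2 : q ∣ t
    · obtain ⟨t', rfl⟩ := e2
      have h' : 0 < t' := Nat.pos_of_mul_pos_left ht
      rw [Nat.cast_mul] at h
      obtain ⟨s', c⟩ := KEYBx.div (KEYBx.symm h)
      exact ih t' ((Nat.lt_mul_iff_one_lt_left h').2 h.hq.one_lt) s' (KEYBx.symm c) h'
    have c : t.Coprime (p * q) := Nat.Coprime.mul_right
      ((h.hp.coprime_iff_not_dvd.2 e1).symm) ((h.hq.coprime_iff_not_dvd.2 e2).symm)
    by_cases e : p = 2
    · exact KEYBx.fin ht (hKEY A B F S a P R l s t q p (KEYBx.symm h) hP hR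
        (fun e' => h.ne (e.trans e'.symm)) ht (by rwa [mul_comm]))
    · exact KEYBx.fin ht (hKEY A B F S a P R l s t p q h hP hR e ht c)

end Pool.Agent.P.MP_ab3ecb_nt.TP
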