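import Pool.Agent.P.MP_ab3ecb_nt.TP.IfaceB
import Pool.Agent.P.MP_ab3ecb_nt.TP.Iface

/-! Step KF. -/

set_option autoImplicit false
set_option linter.unusedSectionVars false

namespace Pool.Agent.P.MP_ab3ecb_nt.TP

open Filter Topology
open Pool.Agent.P.MP_8b7eba_nt.R2 hiding Sm
open scoped Classical NNReal

namespace KFx

lemma bd (x : Om) : ∃ B : ℕ, ∀ w : Pl, B < w.p → w.v x ≤ 1 := by
  by_cases h : x = 0
  · exact ⟨0, fun w _ => by simp [h]⟩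
  · obtain ⟨B, hB⟩ := a_PL.2.2.2.2.2.1 x h
    exact ⟨B, fun w hw => (hB w hw).le⟩

lemma bdS {S : Set Nat.Primes} (h : Sᶜ.Finite) : ∃ B : ℕ, ∀ r : Nat.Primes, B < r.1 → r ∈ S := by
  obtain ⟨B, hB⟩ := (h.image fun r => r.1).bddAbove
  exact ⟨B, fun r hr => by_contra fun h' => (hB ⟨r, h', rfl⟩).not_gt hr⟩

end KFx

theorem p_KF (hMUL : S_MUL) (hSIG : S_SIG) (hGOOD : S_GOOD) (hSQ : S_SQ) :
    S_KF := by
  intro A B F S a P R l s t p q C U P' V W R' k hU hP' hV hW hR' hV0 hW0 hV1 hW1 hVW hVW' hR0 hα hγ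
  obtain ⟨B1, h1⟩ := a_PL.2.2.2.2.2.1 (ev F R') hα
  obtain ⟨B2, h2⟩ := a_PL.2.2.2.2.2.1 ((4 * A ^ 3 + 27 * B ^ 2 : ℤ) : Om) (by exact_mod_cast C.hD)
  obtain ⟨B3, h3⟩ := KFx.bd (X W)
  obtain ⟨B4, h4⟩ := KFx.bd (X R')
  obtain ⟨B5, h5⟩ := KFx.bdS C.hS
  obtain ⟨T, -, hT⟩ := (a_ORB U hU).2.1 (Finset.range (B1 + B2 + B3 + B4 + B5 + 3))
  choose g hg0 hg using fun w : Pl =>
    hSIG A B w U P' V W p q k C.hD hU hP' hV hW C.hp C.hq hV0 hW0 hV1 hW1 hVW hVW'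
  refine ⟨∏ w ∈ T, g w, Finset.prod_pos fun w _ => hg0 w, fun n d d' hn hn0 hd hd' w => ?_⟩
  have hβ : Fix U (bt P' V W d * bt P' V W d') := (hP'.bt hV hW d).mul (hP'.bt hV hW d')
  have hβ' : Fix (w.D ⊓ U) (bt P' V W d * bt P' V W d') := hβ.mono inf_le_right
  by_cases hw : w.p < B1 + B2 + B3 + B4 + B5 + 3
  · have hO : ¬ Out U T w := fun h => (hT w).1 h (Finset.mem_range.2 hw)
    obtain ⟨u, hu, hu'⟩ : ∃ u ∈ U, u • w ∈ T := by
      by_contra h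
      exact hO fun u hu hu' => h ⟨u, hu, hu'⟩
    exact Nm.of_sq ((sq_smul hu hβ).1
      (hg (u • w) n d d' hn ((Finset.dvd_prod_of_mem g hu').trans hn0) hd hd'))
  have hw2 : w.p ≠ 2 := by omega
  have key : ∀ e, Dn p q n e → E1 w.v ((p ^ k * e) • P') → Sq (w.D ⊓ U) (ev F R') := by
    rintro e ⟨i, j, -, -, rfl⟩ hE
    have hr : (⟨w.p, w.prime⟩ : Nat.Primes) ∈ S := h5 _ (show B5 < w.p by omega)
    refine hSQ A B F ⟨w.p, w.prime⟩ w U R' l (fun m => R + m • P) (a ⟨_, hr⟩) rfl hw2 hR' hR0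
      (h4 w (by omega)) (h1 w (by omega)) l.neBot ?_ (C.lim ⟨_, hr⟩) (C.sq ⟨_, hr⟩)
    filter_upwards [hγ, C.dp (k + n * i), C.dq (n * j)] with m hm hp hq
    have hc : IsCoprime ((p : ℤ) ^ (k + n * i)) ((q : ℤ) ^ (n * j)) :=
      (Nat.isCoprime_iff_coprime.2 ((Nat.coprime_primes C.hp C.hq).2 C.ne)).pow
    obtain ⟨c, hc'⟩ := hc.mul_dvd hp hq
    have e : (t * m - s) • P' = c • (p ^ k * (p ^ (n * i) * q ^ (n * j))) • P' := by
      rw [hc', ← natCast_zsmul, ← mul_smul]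
      congr 1
      push_cast
      ring
    rw [hm, add_sub_cancel_left, e]
    exact ((hMUL A B Om ℝ≥0 w.v).2.1 _ _ c hE.sm).1
  by_cases hE : E1 w.v ((p ^ k * d) • P')
  · exact Nm.of_sq_left hα (key d hd hE) hβ'
  by_cases hE' : E1 w.v ((p ^ k * d') • P')
  · exact Nm.of_sq_left hα (key d' hd' hE') hβ'
  have e1 := hGOOD A B w P' V W (p ^ k) d hw2 (h2 w (by omega)) hW1 (h3 w (by omega)) hV0 hW0 hE
  have e2 := hGOOD A B w P' V W (p ^ k) d' hw2 (h2 w (by omega)) hW1 (h3 w (by omega)) hV0 hW0 hE'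
  have e3 : w.v (bt P' V W d * bt P' V W d') = 1 := by rw [map_mul, e1, e2, mul_one]
  refine (a_NU w _ _ (w.loc_inf hU) hw2 ((hR'.ev F).mono inf_le_right) (h1 w (by omega))).1 _ hβ'
    (fun h => by simp [h] at e3) ⟨1, fix_one, by simp [e3]⟩

end Pool.Agent.P.MP_ab3ecb_nt.TP
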