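import Pool.Agent.P.MP_ab3ecb_nt.TP.IfaceB
import Pool.Agent.P.MP_ab3ecb_nt.TP.Iface

/-! Step KRB. -/

set_option autoImplicit false
set_option linter.unusedSectionVars false

namespace Pool.Agent.P.MP_ab3ecb_nt.TP

open Filter Topology
open Pool.Agent.P.MP_8b7eba_nt.R2 hiding Sm
open scoped Classical NNReal

namespace KRBx

theorem lim (hLB : S_LB) {A B : ℤ} {f : ℝ →+ Pt A B ℝ} (hf : Unif f) {W : Pt A B ℝ} (h : W ≠ 0)
    (c y : ℝ) : Tendsto (fun x => X (W + f (x - y)) - c) (𝓝 y) (𝓝 (X W - c)) :=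
  (hLB A B ℝ ℝ (𝓝 y) (fun _ => W) (fun x => f (x - y)) W (toA_const _ h)
    (hf.lim.comp (f := fun x : ℝ => x - y)
      (tendsto_sub_nhds_zero_iff.2 tendsto_id))).2.2.1.sub_const c

theorem key {A B : ℤ} {f : ℝ →+ Pt A B ℝ} (hf : Unif f) {P V : Pt A B Om} {u x₀ : ℝ} {a b : ℤ}
    (h1 : a + b = 1) (hP : IsR 1 P (f u)) (hV : IsR 1 V (f x₀)) {d : ℕ} {k : ℤ} {y : ℝ} (e : ℝ)
    (hy : d * u + k = y) : io (bt P (a • V) (b • V) d) =
      (X (b • f x₀ + f e + f (y - (x₀ + e))) - X (b • f x₀) : ℝ) := by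
  have h4 : d • f u - a • f x₀ = b • f x₀ + f e + f (y - (x₀ + e)) := by
    rw [← add_zero (d • f u), ← (hf.ker k).2 ⟨k, rfl⟩, ← map_nsmul, ← map_zsmul, ← map_zsmul,
      ← map_add, ← map_sub, ← map_add, ← map_add]
    congr 1
    have h5 : (a : ℝ) + b = 1 := by exact_mod_cast h1
    rw [nsmul_eq_mul, zsmul_eq_mul, zsmul_eq_mul, hy]
    linear_combination (-x₀) * h5
  rw [← h4]
  exact hP.bt (hV.zsmul a) (hV.zsmul b) d

theorem two {A B : ℤ} {f : ℝ →+ Pt A B ℝ} (hf : Unif f) {p : ℕ} {a b : ℤ} (hp : p.Prime)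
    (h1 : a + b = 1) (h2 : a - b = p) : 2 • b • f (1 / p ^ 2) ≠ 0 := by
  have p0 : (p : ℝ) ≠ 0 := by exact_mod_cast hp.ne_zero
  rw [← map_zsmul, ← map_nsmul, Ne, hf.ker]
  rintro ⟨k, hk⟩
  rw [zsmul_eq_mul, nsmul_eq_mul] at hk
  field_simp at hk
  have h3 : 2 * b = (p : ℤ) ^ 2 * k := by exact_mod_cast hk
  have h4 : (p : ℤ) ∣ 1 := ⟨1 + p * k, by linear_combination h3 - h1 + h2⟩
  exact hp.one_lt.ne' (by exact_mod_cast Int.eq_one_of_dvd_one (by positivity) h4)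

theorem ne {A B : ℤ} {f : ℝ →+ Pt A B ℝ} (hf : Unif f) : ∀ᶠ e in 𝓝[≠] (0 : ℝ), f e ≠ 0 := by
  have : ∀ᶠ e in 𝓝 (0 : ℝ), |e| < 1 := continuous_abs.continuousAt.eventually_lt_const (by simp)
  filter_upwards [self_mem_nhdsWithin, nhdsWithin_le_nhds this] with e e0 e1 h
  obtain ⟨k, rfl⟩ := (hf.ker e).1 h
  have e2 : k = 0 := Int.abs_lt_one_iff.1 (by exact_mod_cast e1)
  exact e0 (by simp [e2])

end KRBx

open KRBx in
theorem p_KRB (hLB : S_LB) (hRS : S_RS) :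
    S_KRB := by
  intro A B f P V u p a b hf hp h1 h2 hP hV
  have hW := two hf hp h1 h2
  generalize (1 / p ^ 2 : ℝ) = x₀ at *
  refine ((ne hf).and (nhdsWithin_le_nhds ((hRS A B ℝ _ f hf.lim).2 _ hW))).mono fun e he => ?_
  obtain ⟨a1, a2, a3⟩ := he.2 he.1
  rw [sub_eq_add_neg (b • _), ← map_neg] at a2 a3
  have t1 := (lim hLB hf a1 (X (b • f x₀)) (x₀ + e)).comp (tendsto_fst (g := 𝓝 (x₀ - e)))
  have t2 := (lim hLB hf a2 (X (b • f x₀)) (x₀ - e)).comp (tendsto_snd (f := 𝓝 (x₀ + e)))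
  refine ((t1.mul t2).eventually_lt_const a3).mono fun x hx d d' k k' e1 e2 => ?_
  rw [map_mul, key hf h1 hP hV e e1, key hf h1 hP hV (-e) e2, ← Complex.ofReal_mul,
    Complex.ofReal_re]
  exact hx

end Pool.Agent.P.MP_ab3ecb_nt.TP
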