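import Pool.Agent.P.MP_ab3ecb_nt.TP.Iface

namespace Pool.Agent.P.MP_ab3ecb_nt.TP

open WeierstrassCurve WeierstrassCurve.Affine Filter Topology

namespace LAx

lemma big {L ι : Type} [NormedField L] {l : Filter ι} {a b : ι → L} {b0 : L} (hb : b0 ≠ 0)
    (ha : Tendsto a l (𝓝 0)) (h : Tendsto b l (𝓝 b0)) (R : ℝ) :
    ∀ᶠ i in l, ∀ s : L, s * a i = b i → R ≤ ‖s‖ := by
  have h1 : Tendsto (fun i => R * ‖a i‖) l (𝓝 (R * ‖(0 : L)‖)) := ha.norm.const_mul R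
  rw [norm_zero, mul_zero] at h1
  filter_upwards [h1.eventually_lt h.norm (norm_pos_iff.2 hb)] with i hi s hs
  rw [← hs, norm_mul] at hi
  by_contra h2
  exact hi.not_ge (mul_le_mul_of_nonneg_right (not_le.1 h2).le (norm_nonneg _))

end LAx

theorem p_LA : S_LA := by
  intro A B L ι _ _ l P Q ⟨hQ, hP, hx, hy⟩ r
  set R : ℝ := |r| + 2 * ‖X Q‖ + 2 with hR
  have hx0 : Tendsto (fun i => X (P i) - X Q) l (𝓝 0) := tendsto_sub_nhds_zero_iff.2 hx
  have hy0 : Tendsto (fun i => Y (P i) - Y Q) l (𝓝 0) := tendsto_sub_nhds_zero_iff.2 hy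
  have key : ∀ᶠ i in l, ∀ s : L, s * (X (P i) - X Q) = Y (P i) + Y Q →
      s * (Y (P i) - Y Q) = X (P i) ^ 2 + X (P i) * X Q + X Q ^ 2 + A → R ≤ ‖s‖ := by
    rcases nsing hQ with h | h
    · have h1 : Tendsto (fun i => X (P i) ^ 2 + X (P i) * X Q + X Q ^ 2 + A) l
          (𝓝 (X Q ^ 2 + X Q * X Q + X Q ^ 2 + A)) :=
        (((hx.pow 2).add (hx.mul_const _)).add_const _).add_const _
      refine (LAx.big (fun h2 => h ?_) hy0 h1 R).mono fun i hi s _ hs => hi s hs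
      linear_combination h2
    · refine (LAx.big (fun h2 => h ?_) hx0 (hy.add_const (Y Q)) R).mono fun i hi s hs _ => hi s hs
      linear_combination h2
  have hn : ∀ᶠ i in l, ‖X (P i)‖ < ‖X Q‖ + 1 :=
    hx.norm.eventually_lt_const (lt_add_one _)
  filter_upwards [hP, key, hn] with i h0 hk hi
  refine or_iff_not_imp_left.2 fun h1 => ?_
  rw [sub_eq_add_neg] at h1 ⊢
  obtain ⟨s, e1, -, e2, e3⟩ := add_spec h0 (neg_ne_zero.2 hQ) h1
  rw [X_neg] at e1 e2 e3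
  rw [Y_neg] at e2 e3
  have h2 := hk s (by rw [e2, sub_neg_eq_add]) (by rw [← e3, sub_eq_add_neg])
  have h3 : ‖s‖ ^ 2 ≤ ‖X (P i + -Q)‖ + ‖X (P i)‖ + ‖X Q‖ := by
    rw [← norm_pow, show s ^ 2 = X (P i + -Q) + X (P i) + X Q by rw [e1]; ring]
    exact norm_add₃_le
  have h4 := le_abs_self r
  have h5 := abs_nonneg r
  have h6 := norm_nonneg (X Q)
  nlinarith

end Pool.Agent.P.MP_ab3ecb_nt.TP
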