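import Pool.Agent.P.MP_ab3ecb_nt.TP.Iface

/-! Step LB. -/

set_option autoImplicit false
set_option linter.unusedSectionVars false

namespace Pool.Agent.P.MP_ab3ecb_nt.TP

open Filter Topology
open scoped Classical NNReal

namespace LBx

variable {A B : ℤ}

theorem ksq {L : Type} [Field L] {Q : Pt A B L} (hQ : Q = 0 ∨ X Q ≠ 0) :
    (Y Q * (X Q)⁻¹ ^ 2) ^ 2 = (X Q)⁻¹ * (1 + A * (X Q)⁻¹ ^ 2 + B * (X Q)⁻¹ ^ 3) := by
  by_cases h0 : Q = 0
  · simp [h0]
  · have h1 := hQ.resolve_left h0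
    rw [mul_pow, eqn h0]
    field_simp

theorem form {L : Type} [Field L] [DecidableEq L] {P Q : Pt A B L} (hP : P ≠ 0)
    (hQ : Q = 0 ∨ X Q ≠ 0) {u k s : L} (hu : u = (X Q)⁻¹) (hk : k = Y Q * u ^ 2)
    (hs : s = 1 - X P * u) (h0 : s ≠ 0) :
    P + Q ≠ 0 ∧
    X (P + Q) = X P + ((3 * X P ^ 2 + A) * u * s - 2 * Y P * (k - Y P * u ^ 2)) / s ^ 2 ∧
    Y (P + Q) = -Y P - (3 * X P ^ 2 + A) * (k - Y P * u ^ 2) / s ^ 2 +
      2 * Y P * (1 + A * u ^ 2 + B * u ^ 3 - 2 * Y P * k * u + Y P ^ 2 * u ^ 3) / s ^ 3 := by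
  by_cases hz : Q = 0
  · subst hz
    have e1 : u = 0 := by simpa using hu
    have e2 : k = 0 := by simpa using hk
    have e3 : s = 1 := by simpa [e1] using hs
    rw [add_zero, e1, e2, e3]
    refine ⟨hP, by simp, ?_⟩
    simp
    ring
  have h1 := hQ.resolve_left hz
  have h2 : X Q * u = 1 := by rw [hu, mul_inv_cancel₀ h1]
  have h3 : P + Q ≠ 0 := fun h => by
    have : X P = X Q := by rw [eq_neg_of_add_eq_zero_left h, X_neg]
    exact h0 (by rw [hs, this, h2, sub_self])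
  obtain ⟨l, a, b, c, d⟩ := add_spec hP hz h3
  have e := ksq (Or.inr h1 : Q = 0 ∨ X Q ≠ 0)
  rw [← hu, ← hk] at e
  have hu0 : u ≠ 0 := right_ne_zero_of_mul_eq_one h2
  have f1 : l * u * s = k - Y P * u ^ 2 := by
    rw [hs, hk]
    linear_combination (-u ^ 2) * c - l * u * h2
  have f2 : (X (P + Q) - X P) * s = (3 * X P ^ 2 + A - 2 * l * Y P) * u := by
    rw [a, hs]
    linear_combination (-l * u) * c + u * d - (l ^ 2 - 2 * X P - X Q) * h2
  have f3 : l ^ 2 * u * s ^ 2 =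
      1 + A * u ^ 2 + B * u ^ 3 - 2 * Y P * k * u + Y P ^ 2 * u ^ 3 := by
    refine mul_left_cancel₀ hu0 ?_
    linear_combination (l * u * s + k - Y P * u ^ 2) * f1 + e
  refine ⟨h3, ?_, ?_⟩
  · rw [← f1]
    field_simp
    linear_combination f2
  · rw [b, ← f1, ← f3]
    field_simp
    linear_combination (-l) * f2

end LBx

theorem p_LB :
    S_LB := by
  intro A B L ι _ _ l P Q R ⟨hR, hP, hx, hy⟩ hQ
  have hQ1 : ∀ᶠ i in l, Q i = 0 ∨ X (Q i) ≠ 0 := (hQ 1).mono fun i hi =>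
    hi.imp_right fun h => norm_pos_iff.1 (zero_lt_one.trans_le h)
  have hu : Tendsto (fun i => (X (Q i))⁻¹) l (𝓝 0) := by
    rw [NormedAddGroup.tendsto_nhds_zero]
    intro ε hε
    filter_upwards [hQ (2 / ε)] with i hi
    rcases hi with h | h
    · simpa [h] using hε
    · rw [norm_inv]
      refine (inv_anti₀ (by positivity) h).trans_lt ?_
      rw [inv_div]
      linarith
  have hk : Tendsto (fun i => Y (Q i) * (X (Q i))⁻¹ ^ 2) l (𝓝 0) := by
    have h1 : Tendsto (fun i => (Y (Q i) * (X (Q i))⁻¹ ^ 2) ^ 2) l (𝓝 0) := by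
      have := hu.mul (((hu.pow 2).const_mul (A : L)).const_add 1 |>.add
        ((hu.pow 3).const_mul (B : L)))
      rw [zero_mul] at this
      exact this.congr' (hQ1.mono fun i hi => (LBx.ksq hi).symm)
    have h2 := h1.norm.sqrt
    rw [norm_zero, Real.sqrt_zero] at h2
    rw [tendsto_zero_iff_norm_tendsto_zero]
    exact h2.congr fun i => by rw [norm_pow, Real.sqrt_sq (norm_nonneg _)]
  have hs : Tendsto (fun i => 1 - X (P i) * (X (Q i))⁻¹) l (𝓝 1) := by
    simpa using (hx.mul hu).const_sub 1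
  have hf := (hP.and (hQ1.and (hs.eventually_ne one_ne_zero))).mono fun i hi =>
    LBx.form hi.1 hi.2.1 rfl rfl rfl hi.2.2
  have hφ := ((hx.pow 2).const_mul 3).add_const (A : L)
  have hw := hk.sub (hy.mul (hu.pow 2))
  refine ⟨hR, hf.mono fun i hi => hi.1, ?_, ?_⟩
  · refine Tendsto.congr' (hf.mono fun i hi => hi.2.1.symm) ?_
    have := hx.add ((((hφ.mul hu).mul hs).sub ((hy.const_mul 2).mul hw)).div (hs.pow 2)
      (by simp))
    simpa using this
  · refine Tendsto.congr' (hf.mono fun i hi => hi.2.2.symm) ?_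
    have := (hy.neg.sub ((hφ.mul hw).div (hs.pow 2) (by simp))).add
      (((hy.const_mul 2).mul ((((((hu.pow 2).const_mul (A : L)).const_add 1).add
        ((hu.pow 3).const_mul (B : L))).sub (((hy.const_mul 2).mul hk).mul hu)).add
          ((hy.pow 2).mul (hu.pow 3)))).div (hs.pow 3) (by simp))
    convert this using 2
    simp
    ring

end Pool.Agent.P.MP_ab3ecb_nt.TP
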