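import Pool.Agent.P.MP_ab3ecb_nt.TP.IfaceB

/-! Step QR. -/

set_option autoImplicit false
set_option linter.unusedSectionVars false

namespace Pool.Agent.P.MP_ab3ecb_nt.TP

open Filter Topology
open Pool.Agent.P.MP_8b7eba_nt.R2 hiding Sm
open scoped Classical NNReal

namespace QRx

theorem tau_i {x : Om} (h : x ^ 2 = -1) : tau x = -x := by
  rcases sq_eq_sq_iff_eq_or_eq_neg.1
    (show tau x ^ 2 = x ^ 2 by rw [← map_pow, h, map_neg, map_one]) with e | e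
  · have h1 := a_TAU.1 x
    rw [e] at h1
    obtain ⟨r, hr⟩ := Complex.conj_eq_iff_real.1 h1.symm
    have h2 := congrArg io h
    rw [map_pow, hr, map_neg, map_one] at h2
    have h3 : r ^ 2 = -1 := by exact_mod_cast h2
    nlinarith [sq_nonneg r]
  · exact e

theorem tc {x : Om} (h : x ^ 2 = -1) (U : Subgroup GQ) : TC (U ⊓ MulAction.stabilizer GQ x) := by
  intro g hg
  have h1 : g (tau (g⁻¹ x)) = x := hg.2
  rw [tau_i (by rw [← map_pow, h, map_neg, map_one]), map_neg, BasicP.apply_inv] at h1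
  have h2 : x = 0 := by linear_combination (-1 / 2 : Om) * h1
  rw [h2] at h
  simp at h

end QRx

theorem p_QR (hQRA : S_QRA) (hQRB : S_QRB) (hQRC : S_QRC) (hQRD : S_QRD) :
    S_QR := by
  intro U a b hU ha hb ha0 hb0 hN ht hra hrb
  obtain ⟨β, rfl⟩ := exists_root a two_ne_zero
  obtain ⟨i, hi⟩ := exists_root (-1) two_ne_zero
  have hβ0 : β ≠ 0 := fun e => ha0 (by rw [e]; ring)
  have hi0 : i ≠ 0 := fun e => by rw [e] at hi; simp at hi
  have hUc := closed_of_open hU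
  have k1 : ∀ H ≤ U, IsClosed (H : Set GQ) → (Triv H (cup (qc β) b) ↔ Nm H (β ^ 2) b) :=
    fun H h1 h2 => (a_SYM H _ β h2 hβ0 (ha.mono h1) (isKer_qc H β)).2.2.1 b (hb.mono h1) hb0
  have hcup := a_CUP U b hb hb0 2 (qc β) two_ne_zero (a_SYM U _ β hUc hβ0 ha (isKer_qc U β)).1
  have hf : Co2T U (cup (qc β) b) := ⟨hcup.1, 1, by simpa using hcup.2.1⟩
  have hl : ∀ w : Pl, Triv (w.D ⊓ U) (cup (qc β) b) := fun w =>
    (k1 _ inf_le_right (w.loc_inf hU).closed).2 (hN w)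
  have hV : Triv (U ⊓ MulAction.stabilizer GQ i) (cup (qc β) b) :=
    a_ABHN _ _ (hU.inter (isOpen_stab i)) (QRx.tc hi U) (hf.mono inf_le_left) fun w =>
      (hl w).mono (inf_le_inf_left _ inf_le_left)
  obtain ⟨c, hc, hc0, -, key⟩ :=
    (a_SYM U _ i hUc hi0 (hi ▸ fix_one.neg) (isKer_qc U i)).2.2.2.2 _ hf.1 hV
  rw [hi] at key
  have hB := hQRB U c hU hc fun w => (key _ inf_le_right (w.loc_inf hU).closed).1 (hl w)
  have hr := relIndex_ne_zero hU ⊤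
  obtain ⟨q, hq⟩ := (hc.nrm hr).rat
  have hq0 : q ≠ 0 := fun e => hc0 ((nrm_eq_zero hr).1 (by rw [hq, e]; simp))
  have hpos := hQRA q hq0 (hq ▸ hB)
  have real : ∀ g : GQ, g⁻¹ * tau * g ∈ U → (io (g c)).re ≠ 0 ∧
      ((io (g c)).re < 0 ↔ (io (g (β ^ 2))).re < 0 ∧ (io (g b)).re < 0) := fun g hg => by
    obtain ⟨d1, -, d2⟩ := hQRD g b (β ^ 2) hb0 ha0 (hb _ hg) (ha _ hg)
    obtain ⟨-, d3, d4⟩ := hQRD g c (-1) hc0 (by simp) (hc _ hg) (by simp)
    have hle : Subgroup.zpowers (g⁻¹ * tau * g) ≤ U := Subgroup.zpowers_le_of_mem hg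
    rw [← k1 _ hle d1, key _ hle d1, d4, not_iff_not] at d2
    refine ⟨d3, ?_⟩
    rw [← d2]
    simp
  by_contra hcon
  refine absurd (hQRC U c q hU hc hc0 ht ?_ (fun g h1 h2 => ?_) hq) hpos.le.not_gt
  · simpa using (real 1 (by simpa using ht)).2.2 ⟨by simpa using hra, by simpa using hrb⟩
  · obtain ⟨r1, r2⟩ := real g h2
    exact lt_of_le_of_ne (not_lt.1 fun h => hcon ⟨g, h1, h2, (r2.1 h).2⟩) r1.symm

end Pool.Agent.P.MP_ab3ecb_nt.TP
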