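import Pool.Agent.P.MP_ab3ecb_nt.TP.IfaceB

/-! Step QRA. -/

set_option autoImplicit false
set_option linter.unusedSectionVars false

namespace Pool.Agent.P.MP_ab3ecb_nt.TP

open Filter Topology
open Pool.Agent.P.MP_8b7eba_nt.R2 hiding Sm
open scoped Classical NNReal

namespace QRAx

theorem tau_ne {i : Om} (hi : i ^ 2 = -1) : qc i tau ≠ 0 := by
  have h : tau i ≠ i := fun e => by
    have h1 := a_TAU.1 i
    rw [e] at h1
    have h2 : (io i) ^ 2 = -1 := by rw [← map_pow, hi, map_neg, map_one]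
    have h3 : io i * (starRingEnd ℂ) (io i) = -1 := by rw [← h1, ← sq, h2]
    rw [Complex.mul_conj] at h3
    have h4 : Complex.normSq (io i) = -1 := by exact_mod_cast h3
    have h5 := Complex.normSq_nonneg (io i)
    linarith
  rw [qc, if_neg h]
  decide

end QRAx

theorem p_QRA :
    S_QRA := by
  intro q hq h
  obtain ⟨i, hi⟩ := exists_root (-1 : Om) two_ne_zero
  have hi0 : i ≠ 0 := fun e => by rw [e] at hi; simp at hi
  have hf : ∀ H : Subgroup GQ, Fix H (i ^ 2) := fun H σ _ => by rw [hi, map_neg, map_one]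
  have hq' : (q : Om) ≠ 0 := by exact_mod_cast hq
  have hch : IsCh ⊤ (qc i) := (a_SYM ⊤ _ i isClosed_univ hi0 (hf ⊤) (isKer_qc ⊤ i)).1
  obtain ⟨c1, c2, -⟩ := a_CUP ⊤ q (fix_rat q) hq' 2 (qc i) two_ne_zero hch
  have c3 : Co2T ⊤ (cup (qc i) q) := ⟨c1, 1, by rwa [pow_one]⟩
  have c4 := a_RECQ (cup (qc i) q) ∅ c3 (fun w hw => by simp at hw) fun w _ =>
    ((a_SYM w.D _ i w.closed_D hi0 (hf _) (isKer_qc w.D i)).2.2.1 q (fix_rat q) hq').2
      (by rw [hi]; exact h w)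
  rw [Finset.prod_empty, mul_one, nvR] at c4
  refine (TRECQ.real_place a_TAU a_CYC2 two_ne_zero hch (QRAx.tau_ne hi) hq).1 ?_
  by_contra h1
  rw [if_neg h1] at c4
  norm_num at c4

end Pool.Agent.P.MP_ab3ecb_nt.TP
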