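import Pool.Agent.P.MP_ab3ecb_nt.TP.IfaceB

/-! Step QRB. -/

set_option autoImplicit false
set_option linter.unusedSectionVars false

namespace Pool.Agent.P.MP_ab3ecb_nt.TP

open Filter Topology
open Pool.Agent.P.MP_8b7eba_nt.R2 hiding Sm
open scoped Classical NNReal

namespace QRBx

theorem key {H H' : Subgroup GQ} (h : H'.relIndex H ≠ 0) {a : Om} (ha : Nm H' (-1) a) :
    Nm H (-1) (nrm H H' a) := by
  obtain ⟨x, y, hx, hy, rfl⟩ := ha
  have := Nrm.ft h
  obtain ⟨i, hi⟩ := exists_root (-1 : Om) (n := 2) two_ne_zero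
  obtain ⟨A, hA⟩ : ∃ A : Om → Om, ∀ j, A j =
      ∏ q : H ⧸ H'.subgroupOf H, (Nrm.ro H H' q x + j * Nrm.ro H H' q y) := ⟨_, fun _ => rfl⟩
  have hp : ∀ g ∈ H, ∀ j, g (A j) = A (g j) := by
    intro g hg j
    have e : ∀ z, Fix H' z → ∀ q : H ⧸ H'.subgroupOf H,
        Nrm.ro H H' ((⟨g, hg⟩ : H) • q) z = g (Nrm.ro H H' q z) := by
      intro z hz q
      have h1 : (Nrm.ro H H' ((⟨g, hg⟩ : H) • q))⁻¹ * (g * Nrm.ro H H' q) ∈ H' :=
        (Nrm.mk_eq (a := ((⟨g, hg⟩ : H) • q).out) (b := (⟨g, hg⟩ : H) * q.out)).1 (by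
          rw [QuotientGroup.out_eq']
          exact (MulAction.Quotient.coe_smul_out _ _ _).symm)
      have h2 := congrArg (Nrm.ro H H' ((⟨g, hg⟩ : H) • q)) (hz _ h1)
      rw [← AlgEquiv.mul_apply, mul_inv_cancel_left] at h2
      exact h2.symm
    simp only [hA, map_prod, map_add, map_mul]
    refine Fintype.prod_equiv (MulAction.toPerm (⟨g, hg⟩ : H)) _ _ fun q => ?_
    rw [MulAction.toPerm_apply, e x hx, e y hy]
  have hAB : nrm H H' (x ^ 2 - (-1) * y ^ 2) = A i * A (-i) := by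
    rw [Nrm.prod, hA, hA, ← Finset.prod_mul_distrib]
    refine Finset.prod_congr rfl fun q _ => ?_
    simp only [map_sub, map_mul, map_pow, map_neg, map_one]
    linear_combination (Nrm.ro H H' q y) ^ 2 * hi
  have hg : ∀ g : GQ, g i = i ∨ g i = -i := fun g =>
    sq_eq_sq_iff_eq_or_eq_neg.1 (by rw [← map_pow, hi, map_neg, map_one])
  refine ⟨(A i + A (-i)) / 2, (A i - A (-i)) / (2 * i), fun g hg' => ?_, fun g hg' => ?_, ?_⟩
  · rw [map_div₀, map_add, hp g hg', hp g hg', map_neg, map_ofNat]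
    rcases hg g with e | e
    · rw [e]
    · rw [e, neg_neg, add_comm]
  · rw [map_div₀, map_sub, hp g hg', hp g hg', map_neg, map_mul, map_ofNat]
    rcases hg g with e | e
    · rw [e]
    · rw [e, neg_neg, mul_neg, div_neg, ← neg_div, neg_sub]
  · rw [hAB, div_pow, div_pow, mul_pow, hi]
    ring

end QRBx

theorem p_QRB :
    S_QRB := by
  intro U a hU ha h w
  obtain ⟨R, hR, hO⟩ := (a_ORB U hU).2.1 {w.p}
  have hs : ∀ w' : Pl, ∃ σ : GQ, w'.p = w.p → σ • w' = w := fun w' => by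
    by_cases e : w'.p = w.p
    · obtain ⟨σ, hσ⟩ := a_PL.2.1 w' w e
      exact ⟨σ, fun _ => hσ⟩
    · exact ⟨1, fun e' => absurd e' e⟩
  choose s hs using hs
  have hp : ∀ w' ∈ R, w'.p = w.p := by
    intro w' hw'
    by_contra hne
    exact (hO w').2 (by simpa using hne) 1 U.one_mem (by rw [one_smul]; exact hw')
  rw [((a_ORB U hU).2.2 w R s hR (fun w' => by simpa using hO w')
    (fun w' hw' => hs w' (hp w' hw'))).2 a ha]
  refine Finset.prod_induction _ (Nm w.D (-1)) (fun a b => Nm.mul fix_one.neg)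
    (Nm.of_sq ⟨1, fix_one, by ring⟩) fun w' hw' => ?_
  obtain ⟨x, y, hx, hy, e⟩ := QRBx.key ((w'.loc_inf hU).relIndex_ne le_rfl) (h w')
  have h1 := TABHN.fix_smul hx (s w')
  have h2 := TABHN.fix_smul hy (s w')
  rw [hs w' (hp w' hw')] at h1 h2
  exact ⟨s w' x, s w' y, h1, h2, by rw [e]; simp⟩

end Pool.Agent.P.MP_ab3ecb_nt.TP
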