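import Pool.Agent.P.MP_ab3ecb_nt.TP.IfaceB

/-! Step QRC. -/

set_option autoImplicit false
set_option linter.unusedSectionVars false

namespace Pool.Agent.P.MP_ab3ecb_nt.TP

open Filter Topology
open Pool.Agent.P.MP_8b7eba_nt.R2 hiding Sm
open scoped Classical NNReal ComplexConjugate

namespace QRCx

theorem ap {U : Subgroup GQ} {a : Om} (ha : Fix U a) {g h : GQ} (e : g⁻¹ * h ∈ U) : g a = h a := by
  have := ha _ e
  rw [AlgEquiv.mul_apply] at this
  exact ((AlgEquiv.symm_apply_eq _).1 this).symm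

theorem sgn_pos {z : ℂ} (h : conj z = z) (h0 : 0 < z.re) : z / (‖z‖ : ℂ) = 1 := by
  obtain ⟨r, rfl⟩ := Complex.conj_eq_iff_real.1 h
  have hr : 0 < r := by simpa using h0
  rw [Complex.norm_real, Real.norm_of_nonneg hr.le, div_self (by exact_mod_cast hr.ne')]

theorem sgn_neg {z : ℂ} (h : conj z = z) (h0 : z.re < 0) : z / (‖z‖ : ℂ) = -1 := by
  have := sgn_pos (z := -z) (by rw [map_neg, h]) (by simpa using h0)
  rw [norm_neg, neg_div] at this
  rw [← this, neg_neg]

end QRCx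

theorem p_QRC :
    S_QRC := by
  intro U a q hU ha h0 ht hneg hpos hq
  have hT := a_TAU
  have := Basic.fi hU
  have : Fintype (GQ ⧸ U) := Fintype.ofFinite _
  have hn : nrm ⊤ U a = ∏ c : GQ ⧸ U, c.out a := by
    rw [Nrm.gen (fun c : GQ ⧸ U => c.out) ha (fun _ => Subgroup.mem_top _) (fun c c' e => ?_) fun g _ => ?_,
      finprod_eq_prod_of_fintype]
    · rw [← c.out_eq', ← c'.out_eq']
      exact QuotientGroup.eq.2 e
    · exact ⟨(g : GQ ⧸ U), QuotientGroup.eq.1 (QuotientGroup.out_eq' _)⟩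
  set z : GQ ⧸ U → ℂ := fun c => io (c.out a) with hz
  have hz0 : ∀ c, z c ≠ 0 := fun c => by simp [hz, h0]
  have hzg : ∀ g : GQ, z (g : GQ ⧸ U) = io (g a) := fun g =>
    congrArg io (QRCx.ap ha (QuotientGroup.eq.1 (QuotientGroup.out_eq' (g : GQ ⧸ U))))
  have hsm : ∀ c : GQ ⧸ U, tau • c = ((tau * c.out : GQ) : GQ ⧸ U) := fun c => by
    conv_lhs => rw [← c.out_eq']
    rfl
  have hzt : ∀ c, z (tau • c) = conj (z c) := fun c => by
    rw [hsm, hzg, AlgEquiv.mul_apply, hT.1]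
  have hinv : ∀ c : GQ ⧸ U, tau • tau • c = c := fun c => by
    rw [← mul_smul, hT.2.1, one_smul]
  have h1 : tau • ((1 : GQ) : GQ ⧸ U) = ((1 : GQ) : GQ ⧸ U) := by
    show ((tau * 1 : GQ) : GQ ⧸ U) = _
    exact QuotientGroup.eq.2 (by simpa using ht)
  have h1' : ∀ c : GQ ⧸ U, tau • c = ((1 : GQ) : GQ ⧸ U) ↔ c = ((1 : GQ) : GQ ⧸ U) := fun c =>
    ⟨fun e => by rw [← hinv c, e, h1], fun e => by rw [e, h1]⟩
  have key : ∏ c : GQ ⧸ U, (z c / (‖z c‖ : ℂ) * if c = ((1 : GQ) : GQ ⧸ U) then -1 else 1) = 1 := by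
    refine Finset.prod_involution (fun c _ => tau • c) (fun c _ => ?_) (fun c _ hc e => hc ?_)
      (fun _ _ => Finset.mem_univ _) fun c _ => hinv c
    · have hc : (‖z c‖ : ℂ) ≠ 0 := by exact_mod_cast norm_ne_zero_iff.2 (hz0 c)
      have hm : z c * conj (z c) = (‖z c‖ : ℂ) * ‖z c‖ := by
        rw [Complex.mul_conj, Complex.normSq_eq_norm_sq]; push_cast; ring
      simp only [hzt, h1', Complex.norm_conj]
      split_ifs <;> field_simp <;> rw [hm, sq]
    · have hr : conj (z c) = z c := by rw [← hzt, e]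
      by_cases hc1 : c = ((1 : GQ) : GQ ⧸ U)
      · rw [if_pos hc1, QRCx.sgn_neg hr (by rw [hc1, hzg]; simpa using hneg)]
        ring
      · rw [if_neg hc1, mul_one]
        refine QRCx.sgn_pos hr (hpos c.out (fun hU' => hc1 ?_) ?_)
        · rw [← c.out_eq']
          exact QuotientGroup.eq.2 (by simpa using hU')
        · rw [hsm] at e
          have e' : ((c.out : GQ) : GQ ⧸ U) = ((tau * c.out : GQ) : GQ ⧸ U) := by
            rw [e, QuotientGroup.out_eq']
          simpa [mul_assoc] using QuotientGroup.eq.1 e'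
  have hP : 0 < ∏ c, ‖z c‖ := Finset.prod_pos fun c _ => norm_pos_iff.2 (hz0 c)
  have hq' : ∏ c, z c = (q : ℂ) := by
    rw [← map_ratCast io q, ← hq, hn, map_prod]
  rw [Finset.prod_mul_distrib, Finset.prod_div_distrib, hq', Finset.prod_ite_eq', if_pos
    (Finset.mem_univ _), ← Complex.ofReal_prod, ← Complex.ofReal_ratCast] at key
  have key' : (q : ℝ) / (∏ c, ‖z c‖) * -1 = 1 := by exact_mod_cast key
  have : (q : ℝ) / (∏ c, ‖z c‖) < 0 := by linarith
  have := (div_neg_iff.1 this).resolve_left fun h => absurd h.2 hP.not_gt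
  exact_mod_cast this.1

end Pool.Agent.P.MP_ab3ecb_nt.TP
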