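import Pool.Agent.P.MP_ab3ecb_nt.TP.IfaceB

/-! Step QRD. -/

set_option autoImplicit false
set_option linter.unusedSectionVars false

namespace Pool.Agent.P.MP_ab3ecb_nt.TP

open Filter Topology
open Pool.Agent.P.MP_8b7eba_nt.R2 hiding Sm
open scoped Classical NNReal

namespace QRDx

theorem mem_zp {s g : GQ} (hs : s * s = 1) (hg : g ∈ Subgroup.zpowers s) : g = 1 ∨ g = s := by
  obtain ⟨k, rfl⟩ := Subgroup.mem_zpowers_iff.1 hg
  have h2 : s ^ (2 : ℤ) = 1 := by rw [zpow_two, hs]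
  rcases Int.even_or_odd' k with ⟨m, rfl | rfl⟩
  · left; rw [zpow_mul, h2, one_zpow]
  · right; rw [zpow_add, zpow_mul, h2, one_zpow, one_mul, zpow_one]

theorem ss (g : GQ) : (g⁻¹ * tau * g) * (g⁻¹ * tau * g) = 1 := by
  have h : tau * tau = 1 := a_TAU.2.1
  calc (g⁻¹ * tau * g) * (g⁻¹ * tau * g) = g⁻¹ * (tau * tau) * g := by group
    _ = 1 := by rw [h]; group

theorem real_iff (g : GQ) (x : Om) : (g⁻¹ * tau * g) x = x ↔ (io (g x)).im = 0 := by
  rw [← Complex.conj_eq_iff_im, ← a_TAU.1, AlgEquiv.mul_apply, AlgEquiv.mul_apply]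
  constructor
  · intro h
    have h1 : tau (g x) = g x := (AlgEquiv.symm_apply_eq g).1 h
    rw [h1]
  · intro h
    exact (AlgEquiv.symm_apply_eq g).2 (io.injective h)

theorem fix_iff (g : GQ) (x : Om) :
    Fix (Subgroup.zpowers (g⁻¹ * tau * g)) x ↔ (io (g x)).im = 0 := by
  rw [← real_iff]
  constructor
  · intro h
    exact h _ (Subgroup.mem_zpowers _)
  · intro h σ hσ
    rcases mem_zp (ss g) hσ with rfl | rfl
    · rfl
    · exact h

theorem sq_of_pos (g : GQ) {a : Om} (h0 : (io (g a)).im = 0) (h1 : 0 ≤ (io (g a)).re) :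
    Sq (Subgroup.zpowers (g⁻¹ * tau * g)) a := by
  obtain ⟨c, hc⟩ := exists_root a two_ne_zero
  refine ⟨c, (fix_iff g c).2 ?_, hc.symm⟩
  have e1 : io (g c) ^ 2 = io (g a) := by rw [← map_pow, ← map_pow, hc]
  have e2 : ((√(io (g a)).re : ℝ) : ℂ) ^ 2 = io (g a) := by
    rw [← Complex.ofReal_pow, Real.sq_sqrt h1]
    exact Complex.ext (by simp) (by simp [h0])
  rcases sq_eq_sq_iff_eq_or_eq_neg.1 (e1.trans e2.symm) with h4 | h4
  · rw [h4, Complex.ofReal_im]
  · rw [h4, Complex.neg_im, Complex.ofReal_im, neg_zero]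

end QRDx

open QRDx in
theorem p_QRD :
    S_QRD := by
  intro g a b ha hb h1 h2
  have ia := (real_iff g a).1 h1
  have ib := (real_iff g b).1 h2
  refine ⟨?_, ?_, ?_, ?_⟩
  · have h : (Subgroup.zpowers (g⁻¹ * tau * g) : Set GQ) ⊆ {1, g⁻¹ * tau * g} :=
      fun σ hσ => mem_zp (ss g) hσ
    exact ((Set.toFinite _).subset h).isClosed
  · intro h
    have h3 : io (g a) = 0 := Complex.ext h ia
    exact ha (by simpa using h3)
  · rintro ⟨x, y, hx, hy, e⟩ ⟨hb', ha'⟩
    have ix := (fix_iff g x).1 hx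
    have iy := (fix_iff g y).1 hy
    have e1 : io (g a) = io (g x) ^ 2 - io (g b) * io (g y) ^ 2 := by
      rw [e]; simp only [map_sub, map_mul, map_pow]
    have e2 : (io (g a)).re = (io (g x)).re ^ 2 - (io (g b)).re * (io (g y)).re ^ 2 := by
      rw [e1]
      simp only [sq, Complex.sub_re, Complex.mul_re, Complex.mul_im, ix, iy, ib]
      ring
    nlinarith [sq_nonneg (io (g x)).re, sq_nonneg (io (g y)).re,
      mul_nonneg (neg_nonneg.2 hb'.le) (sq_nonneg (io (g y)).re)]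
  · intro h
    by_cases k : (io (g b)).re < 0
    · have k2 : ¬ (io (g a)).re < 0 := fun k3 => h ⟨k, k3⟩
      exact Nm.of_sq (sq_of_pos g ia (not_lt.1 k2))
    · exact Nm.of_sq_left hb (sq_of_pos g ib (not_lt.1 k)) ((fix_iff g a).2 ia)

end Pool.Agent.P.MP_ab3ecb_nt.TP
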