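import Pool.Agent.P.MP_ab3ecb_nt.TP.IfaceB
import Pool.Agent.P.MP_ab3ecb_nt.TP.Iface

/-! Step TOP. -/

set_option autoImplicit false
set_option linter.unusedSectionVars false

namespace Pool.Agent.P.MP_ab3ecb_nt.TP

open Filter Topology
open Pool.Agent.P.MP_8b7eba_nt.R2 hiding Sm
open scoped Classical NNReal

namespace TOPx

variable {A B : ℤ}

/-- A limit of points whose indices converge to an integer is the point with that index. -/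
lemma fin (hMUL : S_MUL) (hCO : S_CO) (hTS : S_TS) (hLNK : S_LNK) (hFI : S_FI)
    (hD : 4 * A ^ 3 + 27 * B ^ 2 ≠ 0) (r : Nat.Primes) (a : Pt A B ℚ_[r.1]) (P R : Pt A B ℚ)
    (l : Ultrafilter ℤ) (m₀ : ℤ)
    (hl : Tendsto (fun m : ℤ => co (pm (Rat.castHom ℚ_[r.1]) (R + m • P))) l (𝓝 (co a)))
    (hm : ∀ N : ℕ, 0 < N → ∀ᶠ m in l, ∃ k : ℤ, (m - m₀) • P = k • N • P) :
    a = pm (Rat.castHom ℚ_[r.1]) (R + m₀ • P) := by
  obtain ⟨h1, h2⟩ := hCO A B ℚ_[r.1] ℤ l (fun m : ℤ => pm (Rat.castHom ℚ_[r.1]) (R + m • P)) a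
  refine h2 _ l.neBot (h1 hl).2 ?_
  rw [hTS A B ℚ_[r.1] ℤ]
  intro c hc
  obtain ⟨w, hw⟩ := a_PL.1 r.1 r.2
  obtain ⟨N, hN, hs⟩ := hFI A B w ⊤ (rt P) c hD (by simp) (fixP_rt P) hc
  filter_upwards [hm N hN] with m ⟨k, hk⟩
  have e : pm (Rat.castHom ℚ_[r.1]) (R + m • P) - pm (Rat.castHom ℚ_[r.1]) (R + m₀ • P) =
      pm (Rat.castHom ℚ_[r.1]) (k • N • P) := by
    rw [← map_sub, ← hk, add_sub_add_left_eq_sub, sub_smul]
  rw [e, ← (hLNK r w hw).2, map_zsmul, map_nsmul]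
  exact (hMUL A B Om ℝ≥0 w.v).2.1 c _ k hs

/-- The indices converge in the integers of a prime at which a multiple of the limit is rational. -/
lemma dv (hMUL : S_MUL) (hCO : S_CO) (hTS : S_TS) (hLNK : S_LNK) (hDIV : S_DIV)
    (hD : 4 * A ^ 3 + 27 * B ^ 2 ≠ 0) (r : Nat.Primes) (a : Pt A B ℚ_[r.1]) (P R Q : Pt A B ℚ)
    (l : Ultrafilter ℤ) (hP : NT P) (n k k' : ℕ) (j j' : ℤ) (hk : k • Q = j • P)
    (hk' : k' • R = j' • P) (ha : n • a = pm (Rat.castHom ℚ_[r.1]) Q)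
    (hl : Tendsto (fun m : ℤ => co (pm (Rat.castHom ℚ_[r.1]) (R + m • P))) l (𝓝 (co a))) (i : ℕ) :
    ∀ᶠ m in l, ((r.1 : ℕ) : ℤ) ^ i ∣ ((n * k * k' : ℕ) : ℤ) * m - (k' * j - n * k * j') := by
  obtain ⟨h1, -⟩ := hCO A B ℚ_[r.1] ℤ l (fun m : ℤ => pm (Rat.castHom ℚ_[r.1]) (R + m • P)) a
  have h2 := (h1 hl).2
  rw [hTS A B ℚ_[r.1] ℤ] at h2
  obtain ⟨w, hw⟩ := a_PL.1 r.1 r.2
  obtain ⟨c, hc, hd⟩ := hDIV A B w P i hD hP
  filter_upwards [h2 c hc] with m hm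
  rw [← hw]
  apply hd
  rw [(hLNK r w hw).2]
  have e0 : (((n * k * k' : ℕ) : ℤ) * m - (k' * j - n * k * j')) • P =
      ((n * k * k' : ℕ) : ℤ) • (R + m • P) - ((k * k' : ℕ) : ℤ) • Q := by
    have e1 : (j : ℤ) • P = (k : ℤ) • Q := by rw [natCast_zsmul, hk]
    have e2 : (j' : ℤ) • P = (k' : ℤ) • R := by rw [natCast_zsmul, hk']
    push_cast
    calc (n * k * k' * m - (k' * j - n * k * j') : ℤ) • P
        = (n * k * k' * m : ℤ) • P - (k' : ℤ) • (j • P) + (n * k : ℤ) • (j' • P) := by module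
      _ = _ := by rw [e1, e2]; module
  have e : pm (Rat.castHom ℚ_[r.1]) ((((n * k * k' : ℕ) : ℤ) * m - (k' * j - n * k * j')) • P) =
      ((n * k * k' : ℕ) : ℤ) • (pm (Rat.castHom ℚ_[r.1]) (R + m • P) - a) := by
    rw [e0, map_sub, map_zsmul, map_zsmul, ← ha, ← natCast_zsmul a n]
    push_cast
    module
  rw [e]
  exact (hMUL A B ℚ_[r.1] ℝ≥0 _).2.1 c _ _ hm

lemma res (l : Ultrafilter ℤ) (n : ℤ) (hn : n ≠ 0) : ∃ m₀ : ℤ, ∀ᶠ m in l, n ∣ m - m₀ := by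
  have : NeZero n.natAbs := ⟨Int.natAbs_ne_zero.2 hn⟩
  obtain ⟨x, hx⟩ := (l.map fun m : ℤ => (m : ZMod n.natAbs)).eq_pure_of_finite
  obtain ⟨m₀, rfl⟩ := ZMod.intCast_surjective x
  refine ⟨m₀, ?_⟩
  have h : ({((m₀ : ℤ) : ZMod n.natAbs)} : Set (ZMod n.natAbs)) ∈
      l.map fun m : ℤ => (m : ZMod n.natAbs) := by
    rw [hx]; simp
  filter_upwards [Ultrafilter.mem_map.1 h] with m hm
  have h' : ((m - m₀ : ℤ) : ZMod n.natAbs) = 0 := by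
    push_cast
    exact sub_eq_zero.2 hm
  exact Int.natAbs_dvd.1 ((ZMod.intCast_zmod_eq_zero_iff_dvd _ _).1 h')

end TOPx

theorem p_TOP (hMUL : S_MUL) (hCO : S_CO) (hTS : S_TS) (hLNK : S_LNK) (hFI : S_FI) (hDIV : S_DIV) (hULT : S_ULT) (hKEYB : S_KEYB) :
    S_TOP := by
  intro A B Γ F S a p q n Q hD hΓ hS hcl hsq hpq hn hQ hp hq
  obtain ⟨P, hP, R, hR, l, hNeg, hk, hlim⟩ := hULT A B Γ F S a hΓ hcl
  have key : ∃ m₀ : ℤ, ∀ N : ℕ, 0 < N → ∀ᶠ m in l, ∃ k : ℤ, (m - m₀) • 2 • P = k • N • 2 • P := by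
    by_cases hNT : NT P
    · have hNT2 : NT (2 • P) := fun i hi => by
        have h := hNT (i * 2) (by rw [mul_smul, ← hi, ← natCast_zsmul]; rfl)
        omega
      obtain ⟨k, j, hk0, hkj⟩ := hk Q hQ
      obtain ⟨k', j', hk0', hkj'⟩ := hk R hR
      have hC : Ctx F S a (2 • P) R l (k' * j - n * k * j') ((n * k * k' : ℕ) : ℤ) p.1.1 q.1.1 :=
        { hD := hD
          hS := hS
          sq := hsq
          lim := hlim
          hp := p.1.2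
          hq := q.1.2
          ne := fun h => hpq (Subtype.ext (Subtype.ext h))
          dp := TOPx.dv hMUL hCO hTS hLNK hDIV hD p.1 (a p) _ R Q l hNT2 n k k' j j' hkj hkj' hp
            (hlim p)
          dq := TOPx.dv hMUL hCO hTS hLNK hDIV hD q.1 (a q) _ R Q l hNT2 n k k' j j' hkj hkj' hq
            (hlim q) }
      obtain ⟨m₀, hm⟩ := hKEYB A B F S a P R l _ (n * k * k') p.1.1 q.1.1 hC hNT hNeg
        (by positivity)
      refine ⟨m₀, fun N hN => (hm N hN).mono fun m ⟨i, hi⟩ => ⟨i, ?_⟩⟩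
      rw [hi, ← natCast_zsmul (2 • P) N, mul_comm, mul_smul]
    · obtain ⟨i, hi, hi0⟩ : ∃ i : ℤ, i • P = 0 ∧ i ≠ 0 := by
        by_contra h
        exact hNT fun i hi => by_contra fun h0 => h ⟨i, hi, h0⟩
      obtain ⟨m₀, hm⟩ := TOPx.res l i hi0
      refine ⟨m₀, fun N _ => hm.mono fun m ⟨k, hk⟩ => ⟨0, ?_⟩⟩
      rw [hk, zero_smul, smul_comm, mul_comm, mul_smul, hi, smul_zero, smul_zero]
  obtain ⟨m₀, hm⟩ := key
  exact ⟨R + m₀ • 2 • P, Γ.add_mem hR (Γ.zsmul_mem (Γ.nsmul_mem hP 2) m₀), fun r =>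
    TOPx.fin hMUL hCO hTS hLNK hFI hD r.1 (a r) (2 • P) R l m₀ (hlim r) hm⟩

end Pool.Agent.P.MP_ab3ecb_nt.TP
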