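import Pool.Agent.P.MP_ab3ecb_nt.TP.Iface

/-! Step TS. -/

set_option autoImplicit false
set_option linter.unusedSectionVars false

namespace Pool.Agent.P.MP_ab3ecb_nt.TP

open Filter Topology
open scoped Classical NNReal

theorem p_TS :
    S_TS := by
  intro A B L ι _ _ l P
  have hv : ∀ x : L, ((NormedField.valuation (K := L) x : ℝ≥0) : ℝ) = ‖x‖ := fun x => rfl
  constructor
  · intro h c hc
    refine (h (max 2 ((c : ℝ)⁻¹ ^ 2))).mono fun i hi => ?_
    rcases hi with hi | hi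
    · rw [hi]; exact sm_zero c
    have h1 : 1 < NormedField.valuation (K := L) (X (P i)) := by
      rw [← NNReal.coe_lt_coe, hv]
      exact lt_of_lt_of_le (by norm_num) ((le_max_left _ _).trans hi)
    refine ⟨.inr h1, ?_⟩
    have h2 := congrArg (fun x : ℝ≥0 => (x : ℝ)) (v_Z h1)
    simp only [NNReal.coe_mul, NNReal.coe_pow, hv, NNReal.coe_one] at h2
    rw [← NNReal.coe_le_coe, hv]
    have h3 := (le_max_right _ _).trans hi
    have hc' : (0 : ℝ) < c := hc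
    by_contra h4
    push Not at h4
    have h5 : 1 < ‖Z (P i)‖ * (c : ℝ)⁻¹ := by
      rw [← div_eq_mul_inv, one_lt_div hc']; exact h4
    have h6 : ‖Z (P i)‖ ^ 2 * (c : ℝ)⁻¹ ^ 2 ≤ 1 := by
      rw [← h2]; exact mul_le_mul_of_nonneg_left h3 (sq_nonneg _)
    rw [← mul_pow] at h6
    nlinarith
  · intro h r
    have hp : (0 : ℝ) < |r| + 1 := by positivity
    obtain ⟨c, hc⟩ : ∃ c : ℝ≥0, (c : ℝ) = (|r| + 1)⁻¹ := ⟨.mk _ (by positivity), rfl⟩
    refine (h c (by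
      rw [← NNReal.coe_lt_coe, hc]; exact inv_pos.2 hp)).mono fun i hi => ?_
    rcases hi with ⟨h0 | h1, h2⟩
    · exact .inl h0
    right
    have h3 := congrArg (fun x : ℝ≥0 => (x : ℝ)) (v_Z h1)
    simp only [NNReal.coe_mul, NNReal.coe_pow, hv, NNReal.coe_one] at h3
    rw [← NNReal.coe_le_coe, hv, hc, ← one_div, le_div_iff₀ hp] at h2
    have h4 : ‖Z (P i)‖ * (|r| + 1) ≤ 1 := h2
    have h5 : (‖Z (P i)‖ * (|r| + 1)) ^ 2 ≤ 1 := pow_le_one₀ (by positivity) h4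
    have h6 : (|r| + 1) ^ 2 ≤ ‖X (P i)‖ := by
      have h7 := mul_le_mul_of_nonneg_right h5 (norm_nonneg (X (P i)))
      calc (|r| + 1) ^ 2 = (|r| + 1) ^ 2 * (‖Z (P i)‖ ^ 2 * ‖X (P i)‖) := by rw [h3, mul_one]
        _ = (‖Z (P i)‖ * (|r| + 1)) ^ 2 * ‖X (P i)‖ := by ring
        _ ≤ ‖X (P i)‖ := by rwa [one_mul] at h7
    nlinarith [le_abs_self r, abs_nonneg r]

end Pool.Agent.P.MP_ab3ecb_nt.TP
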