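import Pool.Agent.P.MP_ab3ecb_nt.TP.Iface

/-! Step WPA. -/

set_option autoImplicit false
set_option linter.unusedSectionVars false

namespace Pool.Agent.P.MP_ab3ecb_nt.TP

open Filter Topology
open scoped Classical NNReal

namespace WPAx

theorem gpos (A B : ℤ) : ∃ a : ℝ, ∀ x, a ≤ x → 0 < x ^ 3 + A * x + B := by
  refine ⟨|(A : ℝ)| + |(B : ℝ)| + 1, fun x hx => ?_⟩
  have h1 := abs_nonneg (A : ℝ)
  have h2 := abs_nonneg (B : ℝ)
  have h3 := neg_abs_le (A : ℝ)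
  have h4 := neg_abs_le (B : ℝ)
  have h5 : 1 ≤ x := by linarith
  have h6 : x * x ≤ x ^ 3 := by nlinarith [mul_nonneg (mul_self_nonneg x) (sub_nonneg.2 h5)]
  have h7 : (|(A : ℝ)| + |(B : ℝ)| + 1) * x ≤ x * x := by nlinarith
  nlinarith

theorem exL (g : ℝ → ℝ) (hg : Continuous g) (a x0 : ℝ) (ha : ∀ x, a ≤ x → 0 < g x) :
    ∃ L : ℝ → ℝ, L x0 = 0 ∧ StrictMono L ∧ Continuous L ∧
      ∀ x, a ≤ x → HasDerivAt L (√(g x))⁻¹ x := by
  have hp : ∀ t, 0 < √(g (max t a)) := fun t => Real.sqrt_pos.2 (ha _ (le_max_right _ _))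
  have hc : Continuous fun t => (√(g (max t a)))⁻¹ :=
    Continuous.inv₀ (by fun_prop) fun t => (hp t).ne'
  have hd : ∀ x, HasDerivAt (fun x => ∫ t in x0..x, (√(g (max t a)))⁻¹) (√(g (max x a)))⁻¹ x :=
    fun x => (hc.integral_hasStrictDerivAt x0 x).hasDerivAt
  refine ⟨fun x => ∫ t in x0..x, (√(g (max t a)))⁻¹, by simp, ?_, ?_, fun x hx => ?_⟩
  · refine strictMono_of_deriv_pos fun x => ?_
    rw [(hd x).deriv]
    exact inv_pos.2 (hp x)
  · exact continuous_iff_continuousAt.2 fun x => (hd x).continuousAt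
  · have := hd x
    rwa [max_eq_left hx] at this

theorem exInv (L : ℝ → ℝ) (x0 : ℝ) (h0 : L x0 = 0) (hm : StrictMono L) (hc : Continuous L) :
    ∃ ξ : ℝ → ℝ, ∀ η, 0 < η → ∃ ρ, 0 < ρ ∧ ∀ t, |t| < ρ → |ξ t - x0| < η ∧ L (ξ t) = t := by
  refine ⟨fun t => if h : ∃ x, L x = t then h.choose else x0, fun η hη => ?_⟩
  have h1 : 0 < L (x0 + η) := h0 ▸ hm (by linarith)
  have h2 : L (x0 - η) < 0 := h0 ▸ hm (by linarith)
  refine ⟨min (L (x0 + η)) (-L (x0 - η)), lt_min h1 (by linarith), fun t ht => ?_⟩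
  have h3 := abs_lt.1 (ht.trans_le (min_le_left _ _))
  have h4 := abs_lt.1 (ht.trans_le (min_le_right _ _))
  obtain ⟨x, hx, hx'⟩ := intermediate_value_Ioo (show x0 - η ≤ x0 + η by linarith)
    hc.continuousOn (show t ∈ Set.Ioo (L (x0 - η)) (L (x0 + η)) from ⟨by linarith [h4.1], h3.2⟩)
  have h5 : ∃ x, L x = t := ⟨x, hx'⟩
  have h6 : h5.choose = x := hm.injective (h5.choose_spec.trans hx'.symm)
  simp only [dif_pos h5, h6]
  exact ⟨abs_lt.2 ⟨by linarith [hx.1], by linarith [hx.2]⟩, hx'⟩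

end WPAx

theorem p_WPA (hLA : S_LA) (hLB : S_LB) (hDER : S_DER) :
    S_WPA := by
  intro A B hD
  obtain ⟨a, ha⟩ := WPAx.gpos A B
  obtain ⟨x0, hx0⟩ : ∃ x0, a < x0 := ⟨a + 1, by linarith⟩
  have hg : Continuous fun x : ℝ => x ^ 3 + A * x + B := by fun_prop
  obtain ⟨L, L0, Lm, Lc, Ld⟩ := WPAx.exL _ hg a x0 ha
  obtain ⟨ξ, hξ⟩ := WPAx.exInv L x0 L0 Lm Lc
  have hc : ∀ t : ℝ, ∃ P : Pt A B ℝ, a < t → P ≠ 0 ∧ X P = t ∧ Y P = √(t ^ 3 + A * t + B) := by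
    intro t
    by_cases h : a < t
    · obtain ⟨P, hP⟩ := exists_pt (L := ℝ) hD (Real.sq_sqrt (ha t h.le).le)
      exact ⟨P, fun _ => hP⟩
    · exact ⟨0, fun h' => absurd h' h⟩
  choose c hc using hc
  have hY : ∀ P : Pt A B ℝ, P ≠ 0 → 0 < Y P → √(X P ^ 3 + A * X P + B) = Y P := by
    intro P hP h
    rw [← eqn hP, Real.sqrt_sq h.le]
  have hU : ∀ P : Pt A B ℝ, P ≠ 0 → a < X P → 0 < Y P → c (X P) = P := by
    intro P hP h h'
    obtain ⟨h1, h2, h3⟩ := hc _ h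
    exact pt_ext h1 hP h2 (h3.trans (hY P hP h'))
  have hcY : ∀ t, a < t → 0 < Y (c t) := fun t h => by
    rw [(hc t h).2.2]; exact Real.sqrt_pos.2 (ha t h.le)
  have hA : ∀ (ι : Type) (l : Filter ι) (f : ι → ℝ), Tendsto f l (𝓝 x0) →
      ToA l (fun i => c (f i)) (c x0) := by
    intro ι l f hf
    have he : ∀ᶠ i in l, a < f i := hf.eventually (lt_mem_nhds hx0)
    refine ⟨(hc x0 hx0).1, he.mono fun i hi => (hc _ hi).1, ?_, ?_⟩
    · rw [(hc x0 hx0).2.1]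
      exact hf.congr' (he.mono fun i hi => (hc _ hi).2.1.symm)
    · rw [(hc x0 hx0).2.2]
      exact ((hg.sqrt.tendsto x0).comp hf).congr' (he.mono fun i hi => (hc _ hi).2.2.symm)
  set F0 : Filter (Pt A B ℝ) := comap (fun Q => ‖X Q‖) atTop with hF0
  have hF : ∀ p : Pt A B ℝ → Prop, (∀ᶠ Q in F0, p Q) → ∃ r : ℝ, ∀ Q, r ≤ ‖X Q‖ → p Q := by
    intro p hp
    obtain ⟨r, hr⟩ := eventually_atTop.1 (eventually_comap.1 hp)
    exact ⟨r, fun Q hQ => hr _ hQ Q rfl⟩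
  have hO : ToO F0 fun Q => Q := fun r =>
    (tendsto_comap.eventually (eventually_ge_atTop r)).mono fun Q hQ => Or.inr hQ
  have hO' : ToO (F0 ⊔ pure 0) fun Q => Q := fun r =>
    eventually_sup.2 ⟨hO r, eventually_pure.2 (Or.inl rfl)⟩
  have h1 := hLB A B ℝ (ℝ × Pt A B ℝ) (𝓝 x0 ×ˢ (F0 ⊔ pure 0)) (fun i => c i.1) (fun i => i.2) (c x0)
    (hA _ _ _ tendsto_fst) (hO'.comp tendsto_snd)
  have h2 : ∀ᶠ i in 𝓝 x0 ×ˢ (F0 ⊔ pure 0),
      c i.1 + i.2 ≠ 0 ∧ a < X (c i.1 + i.2) ∧ 0 < Y (c i.1 + i.2) :=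
    h1.2.1.and ((h1.2.2.1.eventually (lt_mem_nhds (by rw [(hc x0 hx0).2.1]; exact hx0))).and
      (h1.2.2.2.eventually (lt_mem_nhds (hcY x0 hx0))))
  obtain ⟨pa, hpa, pb, hpb, hab⟩ := eventually_prod_iff.1 h2
  obtain ⟨r0, hr0⟩ := hF pb (eventually_sup.1 hpb).1
  have hpb0 : pb 0 := eventually_pure.1 (eventually_sup.1 hpb).2
  have hpa' : ∀ᶠ t in 𝓝 x0, pa t ∧ a < t ∧ ‖t‖ < ‖x0‖ + 1 :=
    hpa.and ((lt_mem_nhds hx0).and
      ((continuous_norm.tendsto x0).eventually (gt_mem_nhds (by linarith))))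
  obtain ⟨η, hη, hball⟩ := Metric.eventually_nhds_iff.1 hpa'
  simp only [Real.dist_eq] at hball
  set r := max r0 (‖x0‖ + 1) with hr
  have good : ∀ Q : Pt A B ℝ, (Q = 0 ∨ r ≤ ‖X Q‖) → ∀ t, |t - x0| < η →
      (c t + Q ≠ 0 ∧ a < X (c t + Q) ∧ 0 < Y (c t + Q)) ∧ (Q ≠ 0 → X Q ≠ t) := by
    intro Q hQ t ht
    obtain ⟨t1, t2, t3⟩ := hball ht
    refine ⟨hab t1 (y := Q) ?_, fun hQ0 he => ?_⟩
    · rcases hQ with rfl | hQ
      · exact hpb0
      · exact hr0 Q ((le_max_left _ _).trans hQ)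
    · have := (le_max_right _ _).trans (hQ.resolve_left hQ0)
      rw [he] at this
      linarith
  have hx00 : |x0 - x0| < η := by simpa using hη
  have key : ∀ Q : Pt A B ℝ, (Q = 0 ∨ r ≤ ‖X Q‖) → ∀ t, |t - x0| < η →
      L (X (c t + Q)) = L t + L (X (c x0 + Q)) := by
    intro Q hQ t ht
    have hd : ∀ s ∈ Metric.ball x0 η, HasDerivAt (fun s => L (X (c s + Q)) - L s) 0 s := by
      intro s hs
      have hs' : |s - x0| < η := by simpa [Real.dist_eq] using hs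
      obtain ⟨⟨g1, g2, g3⟩, g4⟩ := good Q hQ s hs'
      have hs2 := (hball hs').2.1
      have d1 := hDER A B c Q s (hcY s hs2) ?_ g4
      · have d2 := (Ld _ g2.le).comp s d1
        have d3 := d2.sub (Ld s hs2.le)
        rw [hY _ g1 g3, ← (hc s hs2).2.2] at d3
        have e : (Y (c s + Q))⁻¹ * (Y (c s + Q) / Y (c s)) - (Y (c s))⁻¹ = 0 := by
          have := (hcY s hs2).ne'
          have := g3.ne'
          field_simp
          ring
        rw [e] at d3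
        exact d3
      · filter_upwards [Metric.isOpen_ball.mem_nhds hs] with u hu
        have hu' : |u - x0| < η := by simpa [Real.dist_eq] using hu
        have hu2 := (hball hu').2.1
        exact ⟨(hc u hu2).1, (good Q hQ u hu').1.1, (hc u hu2).2⟩
    have := Metric.isOpen_ball.is_const_of_deriv_eq_zero (convex_ball x0 η).isPreconnected
      (fun s hs => (hd s hs).differentiableAt.differentiableWithinAt)
      (fun s hs => (hd s hs).deriv) (x := t) (y := x0) (by simpa [Real.dist_eq] using ht)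
      (Metric.mem_ball_self hη)
    rw [L0] at this
    linarith
  have hξ0 : Tendsto ξ (𝓝 0) (𝓝 x0) := by
    refine Metric.tendsto_nhds_nhds.2 fun ε hε => ?_
    obtain ⟨ρ, hρ, h⟩ := hξ ε hε
    exact ⟨ρ, hρ, fun t ht => by simpa [Real.dist_eq] using (h t (by simpa using ht)).1⟩
  have he := hLA A B ℝ ℝ (𝓝 0) (fun t => c (ξ t)) (c x0) (hA _ _ _ hξ0)
  obtain ⟨ρ, hρ, hρ1⟩ := hξ η hη
  obtain ⟨ρ', hρ', hρ2⟩ := Metric.eventually_nhds_iff.1 (he r)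
  simp only [Real.dist_eq, sub_zero] at hρ2
  have hδ : 0 < min ρ ρ' / 2 := half_pos (lt_min hρ hρ')
  have m1 := min_le_left ρ ρ'
  have m2 := min_le_right ρ ρ'
  have h3 := hLB A B ℝ (Pt A B ℝ) F0 (fun _ => c x0) (fun Q => Q) (c x0)
    (toA_const _ (hc x0 hx0).1) hO
  have h4 : ∀ᶠ Q in F0, |L (X (c x0 + Q))| < min ρ ρ' / 2 := by
    have := ((Lc.tendsto _).comp h3.2.2.1).abs
    rw [(hc x0 hx0).2.1, L0, abs_zero] at this
    exact this.eventually (gt_mem_nhds hδ)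
  obtain ⟨r2, hr2⟩ := hF _ h4
  refine ⟨min ρ ρ' / 2, max r r2, fun t => c (ξ t) - c x0, hδ, fun s t hs ht => ?_,
    fun t ht h => ?_, he, fun Q hQ _ => ?_⟩
  · obtain ⟨s1, s2⟩ := hρ1 s (by linarith)
    obtain ⟨t1, t2⟩ := hρ1 t (by linarith)
    obtain ⟨-, u2⟩ := hρ1 (s + t) (by linarith [abs_add_le s t])
    have gq := hρ2 (show |t| < ρ' by linarith)
    have k := key _ gq _ s1
    obtain ⟨⟨g1, g2, g3⟩, -⟩ := good _ gq _ s1
    rw [add_sub_cancel, (hc _ (hball t1).2.1).2.1, s2, t2, ← u2] at k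
    have k2 := hU _ g1 g2 g3
    rw [Lm.injective k] at k2
    simp only [k2]
    abel
  · obtain ⟨t1, t2⟩ := hρ1 t (by linarith)
    have k := congrArg X (sub_eq_zero.1 h)
    rw [(hc _ (hball t1).2.1).2.1, (hc x0 hx0).2.1] at k
    rw [← t2, k, L0]
  · have q1 := hr2 Q ((le_max_right _ _).trans hQ)
    obtain ⟨⟨g1, g2, g3⟩, -⟩ := good Q (Or.inr ((le_max_left _ _).trans hQ)) x0 hx00
    refine ⟨_, q1, ?_⟩
    obtain ⟨-, t2⟩ := hρ1 _ (show |L (X (c x0 + Q))| < ρ by linarith)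
    simp only [Lm.injective t2, hU _ g1 g2 g3]
    abel

end Pool.Agent.P.MP_ab3ecb_nt.TP
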