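import Pool.Agent.P.MP_ab3ecb_nt.TP.Iface

/-! Step WPB. -/

set_option autoImplicit false
set_option linter.unusedSectionVars false

namespace Pool.Agent.P.MP_ab3ecb_nt.TP

open Filter Topology
open scoped Classical NNReal

theorem p_WPB :
    S_WPB := by
  intro G _ δ e hδ he
  have h0 : e 0 = 0 := by
    have := he 0 0 (by simpa using hδ) (by simpa using hδ)
    rw [add_zero] at this
    simpa using this
  have hk : ∀ (k : ℕ) (t : ℝ), |k * t| < δ → e (k * t) = k • e t := by
    intro k t
    induction k with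
    | zero => intro _; simp [h0]
    | succ k ih =>
      intro h
      rw [abs_mul, Nat.abs_cast, Nat.cast_succ, add_one_mul] at h
      have h1 := abs_nonneg t
      have h2 := mul_nonneg (Nat.cast_nonneg (α := ℝ) k) h1
      have h3 : |k * t| < δ := by rw [abs_mul, Nat.abs_cast]; linarith
      rw [Nat.cast_succ, add_one_mul, he _ _ h3 (by linarith), ih h3, succ_nsmul]
  have hpos : ∀ (n : ℕ) (t : ℝ), |t| < n * δ → (0 : ℝ) < n ∧ |t / n| < δ := fun n t h => by
    have h1 : (0 : ℝ) < n := pos_of_mul_pos_left ((abs_nonneg t).trans_lt h) hδ.le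
    exact ⟨h1, by rwa [abs_div, Nat.abs_cast, div_lt_iff₀ h1, mul_comm]⟩
  have hm : ∀ (n m : ℕ) (t : ℝ), |t| < n * δ → (0 : ℝ) < m →
      (n * m) • e (t / (n * m)) = n • e (t / n) := fun n m t h1 h2 => by
    obtain ⟨h3, h4⟩ := hpos n t h1
    have : t / n = m * (t / (n * m)) := by field_simp
    rw [this, hk m _ (this ▸ h4), smul_smul]
  have hi : ∀ (n m : ℕ) (t : ℝ), |t| < n * δ → |t| < m * δ → n • e (t / n) = m • e (t / m) :=
    fun n m t h1 h2 => by
      rw [← hm n m t h1 (hpos m t h2).1, ← hm m n t h2 (hpos n t h1).1, mul_comm n m,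
        mul_comm (n : ℝ) m]
  have hN : ∀ t : ℝ, ∃ n : ℕ, |t| < n * δ := fun t =>
    (exists_nat_gt (|t| / δ)).imp fun n h => (div_lt_iff₀ hδ).1 h
  choose N hN using hN
  refine ⟨AddMonoidHom.mk' (fun t => N t • e (t / N t)) fun s t => ?_, fun t ht => ?_⟩
  · have h := (le_abs_self _).trans_lt (hN (|s| + |t|))
    generalize N (|s| + |t|) = n at h
    have hs : |s| < n * δ := by linarith [abs_nonneg t]
    have ht : |t| < n * δ := by linarith [abs_nonneg s]
    rw [hi _ n _ (hN _) ((abs_add_le s t).trans_lt h), hi _ n s (hN s) hs, hi _ n t (hN t) ht,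
      add_div, he _ _ (hpos n s hs).2 (hpos n t ht).2, smul_add]
  · have := hi _ 1 t (hN t) (by simpa using ht)
    simpa using this

end Pool.Agent.P.MP_ab3ecb_nt.TP
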