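import Pool.Agent.P.MP_ab3ecb_nt.TP.TNLAC
import Pool.Agent.P.MP_ab3ecb_nt.TP.TFURA
import Pool.Agent.P.MP_ab3ecb_nt.TP.TFURB
import Pool.Agent.P.MP_ab3ecb_nt.TP.TFURC
import Pool.Agent.P.MP_ab3ecb_nt.TP.TFUR
import Pool.Agent.P.MP_ab3ecb_nt.TP.TAR
import Pool.Agent.P.MP_ab3ecb_nt.TP.TFG
import Pool.Agent.P.MP_ab3ecb_nt.TP.TMUL
import Pool.Agent.P.MP_ab3ecb_nt.TP.TCL
import Pool.Agent.P.MP_ab3ecb_nt.TP.TFAR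
import Pool.Agent.P.MP_ab3ecb_nt.TP.TFARE
import Pool.Agent.P.MP_ab3ecb_nt.TP.TEVC
import Pool.Agent.P.MP_ab3ecb_nt.TP.TLA
import Pool.Agent.P.MP_ab3ecb_nt.TP.TLB
import Pool.Agent.P.MP_ab3ecb_nt.TP.TCO
import Pool.Agent.P.MP_ab3ecb_nt.TP.TTS
import Pool.Agent.P.MP_ab3ecb_nt.TP.TDER
import Pool.Agent.P.MP_ab3ecb_nt.TP.TWPA
import Pool.Agent.P.MP_ab3ecb_nt.TP.TWPB
import Pool.Agent.P.MP_ab3ecb_nt.TP.TWPC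
import Pool.Agent.P.MP_ab3ecb_nt.TP.TWP
import Pool.Agent.P.MP_ab3ecb_nt.TP.TRS
import Pool.Agent.P.MP_ab3ecb_nt.TP.TKA
import Pool.Agent.P.MP_ab3ecb_nt.TP.TULT
import Pool.Agent.P.MP_ab3ecb_nt.TP.TQRA
import Pool.Agent.P.MP_ab3ecb_nt.TP.TQRB
import Pool.Agent.P.MP_ab3ecb_nt.TP.TQRC
import Pool.Agent.P.MP_ab3ecb_nt.TP.TQRD
import Pool.Agent.P.MP_ab3ecb_nt.TP.TQR
import Pool.Agent.P.MP_ab3ecb_nt.TP.TLNK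
import Pool.Agent.P.MP_ab3ecb_nt.TP.TFI
import Pool.Agent.P.MP_ab3ecb_nt.TP.TDIV
import Pool.Agent.P.MP_ab3ecb_nt.TP.TSIG
import Pool.Agent.P.MP_ab3ecb_nt.TP.TGOOD
import Pool.Agent.P.MP_ab3ecb_nt.TP.TSQ
import Pool.Agent.P.MP_ab3ecb_nt.TP.TKF
import Pool.Agent.P.MP_ab3ecb_nt.TP.TALG
import Pool.Agent.P.MP_ab3ecb_nt.TP.TKRA
import Pool.Agent.P.MP_ab3ecb_nt.TP.TKRB
import Pool.Agent.P.MP_ab3ecb_nt.TP.TKR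
import Pool.Agent.P.MP_ab3ecb_nt.TP.TKEY
import Pool.Agent.P.MP_ab3ecb_nt.TP.TKEYB
import Pool.Agent.P.MP_ab3ecb_nt.TP.TTOP

/-! Assembly of the steps. -/

namespace Pool.Agent.P.MP_ab3ecb_nt.TP

theorem a_NLAC : S_NLAC := p_NLAC
theorem a_FURA : S_FURA := p_FURA TP.a_NLAC
theorem a_FURB : S_FURB := p_FURB TP.a_FURA
theorem a_FURC : S_FURC := p_FURC TP.a_FURA TP.a_FURB
theorem a_FUR : S_FUR := p_FUR TP.a_FURC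
theorem a_AR : S_AR := p_AR
theorem a_FG : S_FG := p_FG
theorem a_MUL : S_MUL := p_MUL TP.a_FG
theorem a_CL : S_CL := p_CL
theorem a_FAR : S_FAR := p_FAR
theorem a_FARE : S_FARE := p_FARE TP.a_FAR
theorem a_EVC : S_EVC := p_EVC
theorem a_LA : S_LA := p_LA
theorem a_LB : S_LB := p_LB
theorem a_CO : S_CO := p_CO TP.a_LA TP.a_LB
theorem a_TS : S_TS := p_TS
theorem a_DER : S_DER := p_DER
theorem a_WPA : S_WPA := p_WPA TP.a_LA TP.a_LB TP.a_DER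
theorem a_WPB : S_WPB := p_WPB
theorem a_WPC : S_WPC := p_WPC TP.a_LA
theorem a_WP : S_WP := p_WP TP.a_WPA TP.a_WPB TP.a_WPC
theorem a_RS : S_RS := p_RS TP.a_LB
theorem a_KA : S_KA := p_KA TP.a_LB TP.a_EVC
theorem a_ULT : S_ULT := p_ULT
theorem a_QRA : S_QRA := p_QRA
theorem a_QRB : S_QRB := p_QRB
theorem a_QRC : S_QRC := p_QRC
theorem a_QRD : S_QRD := p_QRD
theorem a_QR : S_QR := p_QR TP.a_QRA TP.a_QRB TP.a_QRC TP.a_QRD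
theorem a_LNK : S_LNK := p_LNK
theorem a_FI : S_FI := p_FI TP.a_MUL TP.a_FARE
theorem a_DIV : S_DIV := p_DIV TP.a_MUL TP.a_FI
theorem a_SIG : S_SIG := p_SIG TP.a_AR TP.a_MUL TP.a_CL TP.a_FARE TP.a_FI
theorem a_GOOD : S_GOOD := p_GOOD TP.a_MUL TP.a_FAR
theorem a_SQ : S_SQ := p_SQ TP.a_CL TP.a_EVC TP.a_CO TP.a_LNK
theorem a_KF : S_KF := p_KF TP.a_MUL TP.a_SIG TP.a_GOOD TP.a_SQ
theorem a_ALG : S_ALG := p_ALG TP.a_MUL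
theorem a_KRA : S_KRA := p_KRA TP.a_RS TP.a_ALG
theorem a_KRB : S_KRB := p_KRB TP.a_LB TP.a_RS
theorem a_KR : S_KR := p_KR TP.a_FUR TP.a_AR TP.a_KRA TP.a_KRB TP.a_ALG
theorem a_KEY : S_KEY := p_KEY TP.a_WP TP.a_KA TP.a_KF TP.a_KR TP.a_QR TP.a_ALG
theorem a_KEYB : S_KEYB := p_KEYB TP.a_KEY
theorem a_TOP : S_TOP := p_TOP TP.a_MUL TP.a_CO TP.a_TS TP.a_LNK TP.a_FI TP.a_DIV TP.a_ULT TP.a_KEYB

end Pool.Agent.P.MP_ab3ecb_nt.TP
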