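import Pool.Agent.P.MP_ab3ecb_nt.TP.Defs

/-! Coordinates of points, the addition formula, and the definitions used in the steps. -/

set_option linter.unusedSectionVars false

namespace Pool.Agent.P.MP_ab3ecb_nt.TP

open WeierstrassCurve WeierstrassCurve.Affine Filter Topology

variable {A B : ℤ} {K L : Type} [Field K] [Field L]

/-- The first coordinate, zero at infinity. -/
def X : Pt A B L → L
  | .zero => 0
  | .some x _ _ => x

/-- The second coordinate, zero at infinity. -/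
def Y : Pt A B L → L
  | .zero => 0
  | .some _ y _ => y

/-- The parameter at infinity. -/
def Z (P : Pt A B L) : L := X P / Y P

/-- The value of a polynomial at a point. -/
noncomputable def ev (F : MvPolynomial (Fin 2) ℤ) (P : Pt A B L) : L :=
  MvPolynomial.aeval ![X P, Y P] F

@[simp] lemma X_zero : X (0 : Pt A B L) = 0 := rfl
@[simp] lemma Y_zero : Y (0 : Pt A B L) = 0 := rfl
@[simp] lemma Z_zero : Z (0 : Pt A B L) = 0 := by simp [Z]
@[simp] lemma X_some {x y : L} (h) : X (.some x y h : Pt A B L) = x := rfl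
@[simp] lemma Y_some {x y : L} (h) : Y (.some x y h : Pt A B L) = y := rfl

lemma ns_iff (x y : L) : ((⟨0, 0, 0, A, B⟩ : WeierstrassCurve ℤ)⁄L).toAffine.Nonsingular x y ↔
    y ^ 2 = x ^ 3 + A * x + B ∧ (3 * x ^ 2 + A ≠ 0 ∨ 2 * y ≠ 0) := by
  rw [nonsingular_iff', equation_iff]
  simp only [toAffine, WeierstrassCurve.baseChange, map_a₁, map_a₂, map_a₃, map_a₄, map_a₆, map_zero, eq_intCast,
    zero_mul, add_zero, mul_zero, zero_sub, neg_ne_zero]

lemma negY_eq (x y : L) :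
    ((⟨0, 0, 0, A, B⟩ : WeierstrassCurve ℤ)⁄L).toAffine.negY x y = -y := by
  simp [negY, toAffine, WeierstrassCurve.baseChange]

lemma eq_some {P : Pt A B L} (h : P ≠ 0) : ∃ h', P = .some (X P) (Y P) h' := by
  rcases P with _ | ⟨x, y, h'⟩
  · exact absurd rfl h
  · exact ⟨h', rfl⟩

/-- The equation of the curve. -/
lemma eqn {P : Pt A B L} (h : P ≠ 0) : Y P ^ 2 = X P ^ 3 + A * X P + B :=
  let ⟨h', _⟩ := eq_some h
  ((ns_iff _ _).1 h').1

lemma nsing {P : Pt A B L} (h : P ≠ 0) : 3 * X P ^ 2 + A ≠ 0 ∨ 2 * Y P ≠ 0 :=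
  let ⟨h', _⟩ := eq_some h
  ((ns_iff _ _).1 h').2

/-- The discriminant as a combination of the two cubic and quadratic polynomials. -/
lemma disc_eq {P : Pt A B L} (h : P ≠ 0) : ((4 * A ^ 3 + 27 * B ^ 2 : ℤ) : L) =
    (27 * B - 18 * A * X P) * Y P ^ 2 +
      (6 * A * X P ^ 2 - 9 * B * X P + 4 * A ^ 2) * (3 * X P ^ 2 + A) := by
  rw [eqn h]; push_cast; ring

lemma exists_pt [CharZero L] (hD : 4 * A ^ 3 + 27 * B ^ 2 ≠ 0) {x y : L}
    (h : y ^ 2 = x ^ 3 + A * x + B) : ∃ P : Pt A B L, P ≠ 0 ∧ X P = x ∧ Y P = y := by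
  refine ⟨.some x y ((ns_iff _ _).2 ⟨h, by_contra fun h1 => hD ?_⟩), Point.some_ne_zero _, rfl, rfl⟩
  push Not at h1
  have h2 : y = 0 := by simpa using h1.2
  have h3 : ((4 * A ^ 3 + 27 * B ^ 2 : ℤ) : L) = 0 := by
    push_cast
    rw [h2] at h
    linear_combination (6 * A * x ^ 2 - 9 * B * x + 4 * A ^ 2) * h1.1 - (27 * B - 18 * A * x) * h
  exact_mod_cast h3

lemma pt_ext {P Q : Pt A B L} (hP : P ≠ 0) (hQ : Q ≠ 0) (hx : X P = X Q) (hy : Y P = Y Q) :
    P = Q := by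
  rcases P with _ | ⟨x, y, h⟩
  · exact absurd rfl hP
  rcases Q with _ | ⟨x', y', h'⟩
  · exact absurd rfl hQ
  obtain rfl : x = x' := hx
  obtain rfl : y = y' := hy
  rfl

@[simp] lemma X_neg (P : Pt A B L) : X (-P) = X P := by
  rcases P with _ | ⟨x, y, h⟩ <;> rfl

@[simp] lemma Y_neg (P : Pt A B L) : Y (-P) = -Y P := by
  rcases P with _ | ⟨x, y, h⟩
  · exact neg_zero.symm
  · exact negY_eq x y

@[simp] lemma Z_neg (P : Pt A B L) : Z (-P) = -Z P := by simp [Z, div_neg]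

variable [DecidableEq K] [DecidableEq L]

lemma eq_or_neg {P Q : Pt A B L} (hP : P ≠ 0) (hQ : Q ≠ 0) (hx : X P = X Q) : P = Q ∨ P = -Q := by
  have h : Y P ^ 2 = Y Q ^ 2 := by rw [eqn hP, eqn hQ, hx]
  refine (sq_eq_sq_iff_eq_or_eq_neg.1 h).imp (pt_ext hP hQ hx) fun h1 => ?_
  exact pt_ext hP (neg_ne_zero.2 hQ) (by simpa using hx) (by simpa using h1)

/-- The addition formula; both relations for the slope hold for chords and for tangents. -/
lemma add_spec {P Q : Pt A B L} (hP : P ≠ 0) (hQ : Q ≠ 0) (h : P + Q ≠ 0) : ∃ l : L,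
    X (P + Q) = l ^ 2 - X P - X Q ∧ Y (P + Q) = -(l * (X (P + Q) - X P) + Y P) ∧
    l * (X P - X Q) = Y P - Y Q ∧ l * (Y P + Y Q) = X P ^ 2 + X P * X Q + X Q ^ 2 + A := by
  have e1 := eqn hP
  have e2 := eqn hQ
  rcases P with _ | ⟨x, y, h1⟩
  · exact absurd rfl hP
  rcases Q with _ | ⟨x', y', h2⟩
  · exact absurd rfl hQ
  have h3 : ¬ (x = x' ∧ y = ((⟨0, 0, 0, A, B⟩ : WeierstrassCurve ℤ)⁄L).toAffine.negY x' y') :=
    fun h4 => h (Point.add_of_Y_eq h4.1 h4.2)
  rw [Point.add_some h3]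
  simp only [X_some, Y_some] at e1 e2 ⊢
  refine ⟨((⟨0, 0, 0, A, B⟩ : WeierstrassCurve ℤ)⁄L).toAffine.slope x x' y y', ?_, ?_, ?_⟩
  · simp [addX, toAffine, WeierstrassCurve.baseChange]
  · rw [addY, negY_eq, negAddY]
  by_cases hx : x = x'
  · subst hx
    have h5 : y ≠ -y' := fun h5 => h3 ⟨rfl, by rw [negY_eq, h5]⟩
    obtain rfl : y = y' := (sq_eq_sq_iff_eq_or_eq_neg.1 (e1.trans e2.symm)).resolve_right h5
    have h6 : y - -y ≠ 0 := sub_ne_zero.2 h5
    rw [slope_of_Y_ne rfl (by rwa [negY_eq]), negY_eq]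
    refine ⟨by simp, ?_⟩
    rw [← sub_neg_eq_add y y, div_mul_cancel₀ _ h6]
    simp [toAffine, WeierstrassCurve.baseChange]
    ring
  · have h6 := sub_ne_zero.2 hx
    rw [slope_of_X_ne hx]
    refine ⟨div_mul_cancel₀ _ h6, ?_⟩
    field_simp
    linear_combination e1 - e2

@[simp] lemma X_pm (f : K →+* L) (P : Pt A B K) : X (pm f P) = f (X P) := by
  rcases P with _ | ⟨x, y, h⟩
  · exact (map_zero f).symm
  · rfl

@[simp] lemma Y_pm (f : K →+* L) (P : Pt A B K) : Y (pm f P) = f (Y P) := by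
  rcases P with _ | ⟨x, y, h⟩
  · exact (map_zero f).symm
  · rfl

lemma pm_injective (f : K →+* L) : Function.Injective (pm f : Pt A B K → Pt A B L) :=
  Point.map_injective _

@[simp] lemma pm_eq_zero (f : K →+* L) {P : Pt A B K} : pm f P = 0 ↔ P = 0 :=
  map_eq_zero_iff _ (pm_injective f)

lemma pm_pm {M : Type} [Field M] [DecidableEq M] (f : K →+* L) (g : L →+* M) (P : Pt A B K) :
    pm g (pm f P) = pm (g.comp f) P := by
  rcases P with _ | ⟨x, y, h⟩ <;> rfl

lemma pm_congr {f g : K →+* L} {P : Pt A B K} (hx : f (X P) = g (X P)) (hy : f (Y P) = g (Y P)) :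
    pm f P = pm g P := by
  by_cases h : P = 0
  · rw [h, map_zero, map_zero]
  · exact pt_ext (mt (pm_eq_zero f).1 h) (mt (pm_eq_zero g).1 h) (by simpa) (by simpa)

lemma pm_id (P : Pt A B K) : pm (RingHom.id K) P = P := by
  rcases P with _ | ⟨x, y, h⟩ <;> rfl

lemma ev_pm (F : MvPolynomial (Fin 2) ℤ) (f : K →+* L) (P : Pt A B K) :
    ev F (pm f P) = f (ev F P) := by
  have h := MvPolynomial.comp_aeval_apply ![X P, Y P] f.toIntAlgHom F
  rw [ev, ev, X_pm, Y_pm]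
  refine Eq.trans ?_ h.symm
  congr 2
  ext i
  fin_cases i <;> rfl

/-! ### Valuations -/

section

variable {G : Type} [LinearOrderedCommGroupWithZero G] (v : Valuation L G)

/-- The kernel of reduction. -/
def E1 (P : Pt A B L) : Prop := P = 0 ∨ 1 < v (X P)

/-- The points of the kernel of reduction whose parameter has size at most `c`. -/
def Sm (c : G) (P : Pt A B L) : Prop := E1 v P ∧ v (Z P) ≤ c

lemma v_int (n : ℤ) : v n ≤ 1 := (v.mem_integer_iff _).1 (intCast_mem v.integer n)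

variable {v}

lemma E1.neg {P : Pt A B L} (h : E1 v P) : E1 v (-P) :=
  h.imp (fun h => by rw [h, neg_zero]) fun h => by rwa [X_neg]

lemma Sm.neg {c : G} {P : Pt A B L} (h : Sm v c P) : Sm v c (-P) :=
  ⟨h.1.neg, by rw [Z_neg, v.map_neg]; exact h.2⟩

lemma Sm.mono {c c' : G} {P : Pt A B L} (h : Sm v c P) (h' : c ≤ c') : Sm v c' P :=
  ⟨h.1, h.2.trans h'⟩

lemma sm_zero (c : G) : Sm v c (0 : Pt A B L) := ⟨.inl rfl, by simp⟩

lemma E1.sm {P : Pt A B L} (h : E1 v P) : Sm v (v (Z P)) P := ⟨h, le_rfl⟩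

/-- The size of the second coordinate near infinity. -/
lemma v_Y {P : Pt A B L} (h : 1 < v (X P)) : v (Y P) ^ 2 = v (X P) ^ 3 := by
  have h0 : P ≠ 0 := fun h0 => by simp [h0] at h
  have h1 : v (X P) < v (X P ^ 3) := by
    rw [map_pow]
    simpa using pow_lt_pow_right₀ h (show 1 < 3 by norm_num)
  rw [← map_pow, eqn h0, add_assoc, v.map_add_eq_of_lt_left, map_pow]
  refine v.map_add_lt (lt_of_le_of_lt ?_ h1) ((v_int v B).trans_lt (h.trans h1))
  rw [map_mul]
  exact mul_le_of_le_one_left' (v_int v A)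

lemma Y_ne {P : Pt A B L} (h : 1 < v (X P)) : Y P ≠ 0 := fun h0 => by
  have h1 := v_Y h
  rw [h0, map_zero, zero_pow two_ne_zero] at h1
  exact (pow_ne_zero 3 (zero_lt_one.trans h).ne') h1.symm

/-- The size of the parameter near infinity. -/
lemma v_Z {P : Pt A B L} (h : 1 < v (X P)) : v (Z P) ^ 2 * v (X P) = 1 := by
  rw [Z, map_div₀, div_pow, v_Y h, div_mul_eq_mul_div, ← pow_succ,
    div_self (pow_ne_zero 3 (zero_lt_one.trans h).ne')]

lemma Z_ne {P : Pt A B L} (h : 1 < v (X P)) : Z P ≠ 0 := fun h0 => by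
  simpa [h0] using v_Z h

lemma E1.Z_lt {P : Pt A B L} (h : E1 v P) : v (Z P) < 1 := by
  rcases h with rfl | h
  · simp
  · by_contra h1
    exact (h.trans_le (le_mul_of_one_le_left' (one_le_pow₀ (not_lt.1 h1)))).ne' (v_Z h)

lemma E1.eq_zero {P : Pt A B L} (h : E1 v P) (h0 : v (Z P) = 0) : P = 0 :=
  h.resolve_right fun h1 => Z_ne h1 (v.zero_iff.1 h0)

/-- A bounded point satisfies a bound in the second coordinate. -/
lemma v_Y_le {P : Pt A B L} {M : G} (h1 : 1 ≤ M) (h : v (X P) ≤ M) : v (Y P) ^ 2 ≤ M ^ 3 := by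
  have h3 : M ≤ M ^ 3 := by simpa using pow_le_pow_right₀ h1 (show 1 ≤ 3 by norm_num)
  by_cases h0 : P = 0
  · simp [h0]
  rw [← map_pow, eqn h0]
  refine v.map_add_le (v.map_add_le ?_ ?_) ((v_int v B).trans (h1.trans h3))
  · rw [map_pow]; exact pow_le_pow_left' h 3
  · rw [map_mul]; exact (mul_le_of_le_one_left' (v_int v A)).trans (h.trans h3)

/-- A point that is not close to infinity is bounded. -/
lemma bound_of_not_sm {P : Pt A B L} {c : G} (h1 : c ≤ 1) (h : ¬ Sm v c P) :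
    P ≠ 0 ∧ c ^ 2 * v (X P) ≤ 1 := by
  refine ⟨fun h0 => h (h0 ▸ sm_zero c), ?_⟩
  by_cases h2 : 1 < v (X P)
  · have h3 : c ≤ v (Z P) := (not_le.1 fun h3 => h ⟨.inr h2, h3⟩).le
    exact (mul_le_mul_left (pow_le_pow_left' h3 2) _).trans (v_Z h2).le
  · exact mul_le_one' (pow_le_one' h1 2) (not_lt.1 h2)

end

/-! ### Limits -/

/-- The points tend to the point at infinity. -/
def ToO {L : Type} [NormedField L] {ι : Type} (l : Filter ι) (P : ι → Pt A B L) : Prop :=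
  ∀ r : ℝ, ∀ᶠ i in l, P i = 0 ∨ r ≤ ‖X (P i)‖

/-- The points tend to the affine point `Q`. -/
def ToA {L : Type} [NormedField L] {ι : Type} (l : Filter ι) (P : ι → Pt A B L) (Q : Pt A B L) :
    Prop :=
  Q ≠ 0 ∧ (∀ᶠ i in l, P i ≠ 0) ∧ Tendsto (fun i => X (P i)) l (𝓝 (X Q)) ∧
    Tendsto (fun i => Y (P i)) l (𝓝 (Y Q))

lemma ToO.neg {L : Type} [NormedField L] {ι : Type} {l : Filter ι} {P : ι → Pt A B L}
    (h : ToO l P) : ToO l fun i => -P i :=
  fun r => (h r).mono fun i hi => hi.imp (fun h => show -P i = 0 by rw [h]; rfl) fun h => by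
    rwa [X_neg]

lemma ToO.comp {L : Type} [NormedField L] {ι κ : Type} {l : Filter ι} {l' : Filter κ}
    {P : ι → Pt A B L} (h : ToO l P) {f : κ → ι} (hf : Tendsto f l' l) : ToO l' fun i => P (f i) :=
  fun r => hf.eventually (h r)

lemma toA_const {L : Type} [NormedField L] {ι : Type} (l : Filter ι) {Q : Pt A B L} (h : Q ≠ 0) :
    ToA l (fun _ => Q) Q :=
  ⟨h, .of_forall fun _ => h, tendsto_const_nhds, tendsto_const_nhds⟩

/-- The real point is to the right of `x`. -/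
def Pos (x : ℝ) (P : Pt A B ℝ) : Prop := P = 0 ∨ x < X P

/-- A uniformisation of the identity component of the real points. -/
structure Unif (f : ℝ →+ Pt A B ℝ) : Prop where
  ker : ∀ t, f t = 0 ↔ ∃ k : ℤ, t = k
  lim : ToO (𝓝 0) f
  two : ∀ P, ∃ t, f t = 2 • P

/-- The multipliers of level `n`. -/
def Dn (p q n d : ℕ) : Prop := ∃ i j, 0 < i ∧ 0 < j ∧ d = p ^ (n * i) * q ^ (n * j)

/-- The test function at a multiple of `P`. -/
noncomputable def bt (P V W : Pt A B L) (d : ℕ) : L := X (d • P - V) - X W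

/-- The point has infinite order. -/
def NT (P : Pt A B L) : Prop := ∀ n : ℤ, n • P = 0 → n = 0

end Pool.Agent.P.MP_ab3ecb_nt.TP
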