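import Mathlib

/-!
Points of the curve `y ^ 2 = x ^ 3 + A x + B`, their coordinates, and the real components on
which a polynomial takes a negative value.
-/

namespace Pool.Agent.P.MP_ab3ecb_nt.TP

open WeierstrassCurve OnePoint

instance (p : Nat.Primes) : Fact p.1.Prime := ⟨p.2⟩

/-- The points over `L` of the curve `y ^ 2 = x ^ 3 + A x + B`, the point at infinity included. -/
abbrev Pt (A B : ℤ) (L : Type) [Field L] : Type :=
  ((⟨0, 0, 0, A, B⟩ : WeierstrassCurve ℤ)⁄L).toAffine.Point

variable {A B : ℤ}

/-- The map on points induced by a homomorphism of fields. -/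
noncomputable def pm {K L : Type} [Field K] [Field L] [DecidableEq K] [DecidableEq L]
    (f : K →+* L) : Pt A B K →+ Pt A B L :=
  Affine.Point.map f.toIntAlgHom

/-- The coordinates of a point. -/
def co {L : Type} [Field L] : Pt A B L → OnePoint L × OnePoint L
  | .zero => (∞, ∞)
  | .some x y _ => (x, y)

/-- The polynomial `F` is negative at some point of the real component of `Q`, that is, of the
coset of `Q` modulo the doubles of the real points. -/
def Neg (F : MvPolynomial (Fin 2) ℤ) (Q : Pt A B ℚ) : Prop :=
  ∃ (Z : Pt A B ℝ) (x y : ℝ) (h : _), pm (Rat.castHom ℝ) Q + 2 • Z = .some x y h ∧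
    MvPolynomial.aeval ![x, y] F < 0

end Pool.Agent.P.MP_ab3ecb_nt.TP
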