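import Pool.Agent.P.MP_ab3ecb_nt.TP.Iface
import Pool.Agent.P.MP_8b7eba_nt.R2.AllA

/-! Statements on points over the algebraic numbers. -/

namespace Pool.Agent.P.MP_ab3ecb_nt.TP

open Filter Topology
open Pool.Agent.P.MP_8b7eba_nt.R2 hiding Sm
open scoped Classical NNReal

variable {A B : ℤ}

/-- The Galois action on points. -/
noncomputable abbrev act (g : GQ) : Pt A B Om →+ Pt A B Om := pm (g : Om →+* Om)

/-- Rational points as algebraic points. -/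
noncomputable abbrev rt : Pt A B ℚ →+ Pt A B Om := pm (Rat.castHom Om)

/-- The point is defined over the fixed field of `U`. -/
def FixP (U : Subgroup GQ) (P : Pt A B Om) : Prop := ∀ g ∈ U, act g P = P

/-- The algebraic point `P` is the real point `R`, in the embedding given by `g`. -/
def IsR (g : GQ) (P : Pt A B Om) (R : Pt A B ℝ) : Prop :=
  pm io (act g P) = pm Complex.ofRealHom R

lemma act_mul (g h : GQ) (P : Pt A B Om) : act (g * h) P = act g (act h P) :=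
  (pm_pm (h : Om →+* Om) (g : Om →+* Om) P).symm

lemma act_one (P : Pt A B Om) : act 1 P = P := pm_id P

lemma act_rt (g : GQ) (P : Pt A B ℚ) : act g (rt P) = rt P :=
  (pm_pm _ _ P).trans (pm_congr (by simp) (by simp))

section

variable {U : Subgroup GQ} {P Q : Pt A B Om}

lemma FixP.x (h : FixP U P) : Fix U (X P) := fun g hg => by
  simpa using congrArg X (h g hg)

lemma FixP.y (h : FixP U P) : Fix U (Y P) := fun g hg => by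
  simpa using congrArg Y (h g hg)

lemma FixP.ev (h : FixP U P) (F : MvPolynomial (Fin 2) ℤ) : Fix U (ev F P) := fun g hg =>
  (ev_pm F (g : Om →+* Om) P).symm.trans (congrArg _ (h g hg))

lemma FixP.add (h : FixP U P) (h' : FixP U Q) : FixP U (P + Q) := fun g hg => by
  rw [map_add, h g hg, h' g hg]

lemma FixP.sub (h : FixP U P) (h' : FixP U Q) : FixP U (P - Q) := fun g hg => by
  rw [map_sub, h g hg, h' g hg]

lemma FixP.nsmul (h : FixP U P) (n : ℕ) : FixP U (n • P) := fun g hg => by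
  rw [map_nsmul, h g hg]

lemma FixP.zsmul (h : FixP U P) (n : ℤ) : FixP U (n • P) := fun g hg => by
  rw [map_zsmul, h g hg]

lemma fixP_rt (R : Pt A B ℚ) : FixP U (rt R) := fun g _ => act_rt g R

lemma FixP.bt {V W : Pt A B Om} (h : FixP U P) (hV : FixP U V) (hW : FixP U W) (d : ℕ) :
    Fix U (bt P V W d) := ((h.nsmul d).sub hV).x.sub hW.x

end

/-- The group which fixes two points. -/
def stab (P Q : Pt A B Om) : Subgroup GQ where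
  carrier := {g | act g P = P ∧ act g Q = Q}
  one_mem' := ⟨act_one P, act_one Q⟩
  mul_mem' := fun {a b} ha hb => ⟨by rw [act_mul, hb.1, ha.1], by rw [act_mul, hb.2, ha.2]⟩
  inv_mem' := fun {a} ha => ⟨by rw [← ha.1, ← act_mul, inv_mul_cancel, act_one, ha.1],
    by rw [← ha.2, ← act_mul, inv_mul_cancel, act_one, ha.2]⟩

lemma fixP_stab (P Q : Pt A B Om) : FixP (stab P Q) P ∧ FixP (stab P Q) Q :=
  ⟨fun _ h => h.1, fun _ h => h.2⟩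

section

variable {g : GQ} {P Q : Pt A B Om} {R T : Pt A B ℝ}

lemma IsR.add (h : IsR g P R) (h' : IsR g Q T) : IsR g (P + Q) (R + T) := by
  rw [IsR, map_add, map_add, map_add, h, h']

lemma IsR.sub (h : IsR g P R) (h' : IsR g Q T) : IsR g (P - Q) (R - T) := by
  rw [IsR, map_sub, map_sub, map_sub, h, h']

lemma IsR.nsmul (h : IsR g P R) (n : ℕ) : IsR g (n • P) (n • R) := by
  rw [IsR, map_nsmul, map_nsmul, map_nsmul, h]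

lemma IsR.zsmul (h : IsR g P R) (n : ℤ) : IsR g (n • P) (n • R) := by
  rw [IsR, map_zsmul, map_zsmul, map_zsmul, h]

lemma isR_rt (g : GQ) (Q : Pt A B ℚ) : IsR g (rt Q) (pm (Rat.castHom ℝ) Q) := by
  rw [IsR, act_rt, pm_pm, pm_pm]
  exact pm_congr (by simp) (by simp)

lemma IsR.left {g' : GQ} (h : IsR g P R) (h' : IsR g' Q R) : act g P = act g' Q :=
  pm_injective _ (h.trans h'.symm)

lemma IsR.right (h : IsR g P R) (h' : IsR g P T) : R = T := pm_injective _ (h.symm.trans h')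

lemma IsR.zero_iff (h : IsR g P R) : P = 0 ↔ R = 0 := by
  rw [← pm_eq_zero (g : Om →+* Om), ← pm_eq_zero io, h, pm_eq_zero]

lemma IsR.x (h : IsR g P R) : io (g (X P)) = X R := by simpa using congrArg X h

lemma IsR.ev (h : IsR g P R) (F : MvPolynomial (Fin 2) ℤ) : io (g (ev F P)) = (ev F R : ℝ) := by
  have h1 := congrArg (TP.ev F) h
  rwa [ev_pm, ev_pm, ev_pm] at h1

lemma IsR.bt {V W : Pt A B Om} {V' W' : Pt A B ℝ} (h : IsR g P R) (hV : IsR g V V')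
    (hW : IsR g W W') (d : ℕ) : io (g (bt P V W d)) = (bt R V' W' d : ℝ) := by
  rw [TP.bt, TP.bt, map_sub, map_sub, ((h.nsmul d).sub hV).x, hW.x, Complex.ofReal_sub]

end

/-! ### Reciprocity -/

-- deps:
def S_QRA : Prop := ∀ q : ℚ, q ≠ 0 → (∀ w : Pl, Nm w.D (-1) q) → 0 < q

-- deps:
def S_QRB : Prop := ∀ (U : Subgroup GQ) (a : Om), IsOpen (U : Set GQ) → Fix U a →
  (∀ w : Pl, Nm (w.D ⊓ U) (-1) a) → ∀ w : Pl, Nm w.D (-1) (nrm ⊤ U a)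

-- deps:
def S_QRC : Prop := ∀ (U : Subgroup GQ) (a : Om) (q : ℚ), IsOpen (U : Set GQ) → Fix U a → a ≠ 0 →
  tau ∈ U → (io a).re < 0 → (∀ g : GQ, g ∉ U → g⁻¹ * tau * g ∈ U → 0 < (io (g a)).re) →
  nrm ⊤ U a = q → q < 0

-- deps:
def S_QRD : Prop := ∀ (g : GQ) (a b : Om), a ≠ 0 → b ≠ 0 → (g⁻¹ * tau * g) a = a →
  (g⁻¹ * tau * g) b = b → IsClosed (Subgroup.zpowers (g⁻¹ * tau * g) : Set GQ) ∧
    (io (g a)).re ≠ 0 ∧ (Nm (Subgroup.zpowers (g⁻¹ * tau * g)) b a ↔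
      ¬ ((io (g b)).re < 0 ∧ (io (g a)).re < 0))

-- deps: QRA QRB QRC QRD
def S_QR : Prop := ∀ (U : Subgroup GQ) (a b : Om), IsOpen (U : Set GQ) → Fix U a → Fix U b →
  a ≠ 0 → b ≠ 0 → (∀ w : Pl, Nm (w.D ⊓ U) a b) → tau ∈ U → (io a).re < 0 → (io b).re < 0 →
    ∃ g : GQ, g ∉ U ∧ g⁻¹ * tau * g ∈ U ∧ (io (g b)).re < 0

/-! ### Finite places -/

-- deps:
def S_LNK : Prop := ∀ (r : Nat.Primes) (w : Pl), w.p = r.1 →
  (∀ q : ℚ, w.v q = NormedField.valuation (q : ℚ_[r.1])) ∧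
  ∀ (A B : ℤ) (c : ℝ≥0) (P : Pt A B ℚ), Sm w.v c (rt P) ↔
    Sm (NormedField.valuation (K := ℚ_[r.1])) c (pm (Rat.castHom ℚ_[r.1]) P)

-- deps: MUL FARE
def S_FI : Prop := ∀ (A B : ℤ) (w : Pl) (U : Subgroup GQ) (P : Pt A B Om) (c : ℝ≥0),
  4 * A ^ 3 + 27 * B ^ 2 ≠ 0 → IsOpen (U : Set GQ) → FixP U P → 0 < c →
    ∃ N : ℕ, 0 < N ∧ Sm w.v c (N • P)

-- deps: MUL FI
def S_DIV : Prop := ∀ (A B : ℤ) (w : Pl) (P : Pt A B ℚ) (j : ℕ), 4 * A ^ 3 + 27 * B ^ 2 ≠ 0 →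
  NT P → ∃ c : ℝ≥0, 0 < c ∧ ∀ n : ℤ, Sm w.v c (rt (n • P)) → (w.p : ℤ) ^ j ∣ n

-- deps: AR MUL CL FARE FI
def S_SIG : Prop := ∀ (A B : ℤ) (w : Pl) (U : Subgroup GQ) (P V W : Pt A B Om) (p q k : ℕ),
  4 * A ^ 3 + 27 * B ^ 2 ≠ 0 → IsOpen (U : Set GQ) → FixP U P → FixP U V → FixP U W → p.Prime →
  q.Prime → p ^ k • V = 0 → p ^ k • W = 0 → V ≠ 0 → W ≠ 0 → V + W ≠ 0 → V - W ≠ 0 →
    ∃ n₀, 0 < n₀ ∧ ∀ n d d', 0 < n → n₀ ∣ n → Dn p q n d → Dn p q n d' →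
      Sq (w.D ⊓ U) (bt P V W d * bt P V W d')

-- deps: MUL FAR
def S_GOOD : Prop := ∀ (A B : ℤ) (w : Pl) (P V W : Pt A B Om) (N d : ℕ), w.p ≠ 2 →
  w.v ((4 * A ^ 3 + 27 * B ^ 2 : ℤ) : Om) = 1 → W ≠ 0 → w.v (X W) ≤ 1 → N • V = 0 → N • W = 0 →
  ¬ E1 w.v ((N * d) • P) → w.v (bt P V W d) = 1

-- deps: CL EVC CO LNK
def S_SQ : Prop := ∀ (A B : ℤ) (F : MvPolynomial (Fin 2) ℤ) (r : Nat.Primes) (w : Pl)
  (U : Subgroup GQ) (R : Pt A B Om) (l : Filter ℤ) (γ : ℤ → Pt A B ℚ) (a : Pt A B ℚ_[r.1]),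
  w.p = r.1 → w.p ≠ 2 → FixP U R → R ≠ 0 → w.v (X R) ≤ 1 → w.v (ev F R) = 1 → l.NeBot →
  (∀ᶠ m in l, E1 w.v (rt (γ m) - R)) →
  Tendsto (fun m => co (pm (Rat.castHom ℚ_[r.1]) (γ m))) l (𝓝 (co a)) →
  (a ≠ 0 → IsSquare (ev F a)) → Sq (w.D ⊓ U) (ev F R)

/-- The data of the reciprocity argument at the finite places. -/
structure Ctx (F : MvPolynomial (Fin 2) ℤ) (S : Set Nat.Primes) (a : ∀ r : S, Pt A B ℚ_[r.1.1])
    (P R : Pt A B ℚ) (l : Ultrafilter ℤ) (s t : ℤ) (p q : ℕ) : Prop where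
  hD : 4 * A ^ 3 + 27 * B ^ 2 ≠ 0
  hS : Sᶜ.Finite
  sq : ∀ r, a r ≠ 0 → IsSquare (ev F (a r))
  lim : ∀ r : S, Tendsto (fun m : ℤ => co (pm (Rat.castHom ℚ_[r.1.1]) (R + m • P))) l (𝓝 (co (a r)))
  hp : p.Prime
  hq : q.Prime
  ne : p ≠ q
  dp : ∀ j : ℕ, ∀ᶠ m in l, (p : ℤ) ^ j ∣ t * m - s
  dq : ∀ j : ℕ, ∀ᶠ m in l, (q : ℤ) ^ j ∣ t * m - s

-- deps: MUL SIG GOOD SQ
def S_KF : Prop := ∀ (A B : ℤ) (F : MvPolynomial (Fin 2) ℤ) (S : Set Nat.Primes)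
  (a : ∀ r : S, Pt A B ℚ_[r.1.1]) (P R : Pt A B ℚ) (l : Ultrafilter ℤ) (s t : ℤ) (p q : ℕ),
  Ctx F S a P R l s t p q → ∀ (U : Subgroup GQ) (P' V W R' : Pt A B Om) (k : ℕ),
  IsOpen (U : Set GQ) → FixP U P' → FixP U V → FixP U W → FixP U R' → p ^ k • V = 0 →
  p ^ k • W = 0 → V ≠ 0 → W ≠ 0 → V + W ≠ 0 → V - W ≠ 0 → R' ≠ 0 → ev F R' ≠ 0 →
  (∀ᶠ m in l, rt (R + m • P) = R' + (t * m - s) • P') →
    ∃ n₀, 0 < n₀ ∧ ∀ n d d', 0 < n → n₀ ∣ n → Dn p q n d → Dn p q n d' → ∀ w : Pl,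
      Nm (w.D ⊓ U) (ev F R') (bt P' V W d * bt P' V W d')

/-! ### Real places -/

-- deps: MUL
def S_ALG : Prop := ∀ (A B : ℤ), 4 * A ^ 3 + 27 * B ^ 2 ≠ 0 →
  (∀ (R : Pt A B ℝ) (n : ℤ) (Q : Pt A B ℚ), n ≠ 0 → n • R = pm (Rat.castHom ℝ) Q →
    ∃ P : Pt A B Om, IsR 1 P R) ∧
  (∀ (g : GQ) (P : Pt A B Om), act (g⁻¹ * tau * g) P = P ↔ ∃ R, IsR g P R) ∧
  ∀ P Q : Pt A B Om, IsOpen (stab P Q : Set GQ)

-- deps: RS ALG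
def S_KRA : Prop := ∀ (A B : ℤ) (f : ℝ →+ Pt A B ℝ) (P V : Pt A B Om) (P₀ : Pt A B ℚ)
  (u : ℝ) (p M : ℕ) (a b : ℤ) (g : GQ), 4 * A ^ 3 + 27 * B ^ 2 ≠ 0 → Unif f → Irrational u →
  p.Prime → M.Coprime p → M • P = rt P₀ → a + b = 1 → a - b = p → IsR 1 P (f u) →
  IsR 1 V (f (1 / p ^ 2)) → g ∉ stab P V → g⁻¹ * tau * g ∈ stab P V →
    ∀ᶠ x in 𝓝 (1 / p ^ 2 : ℝ) ×ˢ 𝓝 (1 / p ^ 2 : ℝ), ∀ (d d' : ℕ) (k k' : ℤ), 0 < d → 0 < d' →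
      (M : ℤ) ∣ d - 1 → (M : ℤ) ∣ d' - 1 → d * u + k = x.1 → d' * u + k' = x.2 →
      0 < (io (g (bt P (a • V) (b • V) d * bt P (a • V) (b • V) d'))).re

-- deps: LB RS
def S_KRB : Prop := ∀ (A B : ℤ) (f : ℝ →+ Pt A B ℝ) (P V : Pt A B Om) (u : ℝ) (p : ℕ) (a b : ℤ),
  Unif f → p.Prime → a + b = 1 → a - b = p → IsR 1 P (f u) → IsR 1 V (f (1 / p ^ 2)) →
    ∀ᶠ e in 𝓝[≠] (0 : ℝ), ∀ᶠ x in 𝓝 (1 / p ^ 2 + e : ℝ) ×ˢ 𝓝 (1 / p ^ 2 - e : ℝ),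
      ∀ (d d' : ℕ) (k k' : ℤ), d * u + k = x.1 → d' * u + k' = x.2 →
        (io (bt P (a • V) (b • V) d * bt P (a • V) (b • V) d')).re < 0

-- deps: FUR AR KRA KRB ALG
def S_KR : Prop := ∀ (A B : ℤ) (f : ℝ →+ Pt A B ℝ) (P V : Pt A B Om) (P₀ : Pt A B ℚ)
  (u : ℝ) (p q M n₀ : ℕ) (a b : ℤ), 4 * A ^ 3 + 27 * B ^ 2 ≠ 0 → Unif f → Irrational u →
  p.Prime → q.Prime → p ≠ q → 0 < M → M.Coprime (p * q) → M • P = rt P₀ → a + b = 1 → a - b = p →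
  IsR 1 P (f u) → IsR 1 V (f (1 / p ^ 2)) → 0 < n₀ →
    ∃ n d d', 0 < n ∧ n₀ ∣ n ∧ Dn p q n d ∧ Dn p q n d' ∧
      (io (bt P (a • V) (b • V) d * bt P (a • V) (b • V) d')).re < 0 ∧
      ∀ g : GQ, g ∉ stab P V → g⁻¹ * tau * g ∈ stab P V →
        0 < (io (g (bt P (a • V) (b • V) d * bt P (a • V) (b • V) d'))).re

/-! ### Assembly -/

-- deps: WP KA KF KR QR ALG
def S_KEY : Prop := ∀ (A B : ℤ) (F : MvPolynomial (Fin 2) ℤ) (S : Set Nat.Primes)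
  (a : ∀ r : S, Pt A B ℚ_[r.1.1]) (P R : Pt A B ℚ) (l : Ultrafilter ℤ) (s : ℤ) (t p q : ℕ),
  Ctx F S a (2 • P) R l s t p q → NT P → Neg F R → p ≠ 2 → 0 < t → t.Coprime (p * q) →
    ∀ r j : ℕ, r.Prime → ∀ᶠ m in l, (r : ℤ) ^ j ∣ t * m - s

-- deps: KEY
def S_KEYB : Prop := ∀ (A B : ℤ) (F : MvPolynomial (Fin 2) ℤ) (S : Set Nat.Primes)
  (a : ∀ r : S, Pt A B ℚ_[r.1.1]) (P R : Pt A B ℚ) (l : Ultrafilter ℤ) (s : ℤ) (t p q : ℕ),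
  Ctx F S a (2 • P) R l s t p q → NT P → Neg F R → 0 < t →
    ∃ m₀ : ℤ, ∀ N : ℕ, 0 < N → ∀ᶠ m in l, (N : ℤ) ∣ m - m₀

-- deps: MUL CO TS LNK FI DIV ULT KEYB
def S_TOP : Prop := ∀ (A B : ℤ) (Γ : AddSubgroup (Pt A B ℚ)) (F : MvPolynomial (Fin 2) ℤ)
  (S : Set Nat.Primes) (a : ∀ r : S, Pt A B ℚ_[r.1.1]) (p q : S) (n : ℕ) (Q : Pt A B ℚ),
  4 * A ^ 3 + 27 * B ^ 2 ≠ 0 → (∃ P : Γ, (AddSubgroup.zmultiples P).FiniteIndex) → Sᶜ.Finite →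
  (fun r => co (a r)) ∈ closure
    ((fun Q (r : S) => co (pm (Rat.castHom ℚ_[r.1.1]) Q)) '' {Q | Q ∈ Γ ∧ Neg F Q}) →
  (∀ r, a r ≠ 0 → IsSquare (ev F (a r))) → p ≠ q → n ≠ 0 → Q ∈ Γ →
  n • a p = pm (Rat.castHom _) Q → n • a q = pm (Rat.castHom _) Q →
    ∃ R ∈ Γ, ∀ r, a r = pm (Rat.castHom _) R

end Pool.Agent.P.MP_ab3ecb_nt.TP
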