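import Pool.Agent.P.MP_ab3ecb_nt.TP.All

/-! A rational number which is a square at almost all primes is a square. -/

namespace Pool.Agent.P.MP_ab3ecb_nt.TP

open Filter Topology
open Pool.Agent.P.MP_8b7eba_nt.R2 hiding Sm
open scoped Classical NNReal

theorem rat_sq {A B : ℤ} (F : MvPolynomial (Fin 2) ℤ) {S : Set Nat.Primes} (hS : Sᶜ.Finite)
    {R : Pt A B ℚ} (h0 : R ≠ 0)
    (h : ∀ r : S, IsSquare (ev F (pm (Rat.castHom ℚ_[r.1.1]) R))) : IsSquare (ev F R) := by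
  by_cases e0 : ev F R = 0
  · rw [e0]; exact IsSquare.zero
  have e1 : ev F (rt R) = (ev F R : ℚ) := ev_pm F _ R
  have e2 : ev F (rt R) ≠ 0 := by rw [e1]; exact_mod_cast e0
  obtain ⟨b1, h1⟩ := a_PL.2.2.2.2.2.1 _ e2
  obtain ⟨b2, h2⟩ : ∃ b : ℕ, ∀ w : Pl, b < w.p → w.v (X (rt R)) ≤ 1 := by
    by_cases h : X (rt R) = 0
    · exact ⟨0, fun w _ => by rw [h, map_zero]; exact zero_le_one⟩
    · obtain ⟨b, hb⟩ := a_PL.2.2.2.2.2.1 _ h
      exact ⟨b, fun w hw => (hb w hw).le⟩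
  obtain ⟨b3, h3⟩ := (hS.image fun r => r.1).bddAbove
  obtain ⟨β, hβ⟩ := exists_root (ev F (rt R)) two_ne_zero
  have h4 := a_GENP.1 ⊤ (MulAction.stabilizer GQ β) (b1 + b2 + b3 + 2) isOpen_univ (isOpen_stab β)
    fun w φ hw _ hφ => by
      have hs : (⟨w.p, w.prime⟩ : Nat.Primes) ∈ S := by_contra fun h => by
        have : w.p ≤ b3 := h3 ⟨_, h, rfl⟩
        omega
      have h5 := TP.a_SQ A B F ⟨w.p, w.prime⟩ w ⊤ (rt R) ⊤ (fun _ => R) _ rfl (by omega)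
        (fixP_rt R) (mt (pm_eq_zero _).1 h0) (h2 w (by omega)) (h1 w (by omega)) inferInstance
        (.of_forall fun _ => .inl (sub_self _)) tendsto_const_nhds fun _ => h ⟨_, hs⟩
      rw [← hβ] at h5
      exact (sq_iff (by rw [hβ, e1]; exact fix_rat _)).1 h5 φ ⟨hφ.1, trivial⟩
  obtain ⟨c, rfl⟩ := Fix.rat (x := β) fun σ hσ => h4 hσ
  exact ⟨c, by rw [← sq]; exact_mod_cast (hβ.trans e1).symm⟩

end Pool.Agent.P.MP_ab3ecb_nt.TP
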