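import Pool.Agent.P.MP_ab3ecb_nt.TP.Iface

/-! Step FAR. -/

set_option autoImplicit false
set_option linter.unusedSectionVars false

namespace Pool.Agent.P.MP_ab3ecb_nt.TP

open Filter Topology
open scoped Classical NNReal

namespace FARx

variable {A B : ℤ} {L G : Type} [Field L] [DecidableEq L] [LinearOrderedCommGroupWithZero G]
  {v : Valuation L G} {c M : G} {P Q : Pt A B L}

lemma slope (hP : P ≠ 0) (hQ : Q ≠ 0) (h1 : 1 ≤ M) (hx : v (X P) ≤ M) (hy : v (X Q) ≤ M)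
    (hc : c ^ 2 * M ≤ 1) (h : ¬ Sm v c (P + Q)) : ∃ l : L, c * v l ≤ 1 ∧
      l * (X P - X Q) = Y P - Y Q ∧ l * (Y P + Y Q) = X P ^ 2 + X P * X Q + X Q ^ 2 + A := by
  obtain ⟨h0, h2⟩ := bound_of_not_sm ((pow_le_one_iff_of_nonneg zero_le two_ne_zero).1
    ((le_mul_of_one_le_right' h1).trans hc)) h
  obtain ⟨l, e, -, e'⟩ := add_spec hP hQ h0
  refine ⟨l, not_lt.1 fun h3 => ?_, e'⟩
  have h4 : 1 < c ^ 2 * v (l ^ 2) := by
    rw [map_pow, ← mul_pow]
    exact one_lt_pow₀ h3 two_ne_zero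
  rw [e, sub_sub, v.map_sub_eq_of_lt_left
    ((v.map_add_le hx hy).trans_lt (lt_of_mul_lt_mul_left' (hc.trans_lt h4)))] at h2
  exact h4.not_ge h2

lemma im (n : ℤ) {x : L} (h : v x ≤ M) : v (n * x) ≤ M := by
  rw [map_mul]
  exact (mul_le_of_le_one_left' (v_int v n)).trans h

end FARx

theorem p_FAR :
    S_FAR := by
  intro A B L G _ _ _ v c M δ P Q hP hQ hδ h1 hx hy hc k1 k2 k3
  by_contra! h
  obtain ⟨l, b, e1, e2⟩ := FARx.slope hP hQ h1 hx hy hc h.2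
  obtain ⟨m, b', e3, -⟩ := FARx.slope hP (neg_ne_zero.2 hQ) h1 hx (by rwa [X_neg]) hc
    (by rw [← sub_eq_add_neg]; exact h.1)
  rw [X_neg, Y_neg] at e3
  have M2 : M ≤ M ^ 2 := le_self_pow₀ h1 two_ne_zero
  have a1 : v ((27 * B : ℤ) + (-18 * A : ℤ) * X Q) ≤ M :=
    v.map_add_le ((v_int v _).trans h1) (FARx.im _ hy)
  have a2 : v ((6 * A : ℤ) * X Q ^ 2 + (-9 * B : ℤ) * X Q + (4 * A ^ 2 : ℤ)) ≤ M ^ 2 :=
    v.map_add_le (v.map_add_le (FARx.im _ (by rw [map_pow]; exact pow_le_pow_left' hy 2))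
      (FARx.im _ (hy.trans M2))) ((v_int v _).trans (h1.trans M2))
  have a3 : c * v 2 * v (Y Q) ≤ v (X P - X Q) := by
    rw [mul_assoc, ← map_mul, show 2 * Y Q = (m - l) * (X P - X Q) by linear_combination e1 - e3,
      map_mul, ← mul_assoc]
    refine mul_le_of_le_one_left' ((mul_le_mul_right (v.map_sub m l) c).trans ?_)
    rw [mul_max]
    exact max_le b' b
  have e : δ = v (((27 * B : ℤ) + (-18 * A : ℤ) * X Q) * Y Q ^ 2 +
      ((6 * A : ℤ) * X Q ^ 2 + (-9 * B : ℤ) * X Q + (4 * A ^ 2 : ℤ)) *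
        ((X P - X Q) * (l * m) - (X P - X Q) * (X P + (2 : ℤ) * X Q))) := by
    rw [hδ, disc_eq hQ]
    congr 1
    push_cast
    linear_combination (6 * A * X Q ^ 2 - 9 * B * X Q + 4 * A ^ 2) * (-l * e3 - e2)
  refine (e.trans_lt (v.map_add_lt ?_ ?_)).false
  · refine lt_of_mul_lt_mul_left' (lt_of_le_of_lt ?_ k3)
    rw [map_mul, map_pow, mul_comm (v _), ← mul_assoc, ← mul_pow, ← mul_pow]
    exact mul_le_mul' (pow_le_pow_left' a3 2) a1
  · rw [mul_sub]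
    refine v.map_sub_lt (lt_of_mul_lt_mul_left' (lt_of_le_of_lt ?_ k2)) (lt_of_le_of_lt ?_ k1)
    · rw [map_mul, map_mul, map_mul, mul_left_comm, mul_comm]
      refine mul_le_mul' ?_ a2
      rw [mul_left_comm, sq, mul_mul_mul_comm]
      exact mul_le_of_le_one_right' (mul_le_one' b b')
    · rw [map_mul, map_mul, mul_left_comm, pow_succ M 2]
      exact mul_le_mul_right (mul_le_mul' a2 (v.map_add_le hx (FARx.im _ hy))) _

end Pool.Agent.P.MP_ab3ecb_nt.TP
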