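import Pool.Agent.P.MP_ab3ecb_nt.TP.IfaceB
import Pool.Agent.P.MP_ab3ecb_nt.TP.Iface

/-! Step KR. -/

set_option autoImplicit false
set_option linter.unusedSectionVars false

namespace Pool.Agent.P.MP_ab3ecb_nt.TP

open Filter Topology
open Pool.Agent.P.MP_8b7eba_nt.R2 hiding Sm
open scoped Classical NNReal

theorem p_KR (hFUR : S_FUR) (hAR : S_AR) (hKRA : S_KRA) (hKRB : S_KRB) (hALG : S_ALG) :
    S_KR := by
  intro A B f P V P₀ u p q M n₀ a b hD hf hu hp hq ne pM cop hM ab1 ab2 rP rV pn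
  have hU := (hALG A B hD).2.2 P V
  have fin := (stab P V).quotient_finite_of_isOpen hU
  have e1 : ∀ᶠ x in 𝓝 (1 / p ^ 2 : ℝ) ×ˢ 𝓝 (1 / p ^ 2 : ℝ), ∀ c : GQ ⧸ stab P V,
      c.out ∉ stab P V → c.out⁻¹ * tau * c.out ∈ stab P V → ∀ (d d' : ℕ) (k k' : ℤ), 0 < d →
      0 < d' → (M : ℤ) ∣ d - 1 → (M : ℤ) ∣ d' - 1 → d * u + k = x.1 → d' * u + k' = x.2 →
      0 < (io (c.out (bt P (a • V) (b • V) d * bt P (a • V) (b • V) d'))).re :=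
    eventually_all.2 fun c => eventually_imp_distrib_left.2 fun h1 =>
      eventually_imp_distrib_left.2 fun h2 => hKRA A B f P V P₀ u p M a b c.out hD hf hu hp
        cop.coprime_mul_right_right hM ab1 ab2 rP rV h1 h2
  rw [← nhds_prod_eq] at e1
  have t1 : Tendsto (fun e : ℝ => ((1 / p ^ 2 + e, 1 / p ^ 2 - e) : ℝ × ℝ)) (𝓝[≠] 0)
      (𝓝 (1 / p ^ 2, 1 / p ^ 2)) :=
    (Continuous.tendsto' (by fun_prop) 0 _ (by simp)).mono_left nhdsWithin_le_nhds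
  obtain ⟨e, e2, e3⟩ := ((t1.eventually e1.eventually_nhds).and
    (hKRB A B f P V u p a b hf hp ab1 ab2 rP rV)).exists
  rw [nhds_prod_eq] at e2
  obtain ⟨s1, h1, s2, h2, h3⟩ := eventually_prod_iff.1 (e2.and e3)
  obtain ⟨x1, y1, m1, i1⟩ := mem_nhds_iff_exists_Ioo_subset.1 h1
  obtain ⟨x2, y2, m2, i2⟩ := mem_nhds_iff_exists_Ioo_subset.1 h2
  obtain ⟨n₁, N, c, pn1, -, hc, har⟩ := hAR p q M hp hq pM
  have n0 : 0 < n₀ * n₁ := mul_pos pn pn1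
  have fur : ∀ x y : ℝ, x < y → ∃ (d : ℕ) (k : ℤ), Dn p q (n₀ * n₁) d ∧ 0 < d ∧ (M : ℤ) ∣ d - 1 ∧
      d * u + k ∈ Set.Ioo x y := fun x y h => by
    obtain ⟨i, j, k, h4⟩ := hFUR (p ^ (n₀ * n₁)) (q ^ (n₀ * n₁))
      ((p ^ (n₀ * n₁) * q ^ (n₀ * n₁) : ℕ) * u) (Nat.one_lt_pow n0.ne' hp.one_lt)
      (Nat.one_lt_pow n0.ne' hq.one_lt) (Nat.coprime_pow_primes _ _ hp hq ne)
      (hu.natCast_mul (mul_ne_zero (pow_ne_zero _ hp.ne_zero) (pow_ne_zero _ hq.ne_zero))) x y h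
    have h5 : Dn p q (n₀ * n₁) (p ^ (n₀ * n₁ * (i + 1)) * q ^ (n₀ * n₁ * (j + 1))) :=
      ⟨_, _, i.succ_pos, j.succ_pos, rfl⟩
    refine ⟨_, k, h5, mul_pos (pow_pos hp.pos _) (pow_pos hq.pos _), ?_, ?_⟩
    · simpa using dvd_add (har _ _ n0 (dvd_mul_left _ _) h5).2 (hc cop)
    · refine (congrArg (fun z : ℝ => x < z + k ∧ z + k < y) ?_).mp h4
      push_cast
      ring
  obtain ⟨d, k, d1, d2, d3, d4⟩ := fur x1 y1 (m1.1.trans m1.2)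
  obtain ⟨d', k', d1', d2', d3', d4'⟩ := fur x2 y2 (m2.1.trans m2.2)
  obtain ⟨h4, h5⟩ := h3 (i1 d4) (i2 d4')
  refine ⟨_, d, d', n0, dvd_mul_right _ _, d1, d1', h5 d d' k k' rfl rfl, fun g g1 g2 => ?_⟩
  obtain ⟨y, hy⟩ := QuotientGroup.mk_out_eq_mul (stab P V) g
  obtain ⟨fP, fV⟩ := fixP_stab P V
  have h6 := h4 g (fun h => g1 (by rwa [hy, (stab P V).mul_mem_cancel_right y.2] at h)) (by
    rw [hy, show (g * y)⁻¹ * tau * (g * y) = (y : GQ)⁻¹ * (g⁻¹ * tau * g) * y by group]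
    exact mul_mem (mul_mem (inv_mem y.2) g2) y.2) d d' k k' d2 d2' d3 d3' rfl rfl
  rwa [hy, AlgEquiv.mul_apply, ((fP.bt (fV.zsmul a) (fV.zsmul b) d).mul
    (fP.bt (fV.zsmul a) (fV.zsmul b) d')) y y.2] at h6

end Pool.Agent.P.MP_ab3ecb_nt.TP
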