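import Pool.Agent.P.MP_ab3ecb_nt.TP.IfaceB

/-! Step LNK. -/

set_option autoImplicit false
set_option linter.unusedSectionVars false

namespace Pool.Agent.P.MP_ab3ecb_nt.TP

open Filter Topology
open Pool.Agent.P.MP_8b7eba_nt.R2 hiding Sm
open scoped Classical NNReal

namespace LNKx

theorem v_nat (r : Nat.Primes) (w : Pl) (h : w.p = r.1) (n : ℕ) :
    w.v n = NormedField.valuation (n : ℚ_[r.1]) := by
  induction n using Nat.recOnMul with
  | zero => simp
  | one => simp
  | prime p hp =>
    by_cases e : p = r.1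
    · subst e
      have := w.vp
      rw [h] at this
      rw [this]
      apply NNReal.coe_injective
      simp [NormedField.valuation_apply]
    · have n1 : ¬ (r.1 : ℤ) ∣ (p : ℤ) := fun h1 =>
        e ((Nat.prime_dvd_prime_iff_eq r.2 hp).1 (by exact_mod_cast h1)).symm
      have a1 := (Pl.v_int_eq_one (w := w) (n := p)).2 (h ▸ n1)
      have a2 : ‖((p : ℤ) : ℚ_[r.1])‖ = 1 :=
        le_antisymm (Padic.norm_int_le_one _)
          (not_lt.1 fun h2 => n1 (Padic.norm_intCast_lt_one_iff.1 h2))
      rw [Int.cast_natCast] at a1 a2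
      rw [a1]
      apply NNReal.coe_injective
      simp [NormedField.valuation_apply, a2]
  | mul a b ha hb => rw [Nat.cast_mul, Nat.cast_mul, map_mul, map_mul, ha, hb]

theorem v_int (r : Nat.Primes) (w : Pl) (h : w.p = r.1) (n : ℤ) :
    w.v n = NormedField.valuation (n : ℚ_[r.1]) := by
  obtain ⟨m, rfl | rfl⟩ := n.eq_nat_or_neg
  · simpa only [Int.cast_natCast] using v_nat r w h m
  · simpa only [Int.cast_neg, Int.cast_natCast, Valuation.map_neg] using v_nat r w h m

end LNKx

theorem p_LNK :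
    S_LNK := by
  intro r w h
  have k : ∀ q : ℚ, w.v q = NormedField.valuation (q : ℚ_[r.1]) := fun q => by
    rw [Rat.cast_def, Rat.cast_def, map_div₀, map_div₀, LNKx.v_int r w h, LNKx.v_nat r w h]
  refine ⟨k, fun A B c P => ?_⟩
  simp only [Sm, E1, Z, X_pm, Y_pm, pm_eq_zero, map_div₀, Rat.coe_castHom, k]

end Pool.Agent.P.MP_ab3ecb_nt.TP
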