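import Pool.Agent.P.MP_ab3ecb_nt.TP.Iface

/-! Step NLAC. -/

set_option autoImplicit false
set_option linter.unusedSectionVars false

namespace Pool.Agent.P.MP_ab3ecb_nt.TP

open Filter Topology
open scoped Classical NNReal

namespace NLACx

theorem irr {a b : ℕ} (ha : 1 < a) (hb : 1 < b) (h : a.Coprime b) :
    Irrational (Real.log a / Real.log b) := by
  rintro ⟨q, hq⟩
  have a1 : (1 : ℝ) < a := by exact_mod_cast ha
  have b1 : (1 : ℝ) < b := by exact_mod_cast hb
  have hα := Real.log_pos a1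
  have hβ := Real.log_pos b1
  have q0 : 0 ≤ q.num := Rat.num_nonneg.2 (by
    have : (0 : ℝ) ≤ q := by rw [hq]; positivity
    exact_mod_cast this)
  obtain ⟨m, hm⟩ := Int.eq_ofNat_of_zero_le q0
  have d0 : (0 : ℝ) < q.den := by exact_mod_cast q.den_pos
  rw [Rat.cast_def, hm, div_eq_div_iff d0.ne' hβ.ne', Int.cast_natCast, ← Real.log_pow, mul_comm,
    ← Real.log_pow] at hq
  have e : b ^ m = a ^ q.den := by
    exact_mod_cast Real.log_injOn_pos (Set.mem_Ioi.2 (by positivity))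
      (Set.mem_Ioi.2 (by positivity)) hq
  have c : (a ^ q.den).Coprime (b ^ m) := Nat.Coprime.pow _ _ h
  rw [e, Nat.coprime_self] at c
  exact absurd c (Nat.one_lt_pow q.den_nz ha).ne'

theorem nn {K j : ℕ} (h : j ≤ K) (m n : ℤ) :
    0 ≤ ((K * (m.natAbs + n.natAbs) : ℕ) : ℤ) + j * m := by
  have h1 : (j : ℤ) ≤ K := by exact_mod_cast h
  have h2 := neg_abs_le m
  have h3 := abs_nonneg m
  have h4 := abs_nonneg n
  have h5 : (0 : ℤ) ≤ j := by positivity
  push_cast
  nlinarith [mul_nonneg h5 (show 0 ≤ m + |m| by linarith), mul_nonneg (sub_nonneg.2 h1) h3,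
    mul_nonneg (h5.trans h1) h4]

end NLACx

theorem p_NLAC :
    S_NLAC := by
  intro a b ha hb h ε hε
  have a1 : (1 : ℝ) < a := by exact_mod_cast ha
  have b1 : (1 : ℝ) < b := by exact_mod_cast hb
  have hα := Real.log_pos a1
  have hβ := Real.log_pos b1
  obtain ⟨η, hη, η0, η1⟩ := (dense_addSubgroupClosure_pair_iff.2 (NLACx.irr ha hb h)).exists_between
    (Real.log_pos (show 1 < 1 + ε by linarith))
  obtain ⟨m, n, e⟩ := AddSubgroup.mem_closure_pair.1 hη
  rw [zsmul_eq_mul, zsmul_eq_mul] at e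
  set α := Real.log a with hαd
  set β := Real.log b with hβd
  set K := ⌈α / η⌉₊ with hK
  set C := K * (m.natAbs + n.natAbs) with hC
  refine ⟨Real.exp (C * (α + β)), Real.exp_pos _, fun y hy => ?_⟩
  have y0 : 0 < y := (Real.exp_pos _).trans_le hy
  have L0 : 0 ≤ Real.log y - C * (α + β) := sub_nonneg.2 ((Real.le_log_iff_exp_le y0).2 hy)
  set L := Real.log y - C * (α + β) with hL
  set k := ⌊L / α⌋₊ with hk
  have k1 : (k : ℝ) * α ≤ L := (le_div_iff₀ hα).1 (Nat.floor_le (by positivity))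
  have k2 : L < (k + 1) * α := (div_lt_iff₀ hα).1 (Nat.lt_floor_add_one _)
  set j := ⌈(L - k * α) / η⌉₊ with hj
  have j1 : L - k * α ≤ j * η := (div_le_iff₀ η0).1 (Nat.le_ceil _)
  have j2 : (j : ℝ) < (L - k * α) / η + 1 :=
    Nat.ceil_lt_add_one (div_nonneg (sub_nonneg.2 k1) η0.le)
  rw [← sub_lt_iff_lt_add, lt_div_iff₀ η0] at j2
  have jK : j ≤ K := Nat.ceil_mono (div_le_div_of_nonneg_right (by linarith) η0.le)
  obtain ⟨i, hi⟩ := Int.eq_ofNat_of_zero_le (NLACx.nn jK m n)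
  obtain ⟨i', hi'⟩ := Int.eq_ofNat_of_zero_le (NLACx.nn jK n m)
  rw [add_comm n.natAbs] at hi'
  have r1 : (C : ℝ) + j * m = i := by exact_mod_cast hi
  have r2 : (C : ℝ) + j * n = i' := by exact_mod_cast hi'
  have E : (a : ℝ) ^ (i + k) * b ^ i' = Real.exp (C * (α + β) + k * α + j * η) := by
    rw [← Real.exp_log (show (0 : ℝ) < (a : ℝ) ^ (i + k) * b ^ i' by positivity),
      Real.log_mul (by positivity) (by positivity), Real.log_pow, Real.log_pow, ← hαd, ← hβd,
      Nat.cast_add, ← r1, ← r2, ← e]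
    congr 1
    ring
  refine ⟨i + k, i', ?_, ?_⟩
  · rw [E, ← Real.log_le_iff_le_exp y0]
    linarith
  · rw [E, ← Real.le_log_iff_exp_le (by positivity), Real.log_mul (by positivity) y0.ne']
    linarith

end Pool.Agent.P.MP_ab3ecb_nt.TP
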