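import Pool.Agent.P.MP_ab3ecb_nt.TP.Iface

/-! Step WPC. -/

set_option autoImplicit false
set_option linter.unusedSectionVars false

namespace Pool.Agent.P.MP_ab3ecb_nt.TP

open Filter Topology
open scoped Classical NNReal

namespace WPCx

lemma big (a b x : ℝ) (h : 1 + |a| + |b| ≤ x) : 0 < x ^ 3 + a * x + b := by
  have h1 := abs_nonneg a
  have h2 := abs_nonneg b
  have h3 := neg_abs_le a
  have h4 := neg_abs_le b
  have h5 : 1 ≤ x := by linarith
  have h6 : x * (1 + |a| + |b|) ≤ x ^ 3 := by nlinarith [mul_nonneg (sub_nonneg.2 h5) (sub_nonneg.2 h5)]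
  nlinarith

lemma root (a b : ℝ) : ∃ e : ℝ, e ^ 3 + a * e + b = 0 ∧ ∀ x, e < x → 0 < x ^ 3 + a * x + b := by
  have hc : Continuous fun x : ℝ => x ^ 3 + a * x + b := by fun_prop
  have hne : {x : ℝ | x ^ 3 + a * x + b ≤ 0}.Nonempty := by
    refine ⟨-(1 + |a| + |-b|), ?_⟩
    have := big a (-b) _ le_rfl
    simp only [Set.mem_ofPred_eq]
    nlinarith
  have hbd : BddAbove {x : ℝ | x ^ 3 + a * x + b ≤ 0} :=
    ⟨1 + |a| + |b|, fun x hx => le_of_not_ge fun h => (big a b x h).not_ge hx⟩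
  have h1 : ∀ x, sSup {x : ℝ | x ^ 3 + a * x + b ≤ 0} < x → 0 < x ^ 3 + a * x + b :=
    fun x hx => lt_of_not_ge fun h => hx.not_ge (le_csSup hbd h)
  refine ⟨_, le_antisymm ((isClosed_le hc continuous_const).csSup_mem hne hbd) ?_, h1⟩
  exact ge_of_tendsto (hc.continuousAt.continuousWithinAt (s := Set.Ioi _))
    (eventually_nhdsWithin_of_forall fun x hx => (h1 x hx).le)

end WPCx

theorem p_WPC (hLA : S_LA) :
    S_WPC := by
  intro A B H r hD hH
  obtain ⟨e, he, hp⟩ := WPCx.root A B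
  have hg : ∀ x, e ≤ x → 0 ≤ x ^ 3 + A * x + B := fun x hx =>
    hx.eq_or_lt.elim (fun h => h ▸ he.ge) fun h => (hp x h).le
  choose! c hc using fun (x : ℝ) (hx : e ≤ x) => exists_pt (L := ℝ) hD (Real.sq_sqrt (hg x hx))
  have hloc : ∀ x ∈ Set.Ici e, ∀ᶠ y in 𝓝[Set.Ici e] x, c y - c x ∈ H := by
    intro x hx
    have hA : ToA (𝓝[Set.Ici e] x) c (c x) := by
      refine ⟨(hc x hx).1, eventually_nhdsWithin_of_forall fun y hy => (hc y hy).1, ?_, ?_⟩
      · rw [(hc x hx).2.1]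
        exact (tendsto_id.mono_left nhdsWithin_le_nhds).congr'
          (eventually_nhdsWithin_of_forall fun y hy => (hc y hy).2.1.symm)
      · rw [(hc x hx).2.2]
        have h1 : Continuous fun x : ℝ => √(x ^ 3 + A * x + B) := by fun_prop
        exact ((h1.tendsto x).mono_left nhdsWithin_le_nhds).congr'
          (eventually_nhdsWithin_of_forall fun y hy => (hc y hy).2.2.symm)
    exact (hLA A B ℝ ℝ _ c _ hA r).mono fun y hy =>
      hy.elim (fun h => (show c y - c x = 0 from h) ▸ H.zero_mem) (hH _)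
  have hall : ∀ x, e ≤ x → c x ∈ H := by
    intro x hx
    have h0 : c (max e r) ∈ H := hH _ <| by
      rw [(hc _ (le_max_left e r)).2.1]
      exact (le_max_right e r).trans (le_abs_self _)
    refine isPreconnected_Ici.induction₂' (fun x y => c x ∈ H → c y ∈ H) (fun x hx => ?_)
      (fun _ _ _ _ _ _ h1 h2 h => h2 (h1 h)) (le_max_left e r) hx h0
    refine (hloc x hx).mono fun y hy => ⟨fun h => ?_, fun h => ?_⟩
    · simpa using H.add_mem hy h
    · simpa using H.sub_mem h hy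
  have hP : ∀ P : Pt A B ℝ, P ≠ 0 → e ≤ X P → P ∈ H := fun P h0 h1 =>
    (eq_or_neg h0 (hc _ h1).1 (hc _ h1).2.1.symm).elim (fun h => h ▸ hall _ h1)
      fun h => h ▸ H.neg_mem (hall _ h1)
  have h2 : ∀ P : Pt A B ℝ, P ≠ 0 → Y P = 0 → P + P = 0 := fun P h0 h1 =>
    add_eq_zero_iff_eq_neg.2 (pt_ext h0 (neg_ne_zero.2 h0) (X_neg P).symm (by simp [h1]))
  refine ⟨fun P => ?_, c e, hall e le_rfl, (hc e le_rfl).1, ?_⟩
  · rw [two_nsmul]
    by_cases h1 : P + P = 0
    · exact h1 ▸ H.zero_mem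
    have h0 : P ≠ 0 := fun h => h1 (by rw [h, add_zero])
    obtain ⟨l, hx, -, -, hl⟩ := add_spec h0 h0 h1
    have hy : 0 < (Y P + Y P) ^ 2 := sq_pos_of_ne_zero fun h => h1 (h2 P h0 (by linarith))
    refine hP _ h1 (sub_nonneg.1 (nonneg_of_mul_nonneg_left ?_ hy))
    have h3 : (X (P + P) - e) * (Y P + Y P) ^ 2 = (X P ^ 2 - 2 * e * X P - 2 * e ^ 2 - A) ^ 2 := by
      rw [hx]
      linear_combination (l * (Y P + Y P) + 3 * X P ^ 2 + A) * hl - 4 * (2 * X P + e) * eqn h0 -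
        4 * (2 * X P + e) * he
    rw [h3]
    exact sq_nonneg _
  · rw [two_nsmul]
    exact h2 _ (hc e le_rfl).1 (by rw [(hc e le_rfl).2.2, he, Real.sqrt_zero])

end Pool.Agent.P.MP_ab3ecb_nt.TP
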